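/-
ROW DAa. Inertia elements which fix a uniformiser modulo higher order act trivially on the tree.
PROOF. Let `g ∈ Λ.I`, `V ϖ = exp (-1)` and `V (g • ϖ / ϖ - 1) < 1`. Induction on `t`: level 0 is `b`
(hG.fixb). Let `x ∈ lev (t+1)`; `g` fixes `ev f x ∈ lev t` by induction, so
`ev f (g • x) = g • ev f x = ev f x` (ev_smul). Suppose `g • x ≠ x`. `g • x ∈ lev (t+1)` (smul_lev hT
or directly) and `V (g • x - x) < 1` (Λ.inert, lev_int), so `ball (g • x) = ball x` (ball_eq); by
pair_crit there is `c ∈ W` with `V (g • x - c) < 1`, `V (x - c) < 1`. `g • c = c` (crit_fixed,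
hG.Wroot). Let `D = x - c`; `g • D = g • x - c`. `D ≠ 0` (otherwise `x = c` is fixed). crit_pair:
`V (g • x + x - 2*c) ≤ V (x - c)^2`, i.e. `V (g • D + D) ≤ V D ^ 2 < V D`. Hence
(*) `V (g • D / D + 1) < 1`.
On the other hand `V D = exp (-e)` for an integer `e` (nonzero value; WithZero.exp_log), `e ≥ 0`
(even > 0) since `V D < 1`; take `e : ℕ`. `u = D / ϖ^e` has `V u = 1`, and
`g • D / D = (g • u / u) * (g • ϖ / ϖ)^e`. Now `V (g • u / u - 1) = V (g • u - u) / V u < 1`
(Λ.inert), and `V (r^e - 1) < 1` when `V (r - 1) < 1` (induction; `V r = 1`). A product of two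
elements which are `≡ 1` is `≡ 1`. So (**) `V (g • D / D - 1) < 1`. Subtracting, `V 2 < 1`,
contradicting hG.two.
-/
import Pool.Agent.H42.PCM.D2

set_option autoImplicit false

namespace Pool.Agent.H42.PC

open Polynomial WithZero

variable {G L : Type} [Group G] [Field L] [MulSemiringAction G L] {Λ : Loc G L}
  {f : L[X]} {b : L} {W : Finset L} {J s N : ℕ}

theorem unit_mul {V : Valuation L ℤᵐ⁰} {x y : L} (hx : V (x - 1) < 1) (hy : V (y - 1) < 1) :
    V (x * y - 1) < 1 := by
  rw [show x * y - 1 = (x - 1) * (y - 1) + (x - 1) + (y - 1) by ring]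
  refine V.map_add_lt (V.map_add_lt ?_ hx) hy
  rw [map_mul]
  exact lt_of_le_of_lt (mul_le_of_le_one_right' hy.le) hx

private theorem DAa_pow {V : Valuation L ℤᵐ⁰} {r : L} (hr : V (r - 1) < 1) (e : ℕ) :
    V (r ^ e - 1) < 1 := by
  induction e with
  | zero =>
    rw [pow_zero, sub_self, map_zero]
    exact zero_lt_one
  | succ e ih =>
    rw [pow_succ]
    exact unit_mul ih hr

theorem ker_trivial (hG : Good Λ f b W J) (hT : Tree G (ev f) b f.natDegree N) {ϖ : L}
    (hϖ : Λ.V ϖ = exp (-1)) {g : G} (hg : g ∈ Λ.I) (h1 : Λ.V (g • ϖ / ϖ - 1) < 1) :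
    ∀ t ≤ N, ∀ x ∈ lev (ev f) b t, g • x = x := by
  intro t
  induction t with
  | zero =>
    intro _ x hx
    have hxb : x = b := hx
    rw [hxb]
    exact hG.fixb g
  | succ t ih =>
    intro ht x hx
    have hx1 : ev f x ∈ lev (ev f) b t := by
      have h2 : (ev f)^[t + 1] x = b := hx
      rw [Function.iterate_succ_apply] at h2
      exact h2
    have hfx := ih (by omega) _ hx1
    by_contra hne
    have hgl : g • x ∈ lev (ev f) b (t + 1) := smul_lev hT g hx
    have he : ev f (g • x) = ev f x := by rw [ev_smul hG, hfx]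
    have hxi : Λ.V x ≤ 1 := lev_int hG hx
    have hgx : Λ.V (g • x - x) < 1 := Λ.inert g hg x hxi
    obtain ⟨c, hc, hgc, hxc⟩ := pair_crit hG hgl hx he (ball_eq.2 hgx) hne
    have hcf : g • c = c := crit_fixed hG (hG.Wroot c hc) hg
    have hcp := crit_pair hG hc hgc hxc he hne
    have hgD : g • (x - c) = g • x - c := by rw [smul_sub, hcf]
    have hD0 : x - c ≠ 0 := by
      intro h0
      apply hne
      have hxc' : x = c := sub_eq_zero.1 h0
      rw [hxc', hcf]
    have hVD : Λ.V (x - c) ≠ 0 := by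
      rw [Ne, map_eq_zero]
      exact hD0
    have hsum : Λ.V (g • (x - c) / (x - c) + 1) < 1 := by
      have h3 : g • (x - c) / (x - c) + 1 = (g • x + x - 2 * c) / (x - c) := by
        rw [hgD]
        field_simp
        ring
      rw [h3, map_div₀]
      refine lt_of_le_of_lt (div_le_div_of_nonneg_right hcp zero_le) ?_
      rw [sq, mul_div_assoc, div_self hVD, mul_one]
      exact hxc
    -- the order of `x - c`
    obtain ⟨e, he'⟩ : ∃ e : ℕ, Λ.V (x - c) = exp (-(e : ℤ)) := by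
      have h4 : exp (log (Λ.V (x - c))) = Λ.V (x - c) := exp_log hVD
      have h5 : log (Λ.V (x - c)) < 0 := by
        rw [← h4, ← exp_zero, exp_lt_exp] at hxc
        exact hxc
      refine ⟨(-log (Λ.V (x - c))).toNat, ?_⟩
      rw [Int.toNat_of_nonneg (by omega), neg_neg, h4]
    have hϖ0 : ϖ ≠ 0 := by
      intro h0
      rw [h0, map_zero] at hϖ
      exact exp_ne_zero hϖ.symm
    have hVe : Λ.V (ϖ ^ e) = Λ.V (x - c) := by
      rw [map_pow, hϖ, he', ← exp_nsmul]
      congr 1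
      rw [nsmul_eq_mul]
      ring
    have hu : Λ.V ((x - c) / ϖ ^ e) = 1 := by
      rw [map_div₀, hVe, div_self hVD]
    have hu0 : (x - c) / ϖ ^ e ≠ 0 := div_ne_zero hD0 (pow_ne_zero _ hϖ0)
    have hgu : Λ.V (g • ((x - c) / ϖ ^ e) / ((x - c) / ϖ ^ e) - 1) < 1 := by
      have h6 : g • ((x - c) / ϖ ^ e) / ((x - c) / ϖ ^ e) - 1 =
          (g • ((x - c) / ϖ ^ e) - (x - c) / ϖ ^ e) / ((x - c) / ϖ ^ e) := by
        rw [sub_div (g • ((x - c) / ϖ ^ e)), div_self hu0]
      rw [h6, map_div₀, hu, div_one]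
      exact Λ.inert g hg _ hu.le
    have hprod : g • (x - c) / (x - c) =
        (g • ((x - c) / ϖ ^ e) / ((x - c) / ϖ ^ e)) * (g • ϖ / ϖ) ^ e := by
      have h7 : x - c = (x - c) / ϖ ^ e * ϖ ^ e := by
        rw [div_mul_cancel₀ _ (pow_ne_zero _ hϖ0)]
      conv_lhs => rw [h7]
      rw [smul_mul', smul_pow', div_pow, mul_div_mul_comm]
    have hdiff : Λ.V (g • (x - c) / (x - c) - 1) < 1 := by
      rw [hprod]
      exact unit_mul hgu (DAa_pow h1 e)
    have h2 : Λ.V 2 < 1 := by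
      rw [show (2 : L) = (g • (x - c) / (x - c) + 1) - (g • (x - c) / (x - c) - 1) by ring]
      exact Λ.V.map_sub_lt hsum hdiff
    rw [hG.two] at h2
    exact lt_irrefl _ h2

end Pool.Agent.H42.PC
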