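/-
ROW DAb. The inertia group acts on the tree through a cyclic group (tameness).
PROOF. `Λ.unif ⊥ bot_le` gives `ϖ` with `V ϖ = exp (-1)` (`Nat.card (⊥ : Subgroup G) = 1`). For
`g ∈ Λ.I` let `c g = g • ϖ / ϖ`; `V (c g) = 1` (Λ.inv). For `g, h ∈ Λ.I`:
`c (g*h) = (g • (c h)) * c g` and `V (g • (c h) - c h) < 1` (Λ.inert). So the class of `c g` in the
residue field `k` of `Λ.V` is a homomorphism `θ : Λ.I →* kˣ`. For instance take
`k = IsLocalRing.ResidueField Λ.V.valuationSubring` (or `Λ.V.integer`, or avoid the residue field by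
the quotient of the subgroup `{x : Lˣ | V x = 1}` of `Lˣ`... the residue FIELD is needed because we
use that finite subgroups of the multiplicative group of a field are cyclic). Equality of classes:
`θ g = θ h ↔ V (c g - c h) < 1`. `θ.range` is a finite subgroup of `kˣ`, hence cyclic
(`subgroup_units_cyclic` instance, or isCyclic_of_subgroup_isDomain). Let `σ ∈ Λ.I` be such that
`θ σ` generates the range. Let `g ∈ Λ.I`: `θ g = θ σ ^ j` with `j : ℕ` (finite order, e.g.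
`mem_powers_iff_mem_zpowers`), so `r = σ^(-j) * g ∈ Λ.I` (i.e. `(σ^j)⁻¹ * g`) satisfies `θ r = 1`,
that is `V (r • ϖ / ϖ - 1) < 1`; by ker_trivial (row DAa) `r` acts trivially on the levels `≤ N`, so
`g • x = σ^j • r • x = σ^j • x`.
-/
import Pool.Agent.H42.AD.DAa

set_option autoImplicit false

namespace Pool.Agent.H42.PC

open Polynomial WithZero

variable {G L : Type} [Group G] [Field L] [MulSemiringAction G L] [Finite G] {Λ : Loc G L}
  {f : L[X]} {b : L} {W : Finset L} {J s N : ℕ}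

theorem cyc_gen (hG : Good Λ f b W J) (hT : Tree G (ev f) b f.natDegree N) :
    ∃ σ ∈ Λ.I, ∀ g ∈ Λ.I, ∃ j : ℕ, ∀ t ≤ N, ∀ x ∈ lev (ev f) b t, g • x = σ ^ j • x := by
  obtain ⟨ϖ, -, hϖ⟩ := Λ.unif ⊥ bot_le
  have hϖ' : Λ.V ϖ = exp (-1) := by
    rw [hϖ]; simp
  have hϖ0 : ϖ ≠ 0 := by
    intro h0
    rw [h0, map_zero] at hϖ'
    exact exp_ne_zero hϖ'.symm
  have hV0 : Λ.V ϖ ≠ 0 := by
    rw [hϖ']; exact exp_ne_zero
  have hsm0 : ∀ g : G, g • ϖ ≠ 0 := fun g h => hϖ0 ((smul_eq_zero_iff_eq g).1 h)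
  have hc1 : ∀ g ∈ Λ.I, Λ.V (g • ϖ / ϖ) = 1 := by
    intro g hg
    rw [map_div₀, Λ.inv g hg, div_self hV0]
  -- the cocycle
  have hcoc : ∀ g h : G, (g * h) • ϖ / ϖ = g • (h • ϖ / ϖ) * (g • ϖ / ϖ) := by
    intro g h
    rw [mul_smul, smul_div₀', div_mul_div_comm, mul_comm (g • ϖ) ϖ,
      mul_div_mul_right _ _ (hsm0 g)]
  let O := Λ.V.valuationSubring
  let c : Λ.I → O := fun g => ⟨(g : G) • ϖ / ϖ, (hc1 g g.2).le⟩
  have hres : ∀ x y : O, IsLocalRing.residue O x = IsLocalRing.residue O y ↔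
      Λ.V ((x : L) - y) < 1 := by
    intro x y
    rw [← sub_eq_zero, ← map_sub, IsLocalRing.residue_eq_zero_iff]
    exact Valuation.mem_maximalIdeal_iff (v := Λ.V) (a := x - y)
  let θ : Λ.I →* IsLocalRing.ResidueField O :=
    { toFun := fun g => IsLocalRing.residue O (c g)
      map_one' := by
        rw [← map_one (IsLocalRing.residue O)]
        congr 1
        apply Subtype.ext
        show ((1 : Λ.I) : G) • ϖ / ϖ = 1
        rw [Subgroup.coe_one, one_smul, div_self hϖ0]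
      map_mul' := by
        intro g h
        rw [← map_mul, hres]
        show Λ.V (((g * h : Λ.I) : G) • ϖ / ϖ - ((g : G) • ϖ / ϖ) * ((h : G) • ϖ / ϖ)) < 1
        rw [Subgroup.coe_mul, hcoc, mul_comm ((g : G) • ϖ / ϖ) ((h : G) • ϖ / ϖ), ← sub_mul,
          map_mul, hc1 g g.2, mul_one]
        exact Λ.inert g g.2 _ (hc1 h h.2).le }
  haveI hfinI : Finite θ.toHomUnits.range := Finite.of_surjective _ (MonoidHom.rangeRestrict_surjective θ.toHomUnits)
  have hcyc : IsCyclic θ.toHomUnits.range := isCyclic_subgroup_units _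
  obtain ⟨⟨s, σ, hσ⟩, hs⟩ := hcyc.exists_generator
  refine ⟨σ, σ.2, fun g hg => ?_⟩
  have h1 : (⟨θ.toHomUnits ⟨g, hg⟩, ⟨g, hg⟩, rfl⟩ : θ.toHomUnits.range) ∈
      Submonoid.powers (⟨s, σ, hσ⟩ : θ.toHomUnits.range) := by
    rw [mem_powers_iff_mem_zpowers]
    exact hs _
  obtain ⟨j, hj⟩ := h1
  have hj' : s ^ j = θ.toHomUnits ⟨g, hg⟩ := congrArg Subtype.val hj
  rw [← hσ, ← map_pow] at hj'
  have hj2 : θ (σ ^ j) = θ ⟨g, hg⟩ := congrArg Units.val hj'
  refine ⟨j, ?_⟩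
  -- the difference
  set r : Λ.I := (σ ^ j)⁻¹ * ⟨g, hg⟩ with hr
  have hr1 : θ r = 1 := by
    rw [hr, map_mul, ← hj2, ← map_mul, inv_mul_cancel, map_one]
  have hr2 : Λ.V ((r : G) • ϖ / ϖ - 1) < 1 := by
    rw [← map_one (IsLocalRing.residue O)] at hr1
    exact (hres (c r) 1).1 hr1
  have hk := ker_trivial hG hT hϖ' r.2 hr2
  intro t ht x hx
  have := hk t ht x hx
  have hgr : g = (σ : G) ^ j * (r : G) := by
    rw [hr]
    simp
  rw [hgr, mul_smul, this]

end Pool.Agent.H42.PC
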