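/-
ROW DCb. Every critical residue above the cycle point of level `t0 = (n+1)*(n*(v0+1))` is a digit
(moved by inertia). Let `P = mkPlace hG s N hs`, `E = Nat.card Λ.I`.
PROOFS.
* start_odd: let `y ∈ lev t0` be on the cycle. `n ∣ t0`, so `red y = red b` (onC_eq, with
  `weak_cyc`/`strong_cyc` for the Cyc structure), i.e. `V (y - b) < 1`, `b ∈ W` (hG.bW).
  `shallow` (PCM/D1; contrapositive; `t0 ≥ n*v0`) gives `exp (-E) < V (y - b)`, so `y ≠ b`; div_pos
  (for `H = P.st y`, `g • (y - b) = y - b`) gives `N1 ≥ 1` with `V (y-b) = exp (-(N1 * |st y|))`.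
  `dLate_size` (private in PCM/D2, section DLate: copy it together with dLate_crit, dLate_cardpos,
  dLate_inj, dLate_prev under new names) for `t = t0`, `x = y`, `c = b`: `Odd N1` or
  `2 ^ ((t0 - n*v0)/n) * N1 < 2 ^ (n*v0)`; the latter is impossible because
  `(t0 - n*v0)/n = (n+1)*(v0+1) - v0 ≥ n*v0` and `N1 ≥ 1`.
* full_digit: let `w ∈ lev m`, `m ≥ t0`, `y = (ev f)^[m-t0] w` on the cycle, `ev f x = w`,
  `ball x ∈ ball '' W`. CLAIM: for every `j` with `1 ≤ j`, `t0 + j ≤ N`, every `x' ∈ lev (t0+j)`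
  with `(ev f)^[j] x' = y` and `c' ∈ W` with `V (x' - c') < 1`:
  (i) there is an odd `N1` with `V (x' - c') = exp (-(N1 * |st x'|))`,
  (ii) `exp (-E) < V (x' - c')`, (iii) `|st (ev f x')| = 2 * |st x'|`.
  Strong induction on `j`. Let `i` be the least number `≥ 1` with
  `ball ((ev f)^[i] x') ∈ ball '' W`; it exists and is `≤ j` because `ball y = ball b ∈ ball '' W`.
  Let `x'' = (ev f)^[i] x' ∈ lev (t0 + (j - i))` and `c'' ∈ W` near it. If `i = j` then `x'' = y`: take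
  `c'' = b`, and (i), (ii) hold for `x'', c''` by start_odd. If `i < j` they hold by induction.
  Apply parity_gen (row DCa) with `t := t0 + (j-i)`, `j := i`, `c := c''`, hbig := (ii):
  it gives `N2` with `V (x'' - c'') = exp (-(N2 * |st x''|))`; as exp is injective and
  `|st x''| ≥ 1`, `N2 = N1` is odd. So the first alternative (`N1 = 2M`) is impossible, and the second
  gives `|st x''| = 2 |st x'|`, `V (x' - c') = exp (-(N1 * |st x'|))`, which is `≥ V (x''-c'') >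
  exp (-E)`; and `st (ev f x') = st x''`. This proves the claim.
  Apply the claim to `x' = x`, `j = m + 1 - t0`: `|st w| = 2 |st x|`, so `st w ≤ st x` is false and
  there is `g ∈ Λ.I` with `g • w = w`, `g • x ≠ x` (as at the end of strong_cyc in PCM/D2).
-/
import Pool.Agent.H42.AD.DCa

set_option autoImplicit false

namespace Pool.Agent.H42.PC

open Polynomial WithZero

variable {G L : Type} [Group G] [Field L] [MulSemiringAction G L] [Finite G] {Λ : Loc G L}
  {f : L[X]} {b : L} {W : Finset L} {J s N : ℕ}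

theorem DCb_crit {x : L} (h : ball Λ x ∈ (ball Λ) '' (W : Set L)) :
    ∃ c ∈ W, Λ.V (x - c) < 1 := by
  obtain ⟨c, hc, he⟩ := h
  exact ⟨c, hc, ball_eq.1 he.symm⟩

theorem DCb_cardpos (H : Subgroup G) : 0 < Nat.card H := Nat.card_pos

theorem DCb_inj {a c k : ℕ} (hk : 0 < k)
    (h : (exp (-((a : ℤ) * (k : ℤ))) : ℤᵐ⁰) = exp (-((c : ℤ) * (k : ℤ)))) : a = c := by
  have h1 := exp_injective h
  have h2 : ((a * k : ℕ) : ℤ) = ((c * k : ℕ) : ℤ) := by
    push_cast
    linarith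
  have h3 : a * k = c * k := by exact_mod_cast h2
  exact Nat.eq_of_mul_eq_mul_right hk h3

theorem DCb_prev (hG : Good Λ f b W J) (hs : W.card ≤ s) {n v0 t1 : ℕ} (hn : 1 ≤ n)
    (hC : Cyc (mkPlace hG s N hs) n t1) {t : ℕ} (ht : n * v0 < t) (htN : t ≤ N) {x : L}
    (hx : x ∈ lev (ev f) b t) (hon : (mkPlace hG s N hs).OnC x) :
    ∃ i, 1 ≤ i ∧ i ≤ n ∧ n * v0 ≤ t - i ∧ i ≤ t ∧
      ball Λ ((ev f)^[i] x) ∈ (ball Λ) '' (W : Set L) ∧
      ∀ i', 1 ≤ i' → i' < i → ball Λ ((ev f)^[i'] x) ∉ (ball Λ) '' (W : Set L) := by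
  classical
  set q := (t - 1) / n with hq
  have h1 : n * q ≤ t - 1 := Nat.mul_div_le _ _
  have h2 : v0 ≤ q := (Nat.le_div_iff_mul_le (by omega)).2 (by rw [mul_comm]; omega)
  have h3 : t - 1 < n * (q + 1) := Nat.lt_mul_div_succ _ (by omega)
  have h3' : n * (q + 1) = n * q + n := by ring
  have h4 : n * v0 ≤ n * q := Nat.mul_le_mul_left _ h2
  have hmem : ball Λ ((ev f)^[t - n * q] x) ∈ (ball Λ) '' (W : Set L) := by
    have ha : (ev f)^[t - n * q] x ∈ lev (ev f) b (n * q) := by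
      have := lev_iter hx (show t - n * q ≤ t by omega)
      rwa [show t - (t - n * q) = n * q by omega] at this
    have hb : (mkPlace hG s N hs).OnC ((ev f)^[t - n * q] x) :=
      onC_iter _ (by omega) htN hx hon
    have hc : (mkPlace hG s N hs).red ((ev f)^[t - n * q] x) = (mkPlace hG s N hs).red b :=
      onC_eq hC (by omega) (Dvd.intro _ rfl) ha hb
    have hd := hC.hb
    rw [← hc] at hd
    exact hd
  have hex : ∃ i, 1 ≤ i ∧ ball Λ ((ev f)^[i] x) ∈ (ball Λ) '' (W : Set L) :=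
    ⟨t - n * q, by omega, hmem⟩
  have hspec := Nat.find_spec hex
  have hle : Nat.find hex ≤ t - n * q := Nat.find_min' hex ⟨by omega, hmem⟩
  refine ⟨Nat.find hex, hspec.1, by omega, by omega, by omega, hspec.2, ?_⟩
  intro i' h1' h2' hbad
  exact Nat.find_min hex h2' ⟨h1', hbad⟩

theorem DCb_size (hG : Good Λ f b W J) (hs : W.card ≤ s)
    (hT : Tree G (ev f) b f.natDegree N) {n v0 t1 : ℕ} (hn : 1 ≤ n) (hv : 1 ≤ v0)
    (hb : Λ.V ((ev f)^[n] b - b) = exp (-((v0 : ℤ) * (Nat.card Λ.I : ℤ))))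
    (hC : Cyc (mkPlace hG s N hs) n t1) (t : ℕ) :
    n * v0 ≤ t → t ≤ N → ∀ x ∈ lev (ev f) b t, (mkPlace hG s N hs).OnC x → ∀ c ∈ W,
      Λ.V (x - c) < 1 → ∀ N1 : ℕ,
      Λ.V (x - c) = exp (-((N1 : ℤ) * (Nat.card ((mkPlace hG s N hs).st x) : ℤ))) →
      Odd N1 ∨ 2 ^ ((t - n * v0) / n) * N1 < 2 ^ (n * v0) := by
  classical
  induction t using Nat.strong_induction_on with
  | _ t ih =>
  intro ht htN x hx hon c hc hxc N1 hV
  set P := mkPlace hG s N hs with hP
  rcases ht.eq_or_lt with he | hlt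
  · right
    have h1 : exp (-(Nat.card Λ.I : ℤ)) < Λ.V (x - c) := by
      by_contra h2
      push Not at h2
      have := shallow hG hs hT hn hv hb htN hx hon hc h2
      omega
    rw [hV, exp_lt_exp] at h1
    have h2 : N1 * Nat.card (P.st x) < Nat.card Λ.I := by
      have h3 : ((N1 * Nat.card (P.st x) : ℕ) : ℤ) < (Nat.card Λ.I : ℤ) := by
        push_cast
        linarith
      exact_mod_cast h3
    have h3 := path_le hT P (m := 0) (j := t) (by omega) (u := x) (by rwa [zero_add])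
    have hbx : (ev f)^[t] x = b := hx
    have hstb : P.st ((ev f)^[t] x) = Λ.I := by
      rw [hbx]
      ext g
      rw [GSt_mem]
      exact ⟨fun h => h.1, fun h => ⟨h, hG.fixb g⟩⟩
    rw [hstb] at h3
    have h4 : ((Finset.range t).filter fun i => P.red ((ev f)^[i] x) ∈ P.A).card ≤ t :=
      (Finset.card_filter_le _ _).trans (by rw [Finset.card_range])
    have h5 : (P.st x).relIndex Λ.I ≤ 2 ^ t :=
      h3.trans (Nat.pow_le_pow_right (by norm_num) h4)
    have hle : P.st x ≤ Λ.I := inf_le_left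
    have h6 : Nat.card (P.st x) * (P.st x).relIndex Λ.I = Nat.card Λ.I := by
      have := Subgroup.relIndex_mul_relIndex ⊥ (P.st x) Λ.I bot_le hle
      rwa [Subgroup.relIndex_bot_left, Subgroup.relIndex_bot_left] at this
    have h7 : N1 < 2 ^ t := by
      by_contra h8
      push Not at h8
      have h9 : Nat.card (P.st x) * (P.st x).relIndex Λ.I ≤ N1 * Nat.card (P.st x) := by
        rw [mul_comm]
        exact Nat.mul_le_mul_right _ (h5.trans h8)
      omega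
    rw [← he, Nat.sub_self, Nat.zero_div, pow_zero, one_mul, he]
    exact h7
  · obtain ⟨i, hi1, hin, hit, hitt, hA, hno⟩ := DCb_prev hG hs hn hC hlt htN hx hon
    obtain ⟨cp, hcp, hxp⟩ := DCb_crit hA
    have hti : t - i + i = t := by omega
    obtain ⟨M', hM1, hM2, hM3, hM4⟩ := parity hG hs hT hn hv hb (t := t - i) (j := i) hi1
      (by omega) hit (x' := x) (by rw [hti]; exact hx) hon hcp hc hxp hxc hno
    rcases hM4 with ⟨M, hM, hst, hVM⟩ | ⟨hodd, _, hVM⟩
    · have hN : N1 = M := DCb_inj (DCb_cardpos _) (hV.symm.trans hVM)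
      subst hN
      have hxl : (ev f)^[i] x ∈ lev (ev f) b (t - i) := lev_iter hx hitt
      have honi : P.OnC ((ev f)^[i] x) := onC_iter P hitt htN hx hon
      rcases ih (t - i) (by omega) hit (by omega) _ hxl honi cp hcp hxp M' hM2 with h | h
      · exfalso
        rw [hM] at h
        exact (Nat.not_odd_iff_even.2 (even_two_mul N1)) h
      · right
        have h1 : (t - n * v0) / n ≤ (t - i - n * v0) / n + 1 := by
          rw [← Nat.add_div_right _ (by omega : 0 < n)]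
          exact Nat.div_le_div_right (by omega)
        calc 2 ^ ((t - n * v0) / n) * N1 ≤ 2 ^ ((t - i - n * v0) / n + 1) * N1 :=
              Nat.mul_le_mul_right _ (Nat.pow_le_pow_right (by norm_num) h1)
          _ = 2 ^ ((t - i - n * v0) / n) * M' := by rw [hM, pow_succ]; ring
          _ < _ := h
    · left
      have hN : N1 = M' := DCb_inj (DCb_cardpos _) (hV.symm.trans hVM)
      rw [hN]
      exact hodd

theorem DCb_lt (Λ : Loc G L) {v0 : ℕ} (hv : 1 ≤ v0) :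
    (exp (-((v0 : ℤ) * (Nat.card Λ.I : ℤ))) : ℤᵐ⁰) < 1 := by
  rw [← exp_zero, exp_lt_exp]
  have h1 : (0 : ℤ) < (Nat.card Λ.I : ℤ) := by exact_mod_cast DCb_cardpos Λ.I
  have h2 : (0 : ℤ) < (v0 : ℤ) := by exact_mod_cast hv
  have := mul_pos h2 h1
  linarith

theorem DCb_t0 {n v0 : ℕ} (hn : 1 ≤ n) :
    n * v0 ≤ (n + 1) * (n * (v0 + 1)) ∧
      n * v0 ≤ ((n + 1) * (n * (v0 + 1)) - n * v0) / n := by
  have hexp : (n + 1) * (n * (v0 + 1)) = (n + 1) * (n * v0) + (n + 1) * n := by ring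
  have e1 : (n + 1) * (n * v0) = n * v0 * n + n * v0 := by ring
  refine ⟨by omega, ?_⟩
  rw [Nat.le_div_iff_mul_le (by omega)]
  omega

theorem start_odd (hG : Good Λ f b W J) (hs : W.card ≤ s)
    (hT : Tree G (ev f) b f.natDegree N) {n v0 : ℕ} (hn : 1 ≤ n) (hv : 1 ≤ v0)
    (hb : Λ.V ((ev f)^[n] b - b) = exp (-((v0 : ℤ) * (Nat.card Λ.I : ℤ))))
    (hN : (n + 1) * (n * (v0 + 1)) ≤ N) {y : L} (hy : y ∈ lev (ev f) b ((n + 1) * (n * (v0 + 1))))
    (hon : (mkPlace hG s N hs).OnC y) :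
    Λ.V (y - b) < 1 ∧ exp (-(Nat.card Λ.I : ℤ)) < Λ.V (y - b) ∧
      ∃ N1 : ℕ, Odd N1 ∧
        Λ.V (y - b) = exp (-((N1 : ℤ) * (Nat.card ((mkPlace hG s N hs).st y) : ℤ))) := by
  have hlt : Λ.V ((ev f)^[n] b - b) < 1 := by
    rw [hb]
    exact DCb_lt Λ hv
  have hC := weak_cyc hG hs hT hn hlt
  obtain ⟨ht1, ht2⟩ := DCb_t0 (v0 := v0) hn
  have hdvd : n ∣ (n + 1) * (n * (v0 + 1)) := Dvd.dvd.mul_left (Dvd.intro _ rfl) _
  have hred : (mkPlace hG s N hs).red y = (mkPlace hG s N hs).red b := onC_eq hC hN hdvd hy hon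
  have h1 : Λ.V (y - b) < 1 := ball_eq.1 hred
  have h2 : exp (-(Nat.card Λ.I : ℤ)) < Λ.V (y - b) := by
    by_contra h
    push Not at h
    have := shallow hG hs hT hn hv hb hN hy hon hG.bW h
    omega
  have hne : y - b ≠ 0 := by
    intro h0
    rw [h0, map_zero] at h2
    exact absurd h2 (not_lt_of_ge zero_le)
  obtain ⟨N1, hN1, hV⟩ := div_pos Λ ((mkPlace hG s N hs).st y) inf_le_left (y - b) hne
    (fun g hg => by
      rw [smul_sub, hG.fixb g]
      have : g • y = y := hg.2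
      rw [this]) h1
  refine ⟨h1, h2, N1, ?_, hV⟩
  rcases DCb_size hG hs hT hn hv hb hC _ ht1 hN y hy hon b hG.bW h1 N1 hV with h | h
  · exact h
  · exfalso
    have h3 : 2 ^ (n * v0) ≤ 2 ^ (((n + 1) * (n * (v0 + 1)) - n * v0) / n) * N1 :=
      (Nat.pow_le_pow_right (by norm_num) ht2).trans (Nat.le_mul_of_pos_right _ (by omega))
    omega

theorem DCb_claim (hG : Good Λ f b W J) (hs : W.card ≤ s)
    (hT : Tree G (ev f) b f.natDegree N) {t0 : ℕ} {y : L}
    (hy1 : Λ.V (y - b) < 1) (hy2 : exp (-(Nat.card Λ.I : ℤ)) < Λ.V (y - b))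
    (hy3 : ∃ N1 : ℕ, Odd N1 ∧
        Λ.V (y - b) = exp (-((N1 : ℤ) * (Nat.card ((mkPlace hG s N hs).st y) : ℤ)))) (j : ℕ) :
    1 ≤ j → t0 + j ≤ N → ∀ x' ∈ lev (ev f) b (t0 + j), (ev f)^[j] x' = y → ∀ c' ∈ W,
      Λ.V (x' - c') < 1 →
      (∃ N1 : ℕ, Odd N1 ∧
        Λ.V (x' - c') = exp (-((N1 : ℤ) * (Nat.card ((mkPlace hG s N hs).st x') : ℤ)))) ∧
      exp (-(Nat.card Λ.I : ℤ)) < Λ.V (x' - c') ∧
      Nat.card ((mkPlace hG s N hs).st (ev f x')) =
        2 * Nat.card ((mkPlace hG s N hs).st x') := by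
  classical
  induction j using Nat.strong_induction_on with
  | _ j ih =>
  intro hj1 hjN x' hx' hxy c' hc' hxc'
  have hex : ∃ i, 1 ≤ i ∧ ball Λ ((ev f)^[i] x') ∈ (ball Λ) '' (W : Set L) := by
    refine ⟨j, hj1, b, hG.bW, ?_⟩
    rw [hxy]
    exact (ball_eq.2 hy1).symm
  have hmemj : ball Λ ((ev f)^[j] x') ∈ (ball Λ) '' (W : Set L) := by
    refine ⟨b, hG.bW, ?_⟩
    rw [hxy]
    exact (ball_eq.2 hy1).symm
  obtain ⟨hi1, hiA⟩ := Nat.find_spec hex
  have hile : Nat.find hex ≤ j := Nat.find_min' hex ⟨hj1, hmemj⟩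
  have hno : ∀ i', 1 ≤ i' → i' < Nat.find hex →
      ball Λ ((ev f)^[i'] x') ∉ (ball Λ) '' (W : Set L) := fun i' h1 h2 hbad =>
    Nat.find_min hex h2 ⟨h1, hbad⟩
  generalize Nat.find hex = i at hi1 hiA hile hno
  have hxi : (ev f)^[i] x' ∈ lev (ev f) b (t0 + (j - i)) := by
    have := lev_iter hx' (show i ≤ t0 + j by omega)
    rwa [show t0 + j - i = t0 + (j - i) by omega] at this
  have hkey : ∃ c ∈ W, Λ.V ((ev f)^[i] x' - c) < 1 ∧
      (∃ N1 : ℕ, Odd N1 ∧ Λ.V ((ev f)^[i] x' - c) =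
        exp (-((N1 : ℤ) * (Nat.card ((mkPlace hG s N hs).st ((ev f)^[i] x')) : ℤ)))) ∧
      exp (-(Nat.card Λ.I : ℤ)) < Λ.V ((ev f)^[i] x' - c) := by
    rcases hile.eq_or_lt with he | hlt
    · subst he
      refine ⟨b, hG.bW, ?_⟩
      rw [hxy]
      exact ⟨hy1, hy3, hy2⟩
    · obtain ⟨c, hc, hxc⟩ := DCb_crit hiA
      obtain ⟨h1, h2, -⟩ := ih (j - i) (by omega) (by omega) (by omega) _ hxi (by
        rw [← Function.iterate_add_apply, show j - i + i = j by omega, hxy]) c hc hxc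
      exact ⟨c, hc, hxc, h1, h2⟩
  obtain ⟨c, hc, hxc, ⟨N1, hodd, hN1⟩, hbig⟩ := hkey
  obtain ⟨N2, hN2, hV2, hst, hor⟩ := parity_gen hG hs hT (t := t0 + (j - i)) (j := i) hi1
    (by omega) (x' := x') (by rw [show t0 + (j - i) + i = t0 + j by omega]; exact hx') hc hc' hxc
    hxc' hno hbig
  have hNN : N2 = N1 := DCb_inj (DCb_cardpos _) (hV2.symm.trans hN1)
  subst hNN
  rcases hor with ⟨M, hM, -, -⟩ | ⟨-, hcard, hV⟩
  · exfalso
    rw [hM] at hodd
    exact (Nat.not_odd_iff_even.2 (even_two_mul M)) hodd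
  · refine ⟨⟨N2, hodd, hV⟩, ?_, ?_⟩
    · refine lt_of_lt_of_le hbig ?_
      rw [hV2, hV, exp_le_exp, hcard]
      push_cast
      have h1 : (0 : ℤ) ≤ (N2 : ℤ) * (Nat.card ((mkPlace hG s N hs).st x') : ℤ) := by positivity
      linarith
    · rw [← hst]
      exact hcard

theorem full_digit (hG : Good Λ f b W J) (hs : W.card ≤ s)
    (hT : Tree G (ev f) b f.natDegree N) {n v0 : ℕ} (hn : 1 ≤ n) (hv : 1 ≤ v0)
    (hb : Λ.V ((ev f)^[n] b - b) = exp (-((v0 : ℤ) * (Nat.card Λ.I : ℤ)))) :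
    ∀ m, (n + 1) * (n * (v0 + 1)) ≤ m → m < N → ∀ w ∈ lev (ev f) b m,
      (mkPlace hG s N hs).OnC ((ev f)^[m - (n + 1) * (n * (v0 + 1))] w) → ∀ x, ev f x = w →
      ball Λ x ∈ (ball Λ) '' (W : Set L) → ∃ g ∈ Λ.I, g • w = w ∧ g • x ≠ x := by
  intro m hm hmN w hw hon x hx hxA
  generalize ht0 : (n + 1) * (n * (v0 + 1)) = t0 at hm hon
  have hy : (ev f)^[m - t0] w ∈ lev (ev f) b t0 := by
    have := lev_iter hw (show m - t0 ≤ m by omega)
    rwa [show m - (m - t0) = t0 by omega] at this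
  obtain ⟨hy1, hy2, N1, hodd, hN1⟩ := start_odd hG hs hT hn hv hb (by rw [ht0]; omega)
    (by rw [ht0]; exact hy) hon
  have claim := DCb_claim hG hs hT (t0 := t0) hy1 hy2 ⟨N1, hodd, hN1⟩ (m + 1 - t0) (by omega)
    (by omega) x ?_ ?_
  · obtain ⟨c, hc, hxc⟩ := DCb_crit hxA
    obtain ⟨-, -, hcard⟩ := claim c hc hxc
    rw [hx] at hcard
    by_contra hcon
    push Not at hcon
    have hle : (mkPlace hG s N hs).st w ≤ (mkPlace hG s N hs).st x := by
      intro g hg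
      rw [GSt_mem] at hg ⊢
      exact ⟨hg.1, hcon g hg.1 hg.2⟩
    have h1 := Subgroup.card_le_of_le hle
    have h2 := DCb_cardpos ((mkPlace hG s N hs).st x)
    omega
  · rw [show t0 + (m + 1 - t0) = m + 1 by omega]
    exact lev_up (j := 1) (by rw [Function.iterate_one, hx]; exact hw)
  · rw [show m + 1 - t0 = (m - t0) + 1 by omega, Function.iterate_succ_apply, hx]

end Pool.Agent.H42.PC
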