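import Pool.Agent.H42.PCM.G2

/-! Density zero for all degrees: definitions (project AD). The group theoretic setting is the one
of `Pool.Agent.H42.PCM.G1` (`Tree`, `Orb`, `Place`, `Cyc`, `InO`, `q`). -/

set_option autoImplicit false

namespace Pool.Agent.H42.PC

open scoped Classical

variable {G Ω : Type} [Group G] [MulAction G Ω] {F : Ω → Ω} {b : Ω} {d N s J n t0 : ℕ}

/-- A place at which the residue of `b` has exact period `n`, with cyclic inertia group (as far as
the tree is concerned), lifting of paths, and inertia at all critical residues above the cycle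
point of level `t0`. -/
structure Full (P : Place G F b s J N) (n t0 : ℕ) : Prop extends Cyc P n t0 where
  hmin : ∀ i, 1 ≤ i → i < n → P.FR^[i] (P.red b) ≠ P.red b
  hgen : ∃ σ ∈ P.I, ∀ g ∈ P.I, ∃ j : ℕ, ∀ t ≤ N, ∀ x ∈ lev F b t, g • x = σ ^ j • x
  hlift : ∀ t t', t' < N → ∀ w ∈ lev F b t, ∀ w' ∈ lev F b t', P.red w = P.red w' →
    ∀ x, F x = w → ∃ x', F x' = w' ∧ P.red x' = P.red x
  hoff : ∀ m, t0 ≤ m → m < N → ∀ w ∈ lev F b m, P.OnC (F^[m - t0] w) → ∀ x, F x = w →
    P.red x ∈ P.A → ∃ g ∈ P.I, g • w = w ∧ g • x ≠ x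

namespace Place

/-- The same place with a smaller inertia group. -/
def sub (P : Place G F b s J N) (I' : Subgroup G) (h : I' ≤ P.I) : Place G F b s J N where
  R := P.R
  FR := P.FR
  red := P.red
  I := I'
  A := P.A
  hAfin := P.hAfin
  hA := P.hA
  hred := P.hred
  hI := fun g hg => P.hI g (h hg)
  hone := P.hone
  htwo := P.htwo
  hJ := P.hJ

/-- The size of the orbit of `x` under the inertia group (index of the stabiliser). -/
noncomputable def ind (P : Place G F b s J N) (x : Ω) : ℕ := (P.st x).relIndex P.I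

/-- The number of critical residues among `x, F x, ..., F^[h-1] x`. -/
noncomputable def nc (P : Place G F b s J N) (h : ℕ) (x : Ω) : ℕ :=
  ((Finset.range h).filter fun i => P.red (F^[i] x) ∈ P.A).card

/-- The maximal number of critical residues on a path of length `h` above `w`. -/
noncomputable def mc (P : Place G F b s J N) (h : ℕ) (w : Ω) : ℕ :=
  sSup {k | ∃ x, F^[h] x = w ∧ k = P.nc h x}

/-- The number of critical residues on the cycle. -/
noncomputable def son (P : Place G F b s J N) (n : ℕ) : ℕ :=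
  ((Finset.range n).filter fun i => P.FR^[i] (P.red b) ∈ P.A).card

/-- The maximal index on level `l`. -/
noncomputable def ma (P : Place G F b s J N) (O : ℕ → Set Ω) (l : ℕ) : ℕ := sSup (P.ind '' O l)

/-- The possible gaps `l - m` between level `l` and the level `m` at which two points of `SD`
diverge. -/
def HH (P : Place G F b s J N) (l : ℕ) : Set ℕ :=
  {h | (∃ c ∈ P.A, P.FR^[l + 1] c = P.red b ∧ P.FR^[h] c ∈ P.A) ∨
    ∃ c ∈ P.A, ∃ c' ∈ P.A, P.FR^[h] c ≠ P.FR^[h] c' ∧ P.FR^[h + 1] c = P.FR^[h + 1] c'}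

/-- The points of level `t` on the cycle have a critical residue (`n` is a period). -/
def dg (P : Place G F b s J N) (n t : ℕ) : Prop := P.FR^[(n - 1) * t] (P.red b) ∈ P.A

end Place

/-- The average number of points `z ∈ O T` such that `g` has a fixed point in `O l` above `z`. -/
noncomputable def Zm (G : Type) {Ω : Type} [Group G] [MulAction G Ω] (F : Ω → Ω)
    (O : ℕ → Set Ω) (T l : ℕ) : ℝ :=
  (Nat.card {p : G × Ω // p.2 ∈ O T ∧ ∃ y ∈ O l, F^[l - T] y = p.2 ∧ p.1 • y = y} : ℝ) /
    Nat.card G

end Pool.Agent.H42.PC
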