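/-
ROW DEa. A good valuation at which `b` is periodic with exact period `n` gives a `Full` place.
PROOF. The Cyc part is `strong_cyc hG hs hT hn hv hb` (PCM/D2). Let `P = mkPlace hG s N hs`
(R = Set L, FR = FRm Λ f, red = ball Λ, I = Λ.I, A = ball Λ '' W, all by definition).
* hmin: `P.FR^[i] (P.red b) = ball ((ev f)^[i] b)` (FR_iter, hG.bint); equality with `ball b` means
  `V ((ev f)^[i] b - b) < 1` (ball_eq), excluded by hmin.
* hgen: cyc_gen (row DAb).
* hlift: `ball w = ball w'`, i.e. `V (w - w') < 1` (ball_eq); `ev f x = w`. Apply dEx_root (PCM/D1) with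
  `w := w'`, `y := x`: `hT.fib t' ht' w' hw'` gives the cardinality; it yields `z` with
  `ev f z = w'`, `V (x - z) < 1`, so `ball z = ball x`.
* hoff: full_digit (row DCb).
-/
import Pool.Agent.H42.AD.Defs
import Pool.Agent.H42.AD.DAb
import Pool.Agent.H42.AD.DCb

set_option autoImplicit false

namespace Pool.Agent.H42.PC

open Polynomial WithZero

variable {G L : Type} [Group G] [Field L] [MulSemiringAction G L] [Finite G] {Λ : Loc G L}
  {f : L[X]} {b : L} {W : Finset L} {J s N : ℕ}

theorem full_place (hG : Good Λ f b W J) (hs : W.card ≤ s)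
    (hT : Tree G (ev f) b f.natDegree N) {n v0 : ℕ} (hn : 1 ≤ n) (hv : 1 ≤ v0)
    (hb : Λ.V ((ev f)^[n] b - b) = exp (-((v0 : ℤ) * (Nat.card Λ.I : ℤ))))
    (hmin : ∀ i, 1 ≤ i → i < n → ¬ Λ.V ((ev f)^[i] b - b) < 1) :
    Full (mkPlace hG s N hs) n ((n + 1) * (n * (v0 + 1))) := by
  refine { strong_cyc hG hs hT hn hv hb with
    hmin := ?_
    hgen := ?_
    hlift := ?_
    hoff := ?_ }
  · intro i hi1 hin heq
    have h1 : (FRm Λ f)^[i] (ball Λ b) = ball Λ b := heq
    rw [FR_iter hG hG.bint i, ball_eq] at h1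
    exact hmin i hi1 hin h1
  · exact cyc_gen hG hT
  · intro t t' ht' w _ w' hw' hred x hx
    have h1 : Λ.V (w - w') < 1 := by
      have h2 : ball Λ w = ball Λ w' := hred
      rwa [ball_eq] at h2
    have h3 : Λ.V (ev f x - w') < 1 := by rw [hx]; exact h1
    obtain ⟨z, hz, hyz⟩ := dEx_root hG (hT.fib t' ht' w' hw') h3
    refine ⟨z, hz, ?_⟩
    change ball Λ z = ball Λ x
    rw [ball_eq, Valuation.map_sub_swap]
    exact hyz
  · intro m hm hmN w hw hon x hx hA
    exact full_digit hG hs hT hn hv hb m hm hmN w hw hon x hx hA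

end Pool.Agent.H42.PC
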