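/-
ROW EAa. Full places over good primes with exact period.
PROOF of place_over2. `place_over` (PCM/E2, section EPl) gives `hG`, the Cyc part and InO for
`mkPlace hG s N _`. For Full use full_place (row DEa) with the same `hG` (any two proofs of Good are
equal; `obtain ⟨hG, -, hI⟩ := place_over ...; exact ⟨hG, full_place hG _ _ hn hv0 ?_ ?_, hI⟩`).
 - hT: `(f.map _).natDegree = f.natDegree` (natDegree_map), as in place_over.
 - hb: copy the computation in place_over (`FA_base`, `val_pow`, hval).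
 - hmin: if `w.valuation L ((FA f L)^[i] b - b) < 1` then, as this element is
   `algebraMap K L ((FA f K)^[i] β - β)` (FA_base) and its valuation is the valuation at `v` to the
   power `|I| ≥ 1` (val_pow), the valuation at `v` is `< 1` (one_le_pow₀), contradiction.
PROOF of pl_full: exists_over (PCM/E2), `mkPlace` with `s = (Wd f M).card`; see ELim_pl in PCM/E3
(section ELim), `ELim_gpM` is private there: copy it (GP_hom IsAlgClosed.lift).
-/
import Pool.Agent.H42.PCM.E3
import Pool.Agent.H42.AD.DEa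

set_option autoImplicit false

namespace Pool.Agent.H42.PC

open Polynomial NumberField IsDedekindDomain WithZero

open scoped Classical

theorem EAa_finite {K M : Type} [Field K] [NumberField K] [Field M] [NumberField M]
    [Algebra K M] : Algebra.IsAlgebraic K M := by
  have : FiniteDimensional K M := Module.Finite.of_restrictScalars_finite ℚ K M
  exact Algebra.IsAlgebraic.of_finite K M

theorem EAa_gpM {K M : Type} [Field K] [NumberField K] [Field M] [NumberField M]
    [Algebra K M] {f : K[X]} {β : K} (hGP : GP f β (AlgebraicClosure K)) : GP f β M := by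
  have : Algebra.IsAlgebraic K M := EAa_finite
  exact GP_hom (IsAlgClosed.lift : M →ₐ[K] AlgebraicClosure K) hGP

theorem place_over2 {K M L : Type} [Field K] [NumberField K] [Field M] [NumberField M] [Field L]
    [NumberField L] [Algebra K M] [Algebra M L] [Algebra K L] [IsScalarTower K M L] [IsGalois K L]
    {f h : K[X]} {β : K} (hd : 2 ≤ f.natDegree) (hGP : GP f β M)
    (hM : ((derivative f).map (algebraMap K M)).Splits) {J n0 N s n v0 : ℕ}
    {v : HeightOneSpectrum (𝓞 K)} (hv : GoodK f β M J v) (hn0 : n0 ≤ N) (hJ0 : n0 ≤ J)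
    (hT : Tree (L ≃ₐ[K] L) (FA f L) (algebraMap K L β) f.natDegree N)
    (hO : Orb (L ≃ₐ[K] L) (FA f L) (algebraMap K L β) n0 N (OO f h n0 L))
    (hs : ∀ t ≤ N, ((f.comp^[t] X - C β).map (algebraMap K L)).Splits)
    (hm : h.Monic) (hdvd : h ∣ f.comp^[n0] X - C β) (hcard : (Wd f M).card ≤ s)
    (hn : 1 ≤ n) (hv0 : 1 ≤ v0) (hval : v.valuation K ((FA f K)^[n] β - β) = exp (-(v0 : ℤ)))
    (hmin : ∀ i, 1 ≤ i → i < n → ¬ v.valuation K ((FA f K)^[i] β - β) < 1)
    {k : ℕ} (hk : v.valuation K (h.eval ((FA f K)^[k] β)) < 1)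
    (w : HeightOneSpectrum (𝓞 L)) (hw : w.asIdeal.LiesOver v.asIdeal) :
    ∃ hG : Good (mkLoc K w) (f.map (algebraMap K L)) (algebraMap K L β)
        ((Wd f M).image (algebraMap M L)) J,
      Full (mkPlace hG s N (Finset.card_image_le.trans hcard)) n ((n + 1) * (n * (v0 + 1))) ∧
      InO (mkPlace hG s N (Finset.card_image_le.trans hcard)) (OO f h n0 L) := by
  obtain ⟨hG, -, hI⟩ := place_over hd hGP hM hv hn0 hJ0 hT hO hs hm hdvd hcard hn hv0 hval hk w hw
  have hcI : 0 < Nat.card (w.asIdeal.inertia (L ≃ₐ[K] L)) := Nat.card_pos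
  have hbase : ∀ i, (mkLoc K w).V ((ev (f.map (algebraMap K L)))^[i] (algebraMap K L β)
      - algebraMap K L β) = w.valuation L (algebraMap K L ((FA f K)^[i] β - β)) := by
    intro i
    have h1 : (mkLoc K w).V ((FA f L)^[i] (algebraMap K L β) - algebraMap K L β) =
        w.valuation L (algebraMap K L ((FA f K)^[i] β - β)) := by
      rw [map_sub (algebraMap K L), FA_base]
      rfl
    exact h1
  refine ⟨hG, full_place hG _ ?_ hn hv0 ?_ ?_, hI⟩
  · rw [natDegree_map]
    exact hT
  · refine (hbase n).trans ?_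
    rw [val_pow v w hw, hval, ← exp_nsmul]
    congr 1
    rw [nsmul_eq_mul]
    change ((Nat.card (w.asIdeal.inertia (L ≃ₐ[K] L)) : ℕ) : ℤ) * -(v0 : ℤ) =
      -((v0 : ℤ) * ((Nat.card (w.asIdeal.inertia (L ≃ₐ[K] L)) : ℕ) : ℤ))
    ring
  · intro i hi1 hin hlt
    rw [hbase i, val_pow v w hw] at hlt
    apply hmin i hi1 hin
    by_contra hcon
    push Not at hcon
    exact absurd hlt (not_lt.mpr (one_le_pow₀ hcon))

theorem pl_full {K M L : Type} [Field K] [NumberField K] [Field M] [NumberField M]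
    [Field L] [NumberField L] [Algebra K M] [Algebra M L] [Algebra K L] [IsScalarTower K M L]
    [IsGalois K L] {f h : K[X]} {β : K} [IsSplittingField K M (derivative f)]
    (hd : 2 ≤ f.natDegree) (hGP : GP f β (AlgebraicClosure K))
    {J n0 N n v0 : ℕ}
    {v : HeightOneSpectrum (𝓞 K)} (hv : GoodK f β M J v) (hn0 : n0 ≤ N) (hJ0 : n0 ≤ J)
    (hT : Tree (L ≃ₐ[K] L) (FA f L) (algebraMap K L β) f.natDegree N)
    (hO : Orb (L ≃ₐ[K] L) (FA f L) (algebraMap K L β) n0 N (OO f h n0 L))
    (hs : ∀ t ≤ N, ((f.comp^[t] X - C β).map (algebraMap K L)).Splits)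
    (hm : h.Monic) (hdvd : h ∣ f.comp^[n0] X - C β)
    (hn : 1 ≤ n) (hv0 : 1 ≤ v0)
    (hval : v.valuation K ((FA f K)^[n] β - β) = WithZero.exp (-(v0 : ℤ)))
    (hmin : ∀ i, 1 ≤ i → i < n → ¬ v.valuation K ((FA f K)^[i] β - β) < 1)
    {k : ℕ} (hk : v.valuation K (h.eval ((FA f K)^[k] β)) < 1) :
    ∃ P : Place (L ≃ₐ[K] L) (FA f L) (algebraMap K L β) (Wd f M).card J N,
      Full P n ((n + 1) * (n * (v0 + 1))) ∧ InO P (OO f h n0 L) := by
  obtain ⟨w, hw⟩ := exists_over (L := L) v
  obtain ⟨hG, h1, h2⟩ := place_over2 hd (EAa_gpM (M := M) hGP)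
    (IsSplittingField.splits M (derivative f)) hv hn0 hJ0 hT hO hs hm hdvd le_rfl hn hv0 hval hmin
    hk w hw
  exact ⟨_, h1, h2⟩

end Pool.Agent.H42.PC
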