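/-
ROW GFa. Number of clusters with a fixed point. For `g : G` let
`cl T l g = {z | z ∈ O T ∧ ∃ y ∈ O l, F^[l-T] y = z ∧ g • y = y}`.
PROOFS.
* cl_fin: subset of `O T`, which is finite (lev_fin, hO.sub).
* zm_sum: `Zm G F O T l = (∑ g, (cl g).ncard) / |G|`: the subtype of pairs is equivalent to the sigma
  type (see `e` in gin_many, PCM/G2), Nat.card_sigma; push_cast.
* zm_one: for `l = T`, `F^[0] y = z` so `cl T T g = {z ∈ O T : g • z = z}`: this is `burnside`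
  (PCM/G2) divided by `|G| > 0`.
* zm_nonneg: div_nonneg.
* cl_sub: if `y ∈ O (l+1)`, `F^[l+1-T] y = z`, `g • y = y` then `F y ∈ O l` (hO.par),
  `F^[l-T] (F y) = z` (`l+1-T = (l-T)+1`, Function.iterate_succ_apply), `g • F y = F y` (hT.equiv).
* zm_anti: zm_sum and cl_sub (Set.ncard_le_ncard).
-/
import Pool.Agent.H42.AD.Defs

set_option autoImplicit false

namespace Pool.Agent.H42.PC

open scoped Classical

variable {G Ω : Type} [Group G] [MulAction G Ω] {F : Ω → Ω} {b : Ω}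
  {d N n0 : ℕ} {O : ℕ → Set Ω}

/-- The clusters over `O T` in which `g` fixes a point of level `l`. -/
def cl (F : Ω → Ω) (O : ℕ → Set Ω) (T l : ℕ) (g : G) : Set Ω :=
  {z | z ∈ O T ∧ ∃ y ∈ O l, F^[l - T] y = z ∧ g • y = y}

theorem cl_fin (hT : Tree G F b d N) (hO : Orb G F b n0 N O) {T l : ℕ} (hTN : T ≤ N) (g : G) :
    (cl F O T l g).Finite :=
  ((lev_fin hT hTN).subset (hO.sub T hTN)).subset fun _ hz => hz.1

theorem cl_sub (hT : Tree G F b d N) (hO : Orb G F b n0 N O) {T l : ℕ} (hTl : T ≤ l)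
    (hl : l < N) (g : G) : cl F O T (l + 1) g ⊆ cl F O T l g := by
  rintro z ⟨hz, y, hy, hyz, hgy⟩
  refine ⟨hz, F y, hO.par l hl y hy, ?_, ?_⟩
  · rw [show l + 1 - T = (l - T) + 1 by omega, Function.iterate_succ_apply] at hyz
    exact hyz
  · rw [← hT.equiv, hgy]

theorem zm_sum [Fintype G] (hT : Tree G F b d N) (hO : Orb G F b n0 N O) {T l : ℕ} (hTN : T ≤ N) :
    Zm G F O T l = (∑ g : G, ((cl F O T l g).ncard : ℝ)) / Nat.card G := by
  have e : {p : G × Ω // p.2 ∈ O T ∧ ∃ y ∈ O l, F^[l - T] y = p.2 ∧ p.1 • y = y} ≃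
      (Σ g : G, {z : Ω // z ∈ O T ∧ ∃ y ∈ O l, F^[l - T] y = z ∧ g • y = y}) :=
    { toFun := fun p => ⟨p.1.1, ⟨p.1.2, p.2⟩⟩
      invFun := fun p => ⟨(p.1, p.2.1), p.2.2⟩
      left_inv := fun _ => rfl
      right_inv := fun _ => rfl }
  have : ∀ g : G, Finite {z : Ω // z ∈ O T ∧ ∃ y ∈ O l, F^[l - T] y = z ∧ g • y = y} :=
    fun g => (cl_fin hT hO hTN g).to_subtype
  unfold Zm
  rw [Nat.card_congr e, Nat.card_sigma]
  push_cast
  rfl

theorem zm_one [Finite G] (hT : Tree G F b d N) (hO : Orb G F b n0 N O) {T : ℕ} (hTN : T ≤ N) :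
    Zm G F O T T = 1 := by
  have hb := burnside hT hO hTN
  have hG : (Nat.card G : ℝ) ≠ 0 := Nat.cast_ne_zero.2 Nat.card_pos.ne'
  have e : {p : G × Ω // p.2 ∈ O T ∧ ∃ y ∈ O T, F^[T - T] y = p.2 ∧ p.1 • y = y} ≃
      {p : G × Ω // p.2 ∈ O T ∧ p.1 • p.2 = p.2} := by
    refine Equiv.subtypeEquivRight fun p => ?_
    rw [Nat.sub_self]
    constructor
    · rintro ⟨h1, y, _, h3, h4⟩
      have h3' : y = p.2 := h3
      rw [h3'] at h4
      exact ⟨h1, h4⟩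
    · rintro ⟨h1, h2⟩
      exact ⟨h1, p.2, h1, rfl, h2⟩
  unfold Zm
  rw [Nat.card_congr e, hb, div_self hG]

theorem zm_nonneg {T l : ℕ} : 0 ≤ Zm G F O T l :=
  div_nonneg (Nat.cast_nonneg _) (Nat.cast_nonneg _)

theorem zm_anti [Finite G] (hT : Tree G F b d N) (hO : Orb G F b n0 N O) {T l : ℕ}
    (hTl : T ≤ l) (hl : l < N) : Zm G F O T (l + 1) ≤ Zm G F O T l := by
  have := Fintype.ofFinite G
  rw [zm_sum hT hO (by omega), zm_sum hT hO (by omega)]
  refine div_le_div_of_nonneg_right (Finset.sum_le_sum fun g _ => ?_) (Nat.cast_nonneg _)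
  exact_mod_cast Set.ncard_le_ncard (cl_sub hT hO hTl hl g) (cl_fin hT hO (by omega) g)

end Pool.Agent.H42.PC
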