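/-
ROW GFb. One good level kills many clusters: a variant of `q_step` of PCM/G2 (section GIn).
PROOF: follow the proof of `q_step` (PCM/G2.lean, about 140 lines) with
`C := {g : G | (cl F O T (l+1) g).ncard < (cl F O T l g).ncard}`.
Let `B`, `B'`, `H`, `HF` be as there. For `g ∈ B'` let `y0 ∈ O l` be a fixed point of `g`,
`z = F^[l-T] y0 ∈ O T` (orb_iter), and let `h0` be given by `hder g z`. With
`X = {x ∈ O (l+1) : g • F x = F x}` and gin_cls, gin_X, gin_pow as there,
`|HF| ≤ D * #{h ∈ HF : h • x = h0 • x for all x ∈ X}`. For such `h`, `g*h ∈ C`: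
 - `cl (l+1) (g*h) ⊆ cl l (g*h)` by cl_sub;
 - `z ∈ cl l (g*h)`: `(g*h) • y0 = g • y0 = y0`;
 - `z ∉ cl (l+1) (g*h)`: if `x ∈ O (l+1)`, `F^[l+1-T] x = z`, `(g*h) • x = x`, then
   `F x ∈ O l`, `(g*h) • F x = F x` and `h • F x = F x` so `g • F x = F x`, `x ∈ X`,
   `h • x = h0 • x`, so `(g*h0) • x = x`, contradicting hder;
 so the ncard is strictly smaller (Set.ncard_lt_ncard, cl_fin).
Double counting as in q_step: `|B'| ≤ D * |C|`, and `|B'| ≥ |B| - |G|/(k+1)` (gin_many).
Finally (zm_sum) `Zm T l - Zm T (l+1) = (∑ g, (ncard (cl l g) - ncard (cl (l+1) g))) / |G| ≥ |C|/|G|`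
since every term is `≥ 0` (cl_sub) and `≥ 1` on `C`. Conclude as in q_step with
`q G O l = |B| / |G|`.
-/
import Pool.Agent.H42.AD.GFa

set_option autoImplicit false

namespace Pool.Agent.H42.PC

open scoped Classical

variable {G Ω : Type} [Group G] [MulAction G Ω] {F : Ω → Ω} {b : Ω}
  {d N n0 : ℕ} {O : ℕ → Set Ω}

theorem cluster_step [Finite G] (hT : Tree G F b d N) (hO : Orb G F b n0 N O) (hd : 1 ≤ d)
    {T l : ℕ} (hl0 : n0 ≤ l) (hTl : T ≤ l) (hl : l < N) (k : ℕ) (hk : 1 ≤ k)
    (hder : ∀ g : G, ∀ z ∈ O T, {y | y ∈ O l ∧ g • y = y}.ncard ≤ k →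
      ∃ h : G, (∀ x ∈ O l, h • x = x) ∧
        ∀ x ∈ O (l + 1), F^[l + 1 - T] x = z → (g * h) • x ≠ x) :
    (q G O l - 1 / ((k : ℝ) + 1)) / (((k * d) ^ (k * d) : ℕ) : ℝ) ≤
      Zm G F O T l - Zm G F O T (l + 1) := by
  have := Fintype.ofFinite G
  set D : ℕ := (k * d) ^ (k * d) with hD
  have hkd : 1 ≤ k * d := Nat.one_le_iff_ne_zero.2 (by positivity)
  have hDpos : 0 < D := by
    rw [hD]
    positivity
  set B : Finset G := Finset.univ.filter fun g => ∃ x ∈ O l, g • x = x with hB
  set B' : Finset G := B.filter fun g => {y | y ∈ O l ∧ g • y = y}.ncard ≤ k with hB'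
  set C : Finset G := Finset.univ.filter fun g : G =>
    (cl F O T (l + 1) g).ncard < (cl F O T l g).ncard with hC
  set H : Subgroup G :=
    { carrier := {h | ∀ x ∈ O l, h • x = x}
      mul_mem' := fun {a c} ha hc x hx => by rw [mul_smul, hc x hx, ha x hx]
      one_mem' := fun x _ => one_smul G x
      inv_mem' := fun {a} ha x hx => by
        have := ha x hx
        rw [inv_smul_eq_iff, this] } with hH
  have hmH : ∀ h : G, h ∈ H ↔ ∀ x ∈ O l, h • x = x := fun _ => Iff.rfl
  set HF : Finset G := Finset.univ.filter fun h : G => h ∈ H with hHF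
  -- every `g ∈ B'` has many `h`
  have hmany : ∀ g ∈ B', HF.card ≤ D * (HF.filter fun h => g * h ∈ C).card := by
    intro g hg
    rw [hB', Finset.mem_filter, hB, Finset.mem_filter] at hg
    obtain ⟨⟨_, y0, hy0, hgy0⟩, hgk⟩ := hg
    have hz : F^[l - T] y0 ∈ O T := by
      have := orb_iter hO (t := l) (j := l - T) (by omega) hl.le hy0
      rwa [show l - (l - T) = T by omega] at this
    obtain ⟨h0, hh0, hf0⟩ := hder g _ hz hgk
    obtain ⟨hXf, hXc⟩ := gin_X hT hO hl {y | y ∈ O l ∧ g • y = y} (fun y hy => hy.1) k hgk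
    set X : Set Ω := {x | x ∈ O (l + 1) ∧ F x ∈ {y | y ∈ O l ∧ g • y = y}} with hX
    have h1 := gin_cls H X hXf (by
      intro h hh x hx
      refine ⟨hO.inv (l + 1) hl h x hx.1, ?_⟩
      rw [hT.equiv, hh (F x) hx.2.1]
      exact hx.2) h0 hh0
    refine h1.trans (Nat.mul_le_mul (gin_pow hXc hkd) (Finset.card_le_card ?_))
    intro h hh
    rw [Finset.mem_filter] at hh ⊢
    obtain ⟨_, hhH, hhX⟩ := hh
    refine ⟨by rw [hHF, Finset.mem_filter]; exact ⟨Finset.mem_univ _, hhH⟩, ?_⟩
    rw [hC, Finset.mem_filter]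
    refine ⟨Finset.mem_univ _, ?_⟩
    refine Set.ncard_lt_ncard ?_ (cl_fin hT hO (by omega) _)
    refine Set.ssubset_iff_of_subset (cl_sub hT hO hTl hl _) |>.2 ⟨F^[l - T] y0, ?_, ?_⟩
    · exact ⟨hz, y0, hy0, rfl, by rw [mul_smul, hhH y0 hy0, hgy0]⟩
    · rintro ⟨_, x, hx, hxz, hgx⟩
      have hFx : F x ∈ O l := hO.par l hl x hx
      have h2 : (g * h) • F x = F x := by rw [← hT.equiv, hgx]
      have h3 : g • F x = F x := by
        rw [mul_smul, hhH (F x) hFx] at h2
        exact h2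
      have h4 : x ∈ X := ⟨hx, hFx, h3⟩
      apply hf0 x hx hxz
      rw [mul_smul, ← hhX x h4, ← mul_smul]
      exact hgx
  -- double counting
  have hdc : ∑ g ∈ B', (HF.filter fun h => g * h ∈ C).card ≤ HF.card * C.card := by
    have h1 : ∑ g ∈ B', (HF.filter fun h => g * h ∈ C).card =
        ∑ h ∈ HF, (B'.filter fun g => g * h ∈ C).card := by
      simp only [Finset.card_filter]
      exact Finset.sum_comm
    rw [h1]
    have h2 : ∀ h ∈ HF, (B'.filter fun g => g * h ∈ C).card ≤ C.card := by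
      intro h _
      refine Finset.card_le_card_of_injOn (fun g => g * h) ?_ ?_
      · intro g hg
        rw [Finset.coe_filter] at hg
        exact hg.2
      · intro g _ g' _ hgg
        exact mul_right_cancel hgg
    refine (Finset.sum_le_sum h2).trans (le_of_eq ?_)
    rw [Finset.sum_const, smul_eq_mul]
  have hHpos : 0 < HF.card := by
    apply Finset.card_pos.2
    exact ⟨1, by rw [hHF, Finset.mem_filter]; exact ⟨Finset.mem_univ _, H.one_mem⟩⟩
  have hBC : B'.card ≤ D * C.card := by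
    have h1 : B'.card * HF.card ≤ D * C.card * HF.card := by
      calc B'.card * HF.card = ∑ g ∈ B', HF.card := by rw [Finset.sum_const, smul_eq_mul]
        _ ≤ ∑ g ∈ B', D * (HF.filter fun h => g * h ∈ C).card := Finset.sum_le_sum hmany
        _ = D * ∑ g ∈ B', (HF.filter fun h => g * h ∈ C).card := by rw [Finset.mul_sum]
        _ ≤ D * (HF.card * C.card) := Nat.mul_le_mul_left D hdc
        _ = _ := by ring
    exact Nat.le_of_mul_le_mul_right h1 hHpos
  -- cardinalities
  have hGpos : 0 < (Nat.card G : ℝ) := by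
    exact_mod_cast Nat.card_pos
  have hql : q G O l = (B.card : ℝ) / Nat.card G := by
    unfold q
    rw [Nat.card_eq_fintype_card (α := {g : G // ∃ x ∈ O l, g • x = x}), Fintype.card_subtype]
  have hzd : (C.card : ℝ) / Nat.card G ≤ Zm G F O T l - Zm G F O T (l + 1) := by
    rw [zm_sum hT hO (by omega : T ≤ N), zm_sum hT hO (by omega : T ≤ N), ← sub_div,
      ← Finset.sum_sub_distrib]
    refine div_le_div_of_nonneg_right ?_ hGpos.le
    have h1 : (C.card : ℝ) = ∑ g : G, if g ∈ C then (1 : ℝ) else 0 := by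
      simp
    rw [h1]
    apply Finset.sum_le_sum
    intro g _
    by_cases hg : g ∈ C
    · rw [if_pos hg]
      rw [hC, Finset.mem_filter] at hg
      have h2 : ((cl F O T (l + 1) g).ncard : ℝ) + 1 ≤ (cl F O T l g).ncard := by
        exact_mod_cast hg.2
      linarith
    · rw [if_neg hg]
      have h2 : (cl F O T (l + 1) g).ncard ≤ (cl F O T l g).ncard :=
        Set.ncard_le_ncard (cl_sub hT hO hTl hl g) (cl_fin hT hO (by omega) g)
      have h3 : ((cl F O T (l + 1) g).ncard : ℝ) ≤ (cl F O T l g).ncard := by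
        exact_mod_cast h2
      linarith
  have hmore := gin_many (G := G) hT hO hl.le k
  have hBB : (B.card : ℝ) - Nat.card G / ((k : ℝ) + 1) ≤ B'.card := by
    have h1 : B.card ≤ B'.card +
        (Finset.univ.filter fun g : G => ¬ {y | y ∈ O l ∧ g • y = y}.ncard ≤ k).card := by
      have h2 : B'.card + (B.filter fun g : G =>
          ¬ {y | y ∈ O l ∧ g • y = y}.ncard ≤ k).card = B.card :=
        Finset.card_filter_add_card_filter_not
          (s := B) (fun g : G => {y | y ∈ O l ∧ g • y = y}.ncard ≤ k)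
      have h3 : (B.filter fun g : G => ¬ {y | y ∈ O l ∧ g • y = y}.ncard ≤ k).card ≤
          (Finset.univ.filter fun g : G => ¬ {y | y ∈ O l ∧ g • y = y}.ncard ≤ k).card :=
        Finset.card_le_card (Finset.filter_subset_filter _ (Finset.subset_univ _))
      omega
    have h4 : (B.card : ℝ) ≤ B'.card +
        (Finset.univ.filter fun g : G => ¬ {y | y ∈ O l ∧ g • y = y}.ncard ≤ k).card := by
      exact_mod_cast h1
    have h5 : ((Finset.univ.filter fun g : G =>
        ¬ {y | y ∈ O l ∧ g • y = y}.ncard ≤ k).card : ℝ) ≤ Nat.card G / ((k : ℝ) + 1) := by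
      rw [le_div_iff₀ (by positivity)]
      have h6 : ((k : ℝ) + 1) * ((Finset.univ.filter fun g : G =>
        ¬ {y | y ∈ O l ∧ g • y = y}.ncard ≤ k).card : ℝ) ≤ Nat.card G := by
        exact_mod_cast hmore
      linarith
    linarith
  have hBC' : (B'.card : ℝ) ≤ D * C.card := by exact_mod_cast hBC
  have hDR : (0 : ℝ) < D := by exact_mod_cast hDpos
  refine le_trans ?_ hzd
  rw [hql, div_le_iff₀ hDR]
  have h7 : (B.card : ℝ) / Nat.card G - 1 / ((k : ℝ) + 1) =
      ((B.card : ℝ) - Nat.card G / ((k : ℝ) + 1)) / Nat.card G := by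
    rw [sub_div]
    congr 1
    field_simp
  rw [h7, div_mul_eq_mul_div]
  refine div_le_div_of_nonneg_right ?_ hGpos.le
  linarith

end Pool.Agent.H42.PC
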