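/-
ROW GFc. Summation over the good levels.
PROOFS.
* q_final: `q` is antitone (q_anti) on levels `≤ N`, so `q (T+N0*n) ≤ q (T+i*n)` for `i ≤ N0`. So
  `(q (T+N0*n) - 1/(k+1)) / D ≤ Zm (T+i*n) - Zm (T+i*n+1)`. As `Zm` is antitone
  (zm_anti; for levels in `[T, N]`) and `T+i*n+1 ≤ T+(i+1)*n`, the sum over `i = 1..N0` of the right
  hand sides is at most `Zm (T+n) - Zm (T+N0*n+1) ≤ Zm T = 1` (zm_one, zm_nonneg). Formally:
  by induction on `i ≤ N0`: `i * (q (T+N0*n) - 1/(k+1)) / D ≤ 1 - Zm (T+i*n+1)`.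
* limit_zero2: as limit_zero in PCM/G2: `q` restricted to `t ≥ n0` is antitone and bounded below, so
  it converges to `L = inf`; `0 ≤ L ≤ q l ≤ 2/(k+1)` for all `k ≥ 1`, so `L = 0`. (Or directly with
  ε: choose `k` with `2/(k+1) < ε` and `l`; for `t ≥ l`, `0 ≤ q t ≤ q l < ε`.)
-/
import Pool.Agent.H42.AD.GFa

set_option autoImplicit false

namespace Pool.Agent.H42.PC

open scoped Classical
open Filter Topology

variable {G Ω : Type} [Group G] [MulAction G Ω] {F : Ω → Ω} {b : Ω}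
  {d N n0 : ℕ} {O : ℕ → Set Ω}

theorem gfc_anti {f : ℕ → ℝ} {a N : ℕ} (h : ∀ l, a ≤ l → l < N → f (l + 1) ≤ f l) {l m : ℕ}
    (hal : a ≤ l) (hlm : l ≤ m) (hm : m ≤ N) : f m ≤ f l := by
  induction m, hlm using Nat.le_induction with
  | base => exact le_refl _
  | succ m hlm ih => exact (h m (hal.trans hlm) (by omega)).trans (ih (by omega))

theorem q_final [Finite G] (hT : Tree G F b d N) (hO : Orb G F b n0 N O) {T n N0 k : ℕ} {D : ℝ}
    (hD : 0 < D) (hn : 1 ≤ n) (hN : T + N0 * n < N)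
    (hstep : ∀ i, 1 ≤ i → i ≤ N0 → (q G O (T + i * n) - 1 / ((k : ℝ) + 1)) / D ≤
      Zm G F O T (T + i * n) - Zm G F O T (T + i * n + 1)) :
    (N0 : ℝ) * (q G O (T + N0 * n) - 1 / ((k : ℝ) + 1)) ≤ D := by
  set Q : ℝ := (q G O (T + N0 * n) - 1 / ((k : ℝ) + 1)) / D with hQ
  have hmul : ∀ i, i ≤ N0 → i * n ≤ N0 * n := fun i hi => Nat.mul_le_mul_right n hi
  have hT0 : T < N := by omega
  have key : ∀ i : ℕ, i ≤ N0 → (i : ℝ) * Q ≤ 1 - Zm G F O T (T + i * n + 1) := by
    intro i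
    induction i with
    | zero =>
      intro _
      have h1 := zm_anti hT hO (le_refl T) hT0
      have h2 := zm_one hT hO (T := T) hT0.le
      simp only [Nat.cast_zero, zero_mul, add_zero]
      linarith
    | succ i ih =>
      intro hi
      have h1 := ih (by omega)
      have h2 := hstep (i + 1) (by omega) hi
      have hle := hmul (i + 1) hi
      have h3 : Q ≤ (q G O (T + (i + 1) * n) - 1 / ((k : ℝ) + 1)) / D := by
        rw [hQ]
        refine div_le_div_of_nonneg_right ?_ hD.le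
        have h4 : q G O (T + N0 * n) ≤ q G O (T + (i + 1) * n) :=
          gfc_anti (f := fun t => q G O t) (a := 0) (N := N)
            (fun l _ hl => q_anti hT hO hl) (Nat.zero_le _) (by omega) (by omega)
        linarith
      have h5 : Zm G F O T (T + (i + 1) * n) ≤ Zm G F O T (T + i * n + 1) := by
        have h6 : i * n + 1 ≤ (i + 1) * n := by
          rw [add_mul, one_mul]
          omega
        exact gfc_anti (f := fun t => Zm G F O T t) (a := T) (N := N)
          (fun l hl hl' => zm_anti hT hO hl hl') (by omega) (by omega) (by omega)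
      push_cast
      rw [add_mul, one_mul]
      linarith
  have h1 := key N0 (le_refl _)
  have h2 : 0 ≤ Zm G F O T (T + N0 * n + 1) := zm_nonneg
  have h3 : (N0 : ℝ) * Q ≤ 1 := by linarith
  have h4 : (N0 : ℝ) * (q G O (T + N0 * n) - 1 / ((k : ℝ) + 1)) = (N0 : ℝ) * Q * D := by
    rw [hQ]
    field_simp
  rw [h4]
  calc (N0 : ℝ) * Q * D ≤ 1 * D := by gcongr
    _ = D := one_mul D

theorem limit_zero2 (q : ℕ → ℝ) (n0 : ℕ) (h0 : ∀ t, 0 ≤ q t)
    (hanti : ∀ t, n0 ≤ t → q (t + 1) ≤ q t)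
    (hq : ∀ k : ℕ, 1 ≤ k → ∃ l, n0 ≤ l ∧ q l ≤ 2 / ((k : ℝ) + 1)) :
    Tendsto q atTop (𝓝 0) := by
  rw [Metric.tendsto_atTop]
  intro ε hε
  obtain ⟨k, hk⟩ := exists_nat_gt (2 / ε)
  obtain ⟨l, hl, hql⟩ := hq (k + 1) (by omega)
  refine ⟨l, fun t ht => ?_⟩
  have hanti' : q t ≤ q l := by
    induction t, ht using Nat.le_induction with
    | base => exact le_refl _
    | succ m hm ih => exact (hanti m (hl.trans hm)).trans ih
  rw [Real.dist_eq, sub_zero, abs_of_nonneg (h0 t)]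
  refine lt_of_le_of_lt (hanti'.trans hql) ?_
  push_cast
  rw [div_lt_iff₀ (by positivity)]
  rw [div_lt_iff₀ hε] at hk
  nlinarith

end Pool.Agent.H42.PC
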