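/-
ROW GIa. Paths can be lifted to any point with the same residue; the maximal number `P.mc h w` of
critical residues above `w` depends only on the residue of `w`.
PROOFS.
* lift_path: induction on `h` (general `t t' w w'`). h = 0: `x = w`, take `x' = w'`, `i = 0`.
  Step: `F^[h+1] x = w`. Put `w1 = F^[h] x`, so `F w1 = w` (Function.iterate_succ_apply') and
  `w1 ∈ lev (t+1)`. `hP.hlift t t' _ w hw w' hw' hr w1 rfl` (`t' < N`) gives `w1'` with `F w1' = w'`,
  `red w1' = red w1`, `w1' ∈ lev (t'+1)`. Induction for `w1, w1', x` gives `x'` with `F^[h] x' = w1'`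
  and equal residues for `i ≤ h`; for `i = h+1` the residues are those of `w'` and `w`.
* mc_bdd: `nc h x ≤ h` (card_filter_le, card_range).
* nc_le_mc: le_csSup.
* exists_mc: the set is nonempty (there is `x` with `F^[h] x = w`: induction on `h`, fibres have
  `d ≥ 1` points by hT.fib, `Set.nonempty_of_ncard_ne_zero`) and bounded: `Nat.sSup_mem`.
* mc_red: take `x` with `nc h x = mc h w` (exists_mc), lift it to `x'` above `w'`
  (lift_path; `nc` only depends on the residues of `F^[i] x`, `i < h`), so `mc h w ≤ mc h w'` by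
  nc_le_mc; symmetric.
-/
import Pool.Agent.H42.AD.Defs

set_option autoImplicit false

namespace Pool.Agent.H42.PC

open scoped Classical

variable {G Ω : Type} [Group G] [MulAction G Ω] {F : Ω → Ω} {b : Ω} {d N s J n t0 : ℕ}

theorem gia_lev {t : ℕ} {w z : Ω} (hw : w ∈ lev F b t) (hz : F z = w) : z ∈ lev F b (t + 1) := by
  have hw' : F^[t] w = b := hw
  show F^[t + 1] z = b
  rw [Function.iterate_succ_apply, hz, hw']

theorem lift_path {P : Place G F b s J N} (hP : Full P n t0) {t t' h : ℕ} (hN : t' + h ≤ N)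
    {w w' : Ω} (hw : w ∈ lev F b t) (hw' : w' ∈ lev F b t') (hr : P.red w = P.red w') {x : Ω}
    (hx : F^[h] x = w) : ∃ x', F^[h] x' = w' ∧ ∀ i ≤ h, P.red (F^[i] x') = P.red (F^[i] x) := by
  induction h generalizing t t' w w' with
  | zero =>
    refine ⟨w', rfl, fun i hi => ?_⟩
    have hi0 : i = 0 := by omega
    subst hi0
    have hx' : x = w := hx
    show P.red w' = P.red x
    rw [hx', hr]
  | succ h ih =>
    have hF : F (F^[h] x) = w := by
      have h0 := hx
      rw [Function.iterate_succ_apply'] at h0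
      exact h0
    obtain ⟨w1', h1, h2⟩ := hP.hlift t t' (by omega) w hw w' hw' hr _ hF
    obtain ⟨x', h3, h4⟩ := ih (t := t + 1) (t' := t' + 1) (by omega) (gia_lev hw hF)
      (gia_lev hw' h1) h2.symm rfl
    have h5 : F^[h + 1] x' = w' := by
      rw [Function.iterate_succ_apply', h3, h1]
    refine ⟨x', h5, fun i hi => ?_⟩
    rcases Nat.lt_or_ge i (h + 1) with hlt | hge
    · exact h4 i (by omega)
    · have hi1 : i = h + 1 := by omega
      subst hi1
      rw [h5, hx, hr]

theorem mc_bdd (P : Place G F b s J N) (h : ℕ) (w : Ω) :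
    BddAbove {k | ∃ x, F^[h] x = w ∧ k = P.nc h x} := by
  refine ⟨h, ?_⟩
  rintro k ⟨x, _, rfl⟩
  unfold Place.nc
  exact (Finset.card_filter_le _ _).trans (Finset.card_range h).le

theorem nc_le_mc (P : Place G F b s J N) {h : ℕ} {x w : Ω} (hx : F^[h] x = w) :
    P.nc h x ≤ P.mc h w :=
  le_csSup (mc_bdd P h w) ⟨x, hx, rfl⟩

theorem gia_ne (hT : Tree G F b d N) (hd : 1 ≤ d) {t h : ℕ}
    (hN : t + h ≤ N) {w : Ω} (hw : w ∈ lev F b t) : ∃ x, F^[h] x = w := by
  induction h generalizing t w with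
  | zero => exact ⟨w, rfl⟩
  | succ h ih =>
    have h1 := hT.fib t (by omega) w hw
    have h2 : ({z | F z = w} : Set Ω).Nonempty := by
      apply Set.nonempty_of_ncard_ne_zero
      omega
    obtain ⟨z, hz⟩ := h2
    have hz' : F z = w := hz
    obtain ⟨x, hx⟩ := ih (t := t + 1) (by omega) (gia_lev hw hz')
    exact ⟨x, by rw [Function.iterate_succ_apply', hx, hz']⟩

theorem exists_mc (hT : Tree G F b d N) (hd : 1 ≤ d) (P : Place G F b s J N) {t h : ℕ}
    (hN : t + h ≤ N) {w : Ω} (hw : w ∈ lev F b t) : ∃ x, F^[h] x = w ∧ P.nc h x = P.mc h w := by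
  obtain ⟨x0, hx0⟩ := gia_ne hT hd hN hw
  have h1 : sSup {k | ∃ x, F^[h] x = w ∧ k = P.nc h x} ∈
      {k | ∃ x, F^[h] x = w ∧ k = P.nc h x} :=
    Nat.sSup_mem ⟨_, x0, hx0, rfl⟩ (mc_bdd P h w)
  obtain ⟨x, hx, hk⟩ := h1
  exact ⟨x, hx, hk.symm⟩

theorem gia_le (hT : Tree G F b d N) (hd : 1 ≤ d) {P : Place G F b s J N} (hP : Full P n t0)
    {t t' h : ℕ} (hN : t + h ≤ N) (hN' : t' + h ≤ N) {w w' : Ω} (hw : w ∈ lev F b t)
    (hw' : w' ∈ lev F b t') (hr : P.red w = P.red w') : P.mc h w ≤ P.mc h w' := by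
  obtain ⟨x, hx, hk⟩ := exists_mc hT hd P hN hw
  obtain ⟨x', hx', hi⟩ := lift_path hP hN' hw hw' hr hx
  rw [← hk]
  have e : P.nc h x = P.nc h x' := by
    unfold Place.nc
    congr 1
    refine Finset.filter_congr (fun i hi' => ?_)
    rw [hi i (Finset.mem_range.1 hi').le]
  rw [e]
  exact nc_le_mc P hx'

theorem mc_red (hT : Tree G F b d N) (hd : 1 ≤ d) {P : Place G F b s J N} (hP : Full P n t0)
    {t t' h : ℕ} (hN : t + h ≤ N) (hN' : t' + h ≤ N) {w w' : Ω} (hw : w ∈ lev F b t)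
    (hw' : w' ∈ lev F b t') (hr : P.red w = P.red w') : P.mc h w = P.mc h w' :=
  le_antisymm (gia_le hT hd hP hN hN' hw hw' hr) (gia_le hT hd hP hN' hN hw' hw hr.symm)

end Pool.Agent.H42.PC
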