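/-
ROW GIb. Counting critical residues on the cycle. Write `β = P.red b`; `FR^[n] β = β` (hC.hcyc),
`β ∈ A` (hC.hb).
PROOFS.
* nc_add: Finset.range (h+k) splits (Finset.sum_range_add or Finset.range_add / card_filter sums),
  `F^[h+i] x = F^[i] (F^[h] x)`.
* onC_lev: let `r = red x`; `FR^[n] r = r` (onC_fix) and `FR^[t] r = red (F^[t] x) = red b`
  (red_iter). Hence `FR^[(n-1)*t] β = FR^[(n-1)*t + t] r = FR^[n*t] r = r` (Function.iterate_mul,
  Function.iterate_fixed; `(n-1)*t + t = n*t` since `1 ≤ n`).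
* nc_on: `red (F^[i] x) = FR^[i] (red x)` (red_iter) and `red x = FR^[k] β` for some `k`; so
  `nc n x = #{i < n : FR^[i+k] β ∈ A}`. The predicate `i ↦ FR^[i] β ∈ A` is `n`-periodic, so the
  number of `i ∈ [k, k+n)` satisfying it is the number in `[0, n)`:
  `Nat.filter_Ico_card_eq_of_periodic` (with Nat.count_eq_card_filter_range).
* son_pos: `i = 0` is in the filter.
* son_le: `i ↦ FR^[i] β` is injective on `[0,n)` by hP.hmin (if `FR^[i] β = FR^[j] β`, `i < j < n`,
  apply `FR^[n-i]`: `β = FR^[j-i] β` contradiction) with values in `A`, `A.ncard ≤ s`.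
* nc_on_ge: induction on `h / n` or: `h = n*q + r`; split off `n` steps at a time with nc_add, nc_on
  and son_pos (each point `F^[i] x` is on the cycle by onC_iter). The bound is `q ≤ nc h x`.
* mc_ge: by hC.hex there is `x` on the cycle with `F^[h] x = w` (EIn_ex in PCM/G2), `x ∈ lev (t+h)`;
  then nc_on_ge and nc_le_mc.
* onC_path: EIn_ex.
-/
import Pool.Agent.H42.AD.GIa

set_option autoImplicit false

namespace Pool.Agent.H42.PC

open scoped Classical

variable {G Ω : Type} [Group G] [MulAction G Ω] {F : Ω → Ω} {b : Ω} {d N s J n t0 : ℕ}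

theorem GIb_nc_eq (P : Place G F b s J N) (h : ℕ) (x : Ω) :
    P.nc h x = Nat.count (fun i => P.red (F^[i] x) ∈ P.A) h :=
  (Nat.count_eq_card_filter_range _ _).symm

theorem GIb_son_eq (P : Place G F b s J N) (n : ℕ) :
    P.son n = Nat.count (fun i => P.FR^[i] (P.red b) ∈ P.A) n :=
  (Nat.count_eq_card_filter_range _ _).symm

theorem nc_add (P : Place G F b s J N) (h k : ℕ) (x : Ω) :
    P.nc (h + k) x = P.nc h x + P.nc k (F^[h] x) := by
  rw [GIb_nc_eq, GIb_nc_eq, GIb_nc_eq, Nat.count_add]
  congr 1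
  have e : (fun i => P.red (F^[h + i] x) ∈ P.A) = fun i => P.red (F^[i] (F^[h] x)) ∈ P.A := by
    funext i
    rw [Nat.add_comm h i, Function.iterate_add_apply]
  simp only [e]

theorem onC_lev {P : Place G F b s J N} (hC : Cyc P n t0) {t : ℕ} (ht : t ≤ N) {x : Ω}
    (hx : x ∈ lev F b t) (h : P.OnC x) : P.red x = P.FR^[(n - 1) * t] (P.red b) := by
  have e1 : P.FR^[t] (P.red x) = P.red b := by
    rw [← red_iter P le_rfl ht hx]
    congr 1
  have e2 : P.FR^[n * t] (P.red x) = P.red x := by
    rw [Function.iterate_mul]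
    exact Function.iterate_fixed (onC_fix hC h) t
  have e3 : (n - 1) * t + t = n * t := by
    obtain ⟨m, rfl⟩ : ∃ m, n = m + 1 := ⟨n - 1, by have := hC.hn; omega⟩
    rw [Nat.add_sub_cancel]
    ring
  rw [← e1, ← Function.iterate_add_apply, e3, e2]

theorem nc_on {P : Place G F b s J N} (hC : Cyc P n t0) {t : ℕ} (ht : t + n ≤ N) {x : Ω}
    (hx : x ∈ lev F b (t + n)) (h : P.OnC x) : P.nc n x = P.son n := by
  obtain ⟨k, hk⟩ := h
  have hper : ∀ i, P.FR^[n + i] (P.red b) = P.FR^[i] (P.red b) := by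
    intro i
    rw [Nat.add_comm n i, Function.iterate_add_apply, hC.hcyc]
  have e1 : P.nc n x = Nat.count (fun i => P.FR^[k + i] (P.red b) ∈ P.A) n := by
    rw [GIb_nc_eq, Nat.count_eq_card_filter_range, Nat.count_eq_card_filter_range]
    congr 1
    refine Finset.filter_congr fun i hi => ?_
    rw [Finset.mem_range] at hi
    rw [red_iter P (by omega) ht hx, hk, ← Function.iterate_add_apply, Nat.add_comm i k]
  have e2 : Nat.count (fun i => P.FR^[i] (P.red b) ∈ P.A) (k + n) =
      Nat.count (fun i => P.FR^[i] (P.red b) ∈ P.A) k +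
        Nat.count (fun i => P.FR^[k + i] (P.red b) ∈ P.A) n := Nat.count_add _ _ _
  have e3 : Nat.count (fun i => P.FR^[i] (P.red b) ∈ P.A) (n + k) =
      Nat.count (fun i => P.FR^[i] (P.red b) ∈ P.A) n +
        Nat.count (fun i => P.FR^[n + i] (P.red b) ∈ P.A) k := Nat.count_add _ _ _
  simp only [hper] at e3
  rw [e1, GIb_son_eq]
  rw [Nat.add_comm n k] at e3
  omega

theorem son_pos {P : Place G F b s J N} (hC : Cyc P n t0) : 1 ≤ P.son n := by
  have hn := hC.hn
  unfold Place.son
  refine Finset.card_pos.2 ⟨0, ?_⟩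
  rw [Finset.mem_filter, Finset.mem_range]
  exact ⟨by omega, hC.hb⟩

theorem son_le {P : Place G F b s J N} (hP : Full P n t0) : P.son n ≤ s := by
  refine le_trans ?_ P.hA
  rw [Set.ncard_eq_toFinset_card _ P.hAfin]
  unfold Place.son
  have key : ∀ i j, i < j → j < n → P.FR^[i] (P.red b) ≠ P.FR^[j] (P.red b) := by
    intro i j hij hj he
    refine hP.hmin (j - i) (by omega) (by omega) ?_
    have h1 : P.FR^[n - i] (P.FR^[i] (P.red b)) = P.FR^[n - i] (P.FR^[j] (P.red b)) := by rw [he]
    rw [← Function.iterate_add_apply, ← Function.iterate_add_apply,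
      show n - i + i = n by omega, hP.hcyc, show n - i + j = (j - i) + n by omega,
      Function.iterate_add_apply, hP.hcyc] at h1
    exact h1.symm
  refine Finset.card_le_card_of_injOn (fun i => P.FR^[i] (P.red b)) ?_ ?_
  · intro i hi
    rw [Finset.mem_coe, Finset.mem_filter] at hi
    rw [Finset.mem_coe, Set.Finite.mem_toFinset]
    exact hi.2
  · intro i hi j hj he
    rw [Finset.mem_coe, Finset.mem_filter, Finset.mem_range] at hi hj
    rcases lt_trichotomy i j with h | h | h
    · exact (key i j h hj.1 he).elim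
    · exact h
    · exact (key j i h hi.1 he.symm).elim

theorem nc_on_ge {P : Place G F b s J N} (hC : Cyc P n t0) {t h : ℕ} (hN : t + h ≤ N) {x : Ω}
    (hx : x ∈ lev F b (t + h)) (hon : P.OnC x) : h / n ≤ P.nc h x := by
  induction h using Nat.strong_induction_on generalizing x with
  | _ h ih =>
    have hn := hC.hn
    rcases Nat.lt_or_ge h n with hlt | hge
    · rw [Nat.div_eq_of_lt hlt]
      exact Nat.zero_le _
    · obtain ⟨h', rfl⟩ : ∃ h', h = n + h' := ⟨h - n, by omega⟩
      rw [nc_add, Nat.add_div_left _ (by omega)]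
      have e : t + (n + h') = (t + h') + n := by omega
      rw [e] at hx hN
      have h1 := nc_on hC hN hx hon
      have h2 := son_pos hC
      have h3 := lev_iter (j := n) hx (by omega)
      rw [Nat.add_sub_cancel] at h3
      have h4 := ih h' (by omega) (by omega) h3 (onC_iter P (by omega) hN hx hon)
      omega

theorem mc_ge {P : Place G F b s J N} (hC : Cyc P n t0) {t h : ℕ} (hN : t + h ≤ N) {w : Ω}
    (hw : w ∈ lev F b t) (hon : P.OnC w) : h / n ≤ P.mc h w := by
  obtain ⟨y, hy, hyon⟩ := EIn_ex hC hw hon h hN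
  exact (nc_on_ge hC hN (lev_up (by rw [hy]; exact hw)) hyon).trans (nc_le_mc P hy)

end Pool.Agent.H42.PC
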