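/-
ROW GIc. `P.mc` along the cycle: `mc (h+n) w = son n + mc h w`.
PROOFS.
* nc_off. `x ∈ lev (t+h)`, `w = F^[h] x` on the cycle, `j < n`, `j < h` and `F^[h-j-1] x` is not on
  the cycle. Take `j` minimal with this property first (Nat.find): so we may assume that
  `F^[h-i] x` is on the cycle for all `i ≤ j` (for `i = 0` it is `w`). Split the indices `i < h` with
  `red (F^[i] x) ∈ A` into `i < h - j` and `h - j ≤ i < h`. In each part the map
  `i ↦ red (F^[i] x) ∈ A` is injective, so each part has at most `|A| ≤ s` elements: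
  - part `h - j ≤ i < h`: points on the cycle; if `red (F^[i] x) = red (F^[i'] x)` with `i < i'`,
    `0 < i' - i < n`, then `FR^[i'-i]` fixes this residue `r` (red_iter), `r = FR^[k] β`; from
    hcyc `β = FR^[k'] r` for some `k'` (`FR^[n*k + ...]`, e.g. `FR^[(n-1)*k] r = FR^[n*k] β = β`), so
    `FR^[i'-i] β = β`, contradicting hmin.
  - part `i < h - j`: if `red (F^[i] x) = red (F^[i'] x)` with `i < i' < h - j`, then the residue
    `r` of `F^[i] x` is fixed by `FR^[i'-i]` and `FR^[h-i] r = red w` is on the forward orbit of `β`,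
    so `r` is (cyc_of_per), so `F^[i] x` is on the cycle, hence `F^[h-j-1] x` too (onC_iter),
    contradiction. (This is the argument of off_index in PCM/G1; apply it to
    `u = x`, or copy it.)
* mc_add, `≥`: take `w1` on the cycle with `F^[n] w1 = w` (EIn_ex; `w1 ∈ lev (t+n)`). Then
  `red w1 = red w` (both are on the cycle: `red w = FR^[n] (red w1) = red w1` by onC_fix and
  red_iter). `mc h w1 = mc h w` (mc_red; levels `t+n+h ≤ N`, `t+h ≤ N`). Take `x` above `w1` with
  `nc h x = mc h w1` (exists_mc); `F^[h+n] x = F^[n] (F^[h] x) = w`,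
  `nc (h+n) x = nc h x + nc n w1 = mc h w + son n` (nc_add, nc_on). So
  `mc (h+n) w ≥ mc h w + son n` (nc_le_mc).
* mc_add, `≤`: take `x` above `w` with `nc (h+n) x = mc (h+n) w` (exists_mc).
  Case 1: some of the points `F^[h+n-j-1] x` with `j < n` is not on the cycle. By nc_off
  `nc (h+n) x ≤ 2s`. But `mc (h+n) w ≥ (h+n)/n ≥ 2s+1` by mc_ge and hbig. Contradiction.
  Case 2: they are all on the cycle; with `j = n-1`, `w1 = F^[h] x` is on the cycle,
  `F^[n] w1 = w`. `nc (h+n) x = nc h x + nc n w1 = nc h x + son n ≤ mc h w1 + son n`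
  and `mc h w1 = mc h w` as above.
-/
import Pool.Agent.H42.AD.GIb

set_option autoImplicit false

namespace Pool.Agent.H42.PC

open scoped Classical

variable {G Ω : Type} [Group G] [MulAction G Ω] {F : Ω → Ω} {b : Ω} {d N s J n t0 : ℕ}

theorem GIc_card (P : Place G F b s J N) (x : Ω) (S : Finset ℕ)
    (hinj : ∀ i ∈ S, ∀ i' ∈ S, i < i' → P.red (F^[i] x) = P.red (F^[i'] x) → False) :
    (S.filter fun i => P.red (F^[i] x) ∈ P.A).card ≤ s := by
  have hcard : P.hAfin.toFinset.card = P.A.ncard := (Set.ncard_eq_toFinset_card _ P.hAfin).symm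
  refine le_trans ?_ (hcard.le.trans P.hA)
  refine Finset.card_le_card_of_injOn (fun i => P.red (F^[i] x)) ?_ ?_
  · intro i hi
    rw [Finset.mem_coe, Finset.mem_filter] at hi
    rw [Finset.mem_coe, Set.Finite.mem_toFinset]
    exact hi.2
  · intro i hi i' hi' he
    rw [Finset.mem_coe, Finset.mem_filter] at hi hi'
    by_contra hne
    rcases lt_or_gt_of_ne hne with h | h
    · exact hinj i hi.1 i' hi'.1 h he
    · exact hinj i' hi'.1 i hi.1 h he.symm

theorem GIc_per {P : Place G F b s J N} (hC : Cyc P n t0) {x : Ω} (hx : P.OnC x) {e : ℕ}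
    (he : P.FR^[e] (P.red x) = P.red x) : P.FR^[e] (P.red b) = P.red b := by
  obtain ⟨k, hk⟩ := hx
  have hn := hC.hn
  have h1 : P.FR^[n * k] (P.red b) = P.red b := by
    rw [Function.iterate_mul]
    exact Function.iterate_fixed hC.hcyc k
  have e1 : n * k = (n - 1) * k + k := by
    obtain ⟨m, rfl⟩ : ∃ m, n = m + 1 := ⟨n - 1, by omega⟩
    rw [Nat.add_sub_cancel]
    ring
  have h2 : P.FR^[(n - 1) * k] (P.red x) = P.red b := by
    rw [hk, ← Function.iterate_add_apply, ← e1, h1]
  rw [← h2, ← Function.iterate_add_apply, Nat.add_comm, Function.iterate_add_apply, he]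

theorem nc_off {P : Place G F b s J N} (hP : Full P n t0) {t h : ℕ} (hN : t + h ≤ N) {x : Ω}
    (hx : x ∈ lev F b (t + h)) (hon : P.OnC (F^[h] x)) {j : ℕ} (hj : j < n) (hjh : j < h)
    (hoff : ¬ P.OnC (F^[h - j - 1] x)) : P.nc h x ≤ 2 * s := by
  have hex : ∃ j, ¬ P.OnC (F^[h - j - 1] x) := ⟨j, hoff⟩
  obtain ⟨j0, hj0, hoff0, hmin0⟩ : ∃ j0, j0 ≤ j ∧ ¬ P.OnC (F^[h - j0 - 1] x) ∧
      ∀ i < j0, P.OnC (F^[h - i - 1] x) :=
    ⟨Nat.find hex, Nat.find_min' hex hoff, Nat.find_spec hex,
      fun i hi => not_not.1 (Nat.find_min hex hi)⟩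
  have hon' : ∀ i, h - j0 ≤ i → i < h → P.OnC (F^[i] x) := by
    intro i h1 h2
    have h3 := hmin0 (h - i - 1) (by omega)
    rwa [show h - (h - i - 1) - 1 = i by omega] at h3
  have hred : ∀ i i' : ℕ, i < i' → i' < h → P.red (F^[i] x) = P.red (F^[i'] x) →
      P.FR^[i' - i] (P.red (F^[i] x)) = P.red (F^[i] x) := by
    intro i i' hii hi' he
    have hui : F^[i] x ∈ lev F b (t + h - i) := lev_iter hx (by omega)
    rw [← red_iter P (by omega) (by omega) hui, ← Function.iterate_add_apply,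
      show i' - i + i = i' by omega, he]
  have hsplit : P.nc h x ≤ ((Finset.range (h - j0)).filter fun i => P.red (F^[i] x) ∈ P.A).card +
      ((Finset.Ico (h - j0) h).filter fun i => P.red (F^[i] x) ∈ P.A).card := by
    rw [Place.nc]
    refine le_trans (Finset.card_le_card ?_) (Finset.card_union_le _ _)
    intro i hi
    rw [Finset.mem_filter, Finset.mem_range] at hi
    rw [Finset.mem_union, Finset.mem_filter, Finset.mem_filter, Finset.mem_range, Finset.mem_Ico]
    rcases Nat.lt_or_ge i (h - j0) with h1 | h1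
    · exact Or.inl ⟨h1, hi.2⟩
    · exact Or.inr ⟨⟨h1, hi.1⟩, hi.2⟩
  have c1 := GIc_card P x (Finset.range (h - j0)) (by
    intro i hi i' hi' hii he
    rw [Finset.mem_range] at hi hi'
    have hui : F^[i] x ∈ lev F b (t + h - i) := lev_iter hx (by omega)
    have h1 := hred i i' hii (by omega) he
    obtain ⟨k, hk⟩ := hon
    have h2 : P.FR^[h - i] (P.red (F^[i] x)) = P.FR^[k] (P.red b) := by
      rw [← hk, ← red_iter P (by omega) (by omega) hui, ← Function.iterate_add_apply,
        show h - i + i = h by omega]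
    have h3 : P.OnC (F^[i] x) := cyc_of_per P.FR _ _ (by omega) h1 h2
    apply hoff0
    have h4 := onC_iter P (j := h - j0 - 1 - i) (by omega) (by omega) hui h3
    rwa [← Function.iterate_add_apply, show h - j0 - 1 - i + i = h - j0 - 1 by omega] at h4)
  have c2 := GIc_card P x (Finset.Ico (h - j0) h) (by
    intro i hi i' hi' hii he
    rw [Finset.mem_Ico] at hi hi'
    have h1 := hred i i' hii hi'.2 he
    have h2 := GIc_per hP.toCyc (hon' i hi.1 hi.2) h1
    exact hP.hmin (i' - i) (by omega) (by omega) h2)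
  omega

theorem GIc_up (hT : Tree G F b d N) (hd : 1 ≤ d) {P : Place G F b s J N} (hP : Full P n t0)
    {t h : ℕ} (hN : t + (h + n) ≤ N) {w w1 : Ω} (hw : w ∈ lev F b t) (hw1 : F^[n] w1 = w)
    (hon1 : P.OnC w1) : P.mc h w1 = P.mc h w ∧ P.nc n w1 = P.son n := by
  have hl : w1 ∈ lev F b (t + n) := lev_up (by rw [hw1]; exact hw)
  have hr : P.red w1 = P.red w := by
    rw [← hw1, red_iter P (t := t + n) (by omega) (by omega) hl, onC_fix hP.toCyc hon1]
  exact ⟨mc_red hT hd hP (by omega) (by omega) hl hw hr, nc_on hP.toCyc (by omega) hl hon1⟩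

theorem mc_add (hT : Tree G F b d N) (hd : 1 ≤ d) {P : Place G F b s J N} (hP : Full P n t0)
    {t h : ℕ} (hN : t + (h + n) ≤ N) (hbig : n * (2 * s + 1) ≤ h + n) {w : Ω}
    (hw : w ∈ lev F b t) (hon : P.OnC w) : P.mc (h + n) w = P.son n + P.mc h w := by
  have hn : 1 ≤ n := hP.toCyc.hn
  refine le_antisymm ?_ ?_
  · obtain ⟨x, hx, hxm⟩ := exists_mc hT hd P hN hw
    have hxl : x ∈ lev F b (t + (h + n)) := lev_up (by rw [hx]; exact hw)
    have hon' : P.OnC (F^[h + n] x) := by rw [hx]; exact hon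
    by_cases hcase : ∃ j, j < n ∧ ¬ P.OnC (F^[h + n - j - 1] x)
    · obtain ⟨j, hj, hoff⟩ := hcase
      have h1 := nc_off hP hN hxl hon' hj (by omega) hoff
      have h2 := mc_ge hP.toCyc hN hw hon
      have h3 : 2 * s + 1 ≤ (h + n) / n := by
        rw [Nat.le_div_iff_mul_le (by omega), Nat.mul_comm]
        exact hbig
      omega
    · push Not at hcase
      have h1 := hcase (n - 1) (by omega)
      rw [show h + n - (n - 1) - 1 = h by omega] at h1
      have h2 : F^[n] (F^[h] x) = w := by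
        rw [← Function.iterate_add_apply, Nat.add_comm n h]
        exact hx
      obtain ⟨e1, e2⟩ := GIc_up hT hd hP hN hw h2 h1
      have h3 := nc_le_mc P (h := h) (x := x) rfl
      rw [← hxm, nc_add, e2]
      omega
  · obtain ⟨w1, hw1, hon1⟩ := EIn_ex hP.toCyc hw hon n (by omega)
    obtain ⟨e1, e2⟩ := GIc_up hT hd hP hN hw hw1 hon1
    have hl : w1 ∈ lev F b (t + n) := lev_up (by rw [hw1]; exact hw)
    obtain ⟨x, hx, hxm⟩ := exists_mc hT hd P (t := t + n) (h := h) (by omega) hl
    have h2 : F^[h + n] x = w := by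
      rw [Nat.add_comm h n, Function.iterate_add_apply, hx, hw1]
    have h3 := nc_le_mc P h2
    rw [nc_add, hx, e2, hxm, e1] at h3
    omega

end Pool.Agent.H42.PC
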