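/-
ROW GHb. Index of the points above level `t0`.
PROOFS.
* ind_on: induction on `h` (with `x`, `t` general). h = 0: trivial. Step `h+1`: `x ∈ lev (t+h+1)`,
  `F x ∈ lev (t+h)`, `F^[t+h-t0] (F x) = F^[t+(h+1)-t0] x` is on the cycle, so by induction
  `ind (F x) = ind (F^[h] (F x)) * 2^(nc h (F x))`. If `red x ∉ A`: ind_one. If `red x ∈ A`: apply
  `hP.hoff (t+h)` to `w = F x` (level `t+h ≥ t0`, `t + h < N`) and `x`, then ind_two. And
  `nc (h+1) x = (if red x ∈ A then 1 else 0) + nc h (F x)` (Finset.card_filter,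
  Finset.sum_range_succ', as in path_le).
* ind_off: `b` is on the cycle. Let `m` be the largest number `≤ t` with `F^[t-m] x` on the cycle
  (`m = 0` is possible because `F^[t] x = b`; use `Nat.findGreatest` or Nat.find on `t - m`). We have
  `m < t0`: otherwise `F^[t-t0] x = F^[m-t0] (F^[t-m] x)` is on the cycle by onC_iter. So
  `m < t0 ≤ t` and `F^[t-m-1] x` is not on the cycle. `off_index hT P (m := m) (j := t-m)` gives
  relIndex `(st x) (st (F^[t-m] x)) ≤ 2^s`; with `u = F^[t-m] x ∈ lev m`,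
  `path_le hT P (m := 0) (j := m)` gives `(st u).relIndex (st (F^[m] u)) ≤ 2^m` (the filter has at
  most `m` elements), and `ind u = that * ind (F^[m] u) = that * 1` (ind_mul, ind_base). So
  `ind x = relIndex * ind u ≤ 2^s * 2^m ≤ 2^(t0+s)`.
* Full.mono: `hP.toCyc.mono h` for the Cyc part (Cyc.mono in PCM/G2); hmin, hgen, hlift unchanged;
  hoff: if `F^[m-t1] w` is on the cycle then so is `F^[m-t0] w = F^[t1-t0] (F^[m-t1] w)` (onC_iter,
  `F^[m-t1] w ∈ lev t1`).
-/
import Pool.Agent.H42.AD.GHa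

set_option autoImplicit false

namespace Pool.Agent.H42.PC

open scoped Classical

variable {G Ω : Type} [Group G] [MulAction G Ω] {F : Ω → Ω} {b : Ω} {d N s J n t0 t1 : ℕ}

theorem nc_succ (P : Place G F b s J N) (h : ℕ) (x : Ω) :
    P.nc (h + 1) x = (if P.red x ∈ P.A then 1 else 0) + P.nc h (F x) := by
  unfold Place.nc
  rw [Finset.card_filter, Finset.card_filter, Finset.sum_range_succ']
  exact add_comm _ _

theorem ind_on [Finite G] (hT : Tree G F b d N) {P : Place G F b s J N} (hP : Full P n t0)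
    {t h : ℕ} (h0 : t0 ≤ t) (hN : t + h ≤ N) {x : Ω} (hx : x ∈ lev F b (t + h))
    (hon : P.OnC (F^[t + h - t0] x)) : P.ind x = P.ind (F^[h] x) * 2 ^ P.nc h x := by
  induction h generalizing x with
  | zero =>
    have h1 : P.nc 0 x = 0 := by simp [Place.nc]
    rw [h1, pow_zero, mul_one]
    rfl
  | succ h ih =>
    have hFx : F x ∈ lev F b (t + h) := by
      have h1 := lev_iter (j := 1) hx (by omega)
      simpa using h1
    have hon' : P.OnC (F^[t + h - t0] (F x)) := by
      rw [← Function.iterate_succ_apply, show (t + h - t0).succ = t + (h + 1) - t0 by omega]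
      exact hon
    have h1 := ih (by omega) hFx hon'
    rw [nc_succ, Function.iterate_succ_apply]
    by_cases hA : P.red x ∈ P.A
    · obtain ⟨g, hg, h2, h3⟩ := hP.hoff (t + h) (by omega) (by omega) (F x) hFx hon' x rfl hA
      have h4 := ind_two hT P (t := t + h) (by omega) hx ⟨g, hg, h2, h3⟩
      rw [h4, h1, if_pos hA, pow_add]
      ring
    · have h4 := ind_one hT P (t := t + h) (by omega) hx hA
      rw [h4, h1, if_neg hA, zero_add]

theorem ind_off [Finite G] (hT : Tree G F b d N) (P : Place G F b s J N) {t0 t : ℕ}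
    (h0 : t0 ≤ t) (ht : t ≤ N) {x : Ω} (hx : x ∈ lev F b t) (hoff : ¬ P.OnC (F^[t - t0] x)) :
    P.ind x ≤ 2 ^ (t0 + s) := by
  have hex : ∃ j, P.OnC (F^[j] x) := ⟨t, 0, by
    rw [show F^[t] x = b from hx]
    rfl⟩
  obtain ⟨j, hj⟩ : ∃ j, j = Nat.find hex := ⟨_, rfl⟩
  have hjC : P.OnC (F^[j] x) := by rw [hj]; exact Nat.find_spec hex
  have hjt : j ≤ t := by
    rw [hj]
    exact Nat.find_min' hex ⟨0, by
      rw [show F^[t] x = b from hx]
      rfl⟩
  have hj1 : t - t0 < j := by
    by_contra hcon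
    apply hoff
    have h1 := onC_iter P (j := t - t0 - j) (t := t - j) (by omega) (by omega)
      (lev_iter hx hjt) hjC
    rwa [← Function.iterate_add_apply, show t - t0 - j + j = t - t0 by omega] at h1
  have hjm : ¬ P.OnC (F^[j - 1] x) := by
    rw [hj]
    exact Nat.find_min hex (by omega)
  have hx' : x ∈ lev F b ((t - j) + j) := by
    rw [Nat.sub_add_cancel hjt]
    exact hx
  have h2 := off_index hT P (m := t - j) (j := j) (by omega) (by omega) hx' hjC hjm
  have hu : F^[j] x ∈ lev F b (t - j) := lev_iter hx hjt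
  have hu' : F^[j] x ∈ lev F b (0 + (t - j)) := by
    rw [zero_add]
    exact hu
  have h3 := path_le hT P (m := 0) (j := t - j) (by omega) hu'
  have h4 : (P.st (F^[j] x)).relIndex (P.st (F^[t - j] (F^[j] x))) ≤ 2 ^ (t - j) := by
    refine h3.trans (Nat.pow_le_pow_right (by norm_num) ?_)
    calc _ ≤ (Finset.range (t - j)).card := Finset.card_filter_le _ _
      _ = t - j := Finset.card_range _
  have h5 : F^[t - j] (F^[j] x) ∈ lev F b 0 := by
    have h6 := lev_iter (j := t - j) hu le_rfl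
    rwa [Nat.sub_self] at h6
  rw [ind_mul hT P x j, ind_mul hT P (F^[j] x) (t - j), ind_base hT P h5, mul_one]
  calc (P.st x).relIndex (P.st (F^[j] x)) *
        (P.st (F^[j] x)).relIndex (P.st (F^[t - j] (F^[j] x))) ≤ 2 ^ s * 2 ^ (t - j) :=
        Nat.mul_le_mul h2 h4
    _ = 2 ^ (s + (t - j)) := (pow_add _ _ _).symm
    _ ≤ 2 ^ (t0 + s) := Nat.pow_le_pow_right (by norm_num) (by omega)

theorem Full.mono {P : Place G F b s J N} (hP : Full P n t0) (h : t0 ≤ t1) : Full P n t1 := by
  refine ⟨hP.toCyc.mono h, hP.hmin, hP.hgen, hP.hlift, ?_⟩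
  intro m hm hmN w hw hon x hx hA
  refine hP.hoff m (h.trans hm) hmN w hw ?_ x hx hA
  have h1 : F^[m - t1] w ∈ lev F b t1 := by
    have h2 := lev_iter (j := m - t1) hw (by omega)
    rwa [show m - (m - t1) = t1 by omega] at h2
  have h2 := onC_iter P (j := t1 - t0) (t := t1) (by omega) (by omega) h1 hon
  rwa [← Function.iterate_add_apply, show t1 - t0 + (m - t1) = m - t0 by omega] at h2

end Pool.Agent.H42.PC
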