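/-
ROW GJa. The maximal index of a level: `ma O l = ind w * 2 ^ mc (l - t0) w` for a fixed point `w` on
the cycle at level `t0`.
PROOFS.
* ma_le / exists_ma: `O l` is finite (lev_fin, hO.sub) and nonempty (hO.ne), so `P.ind '' O l` is a
  finite nonempty set of naturals: `Nat.sSup_mem` (bounded above since finite), `le_csSup`.
* ma_formula: the set `W0 = {w ∈ lev t0 : P.OnC w}` is finite and nonempty (exists_onC). Let `w ∈ W0`
  have maximal `ind` (Set.Finite exists_max, e.g. `Set.exists_max_image`). All points of `W0` have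
  the same residue (onC_lev), so `mc (l-t0) w' = mc (l-t0) w` for `w' ∈ W0` (mc_red).
  Let `l` be as in the statement and put `h = l - t0`.
  `≤`: let `x ∈ O l`, `x ∈ lev l`. If `F^[l-t0] x =: w'` is on the cycle then `w' ∈ W0` and by ind_on
  (t := t0, h := l - t0) `ind x = ind w' * 2^(nc h x) ≤ ind w * 2^(mc h w)` (nc_le_mc). If it is not
  on the cycle then `ind x ≤ 2^(t0+s)` (ind_off), and `mc h w ≥ h/n ≥ t0+s` by mc_ge since
  `h ≥ n*(t0+3s+1)`; `ind w ≥ 1` (it is a power of 2, ind_pow). So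
  `ind x ≤ 2^(t0+s) ≤ ind w * 2^(mc h w)`. Use exists_ma for `ma`.
  `≥`: exists_mc gives `x` with `F^[h] x = w`, `nc h x = mc h w`; `w ∈ O t0` by hI, so `x ∈ O l` by
  orb_up (n0 ≤ t0); ind_on gives `ind x = ind w * 2^(mc h w)`; ma_le.
-/
import Pool.Agent.H42.AD.GHb
import Pool.Agent.H42.AD.GIb

set_option autoImplicit false

namespace Pool.Agent.H42.PC

open scoped Classical

variable {G Ω : Type} [Group G] [MulAction G Ω] {F : Ω → Ω} {b : Ω} {d N s J n t0 n0 : ℕ}
  {O : ℕ → Set Ω}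

private theorem GJa_fin (hT : Tree G F b d N) (hO : Orb G F b n0 N O) {l : ℕ} (hl : l ≤ N) :
    (O l).Finite := (lev_fin hT hl).subset (hO.sub l hl)

theorem ma_le (hT : Tree G F b d N) (hO : Orb G F b n0 N O) (P : Place G F b s J N) {l : ℕ}
    (hl : l ≤ N) {x : Ω} (hx : x ∈ O l) : P.ind x ≤ P.ma O l :=
  le_csSup ((GJa_fin hT hO hl).image P.ind).bddAbove (Set.mem_image_of_mem _ hx)

theorem exists_ma (hT : Tree G F b d N) (hO : Orb G F b n0 N O) (P : Place G F b s J N) {l : ℕ}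
    (hl : l ≤ N) : ∃ x ∈ O l, P.ind x = P.ma O l := by
  have h := Nat.sSup_mem ((hO.ne l hl).image P.ind) ((GJa_fin hT hO hl).image P.ind).bddAbove
  obtain ⟨x, hx, he⟩ := h
  exact ⟨x, hx, he⟩

theorem ma_formula [Finite G] (hT : Tree G F b d N) (hO : Orb G F b n0 N O) (hd : 1 ≤ d)
    {P : Place G F b s J N} (hP : Full P n t0) (hI : InO P O) (hn0 : n0 ≤ t0) (ht0 : t0 ≤ N) :
    ∃ w ∈ lev F b t0, P.OnC w ∧ ∀ l, t0 + n * (t0 + 3 * s + 1) ≤ l → l ≤ N →
      P.ma O l = P.ind w * 2 ^ P.mc (l - t0) w := by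
  have hfin : ({w | w ∈ lev F b t0 ∧ P.OnC w} : Set Ω).Finite :=
    (lev_fin hT ht0).subset fun w hw => hw.1
  obtain ⟨w1, hw1, hw1'⟩ := exists_onC hP.toCyc ht0
  obtain ⟨w, ⟨hw, hwon⟩, hmax⟩ := Set.exists_max_image _ P.ind hfin ⟨w1, hw1, hw1'⟩
  refine ⟨w, hw, hwon, fun l hl hlN => ?_⟩
  have hl0 : t0 ≤ l := le_trans (Nat.le_add_right _ _) hl
  have hN : t0 + (l - t0) ≤ N := by omega
  have hwpos : 1 ≤ P.ind w := by
    obtain ⟨e, he⟩ := ind_pow hT P ht0 hw
    rw [he]
    exact Nat.one_le_two_pow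
  apply le_antisymm
  · obtain ⟨x, hx, hxe⟩ := exists_ma hT hO P hlN
    rw [← hxe]
    have hxl : x ∈ lev F b l := hO.sub l hlN hx
    have hxl' : x ∈ lev F b (t0 + (l - t0)) := by
      rwa [show t0 + (l - t0) = l by omega]
    by_cases hon : P.OnC (F^[l - t0] x)
    · have h1 := ind_on hT hP (t := t0) (h := l - t0) le_rfl hN hxl'
        (by rwa [show t0 + (l - t0) - t0 = l - t0 by omega])
      have hw' : F^[l - t0] x ∈ lev F b t0 := by
        have := lev_iter (j := l - t0) hxl (by omega)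
        rwa [show l - (l - t0) = t0 by omega] at this
      have h2 : P.ind (F^[l - t0] x) ≤ P.ind w := hmax _ ⟨hw', hon⟩
      have hr : P.red (F^[l - t0] x) = P.red w := by
        rw [onC_lev hP.toCyc ht0 hw' hon, onC_lev hP.toCyc ht0 hw hwon]
      have h3 : P.nc (l - t0) x ≤ P.mc (l - t0) w := by
        rw [← mc_red hT hd hP hN hN hw' hw hr]
        exact nc_le_mc P rfl
      rw [h1]
      exact Nat.mul_le_mul h2 (Nat.pow_le_pow_right (by norm_num) h3)
    · have h1 := ind_off hT P hl0 hlN hxl hon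
      have h2 := mc_ge hP.toCyc hN hw hwon
      have h3 : t0 + 3 * s + 1 ≤ (l - t0) / n := by
        rw [Nat.le_div_iff_mul_le hP.hn]
        have : n * (t0 + 3 * s + 1) ≤ l - t0 := by omega
        rwa [Nat.mul_comm] at this
      calc P.ind x ≤ 2 ^ (t0 + s) := h1
        _ ≤ 2 ^ P.mc (l - t0) w := Nat.pow_le_pow_right (by norm_num) (by omega)
        _ = 1 * 2 ^ P.mc (l - t0) w := (one_mul _).symm
        _ ≤ P.ind w * 2 ^ P.mc (l - t0) w := Nat.mul_le_mul_right _ hwpos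
  · obtain ⟨x, hx, hnc⟩ := exists_mc hT hd P hN hw
    have hxl' : x ∈ lev F b (t0 + (l - t0)) := lev_up (by rw [hx]; exact hw)
    have hxO : x ∈ O l := by
      have := orb_up hO (t := t0) (j := l - t0) hn0 hN (x := x)
        (by rw [hx]; exact hI t0 ht0 w hw hwon)
      rwa [show t0 + (l - t0) = l by omega] at this
    have h1 := ind_on hT hP (t := t0) (h := l - t0) le_rfl hN hxl'
      (by rw [show t0 + (l - t0) - t0 = l - t0 by omega, hx]; exact hwon)
    rw [hx, hnc] at h1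
    rw [← h1]
    exact ma_le hT hO P hlN hxO

end Pool.Agent.H42.PC
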