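/-
ROW GJb. Levels moved by inertia form arithmetic progressions with difference `n`.
PROOFS.
* ma_add: ma_formula for `l` and `l + n` with the same `w`; `l + n - t0 = (l - t0) + n`; mc_add
  (t := t0, h := l - t0; hbig: `n*(2s+1) ≤ (l - t0) + n` because `l - t0 ≥ n*(t0+3s+1)`).
* moved_of_lt: let `σ` be the generator (hP.hgen), `M = P.ma O l` and `δ = σ^M ∈ P.I`.
  Every `x ∈ O l` has `ind x = 2^e ≤ M` and `M = 2^e'` (exists_ma, ind_pow), so `ind x ∣ M`
  (Nat.pow_dvd_pow) and `δ • x = x` by ind_gen. Take `x ∈ O (l+1)` with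
  `ind x = P.ma O (l+1) > M` (exists_ma); `M ≥ 1` so `ind x ∤ M`, hence `δ • x ≠ x` (ind_gen).
  `F x ∈ O l` by hO.par.
* good_ap: `ma (L0+n) = 2^(son n) * ma L0 ≥ 2 * ma L0 > ma L0` (son_pos, `ma L0 ≥ 1`). So
  there is `l ∈ [L0, L0+n)` with `ma l < ma (l+1)` (otherwise `ma` is antitone on the interval).
  By induction on `j` (ma_add for `l + j*n` and `l + j*n + 1`):
  `ma (l + j*n) = 2^(j*son) * ma l` and `ma (l+j*n+1) = 2^(j*son) * ma (l+1)` as long as
  `l + j*n + 1 ≤ N`, so `ma (l+j*n) < ma (l+j*n+1)`; moved_of_lt.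
-/
import Pool.Agent.H42.AD.GJa
import Pool.Agent.H42.AD.GIc

set_option autoImplicit false

namespace Pool.Agent.H42.PC

open scoped Classical

variable {G Ω : Type} [Group G] [MulAction G Ω] {F : Ω → Ω} {b : Ω} {d N s J n t0 n0 : ℕ}
  {O : ℕ → Set Ω}

theorem ma_add [Finite G] (hT : Tree G F b d N) (hO : Orb G F b n0 N O) (hd : 1 ≤ d)
    {P : Place G F b s J N} (hP : Full P n t0) (hI : InO P O) (hn0 : n0 ≤ t0) {l : ℕ}
    (hl : t0 + n * (t0 + 3 * s + 1) ≤ l) (hN : l + n ≤ N) :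
    P.ma O (l + n) = 2 ^ P.son n * P.ma O l := by
  have hl0 : t0 ≤ l := le_trans (Nat.le_add_right _ _) hl
  obtain ⟨w, hw, hon, hform⟩ := ma_formula hT hO hd hP hI hn0 (by omega)
  have h1 := hform l hl (by omega)
  have h2 := hform (l + n) (by omega) hN
  have h3 : l + n - t0 = (l - t0) + n := by omega
  have hb1 : n * (2 * s + 1) ≤ n * (t0 + 3 * s + 1) := Nat.mul_le_mul_left n (by omega)
  have hmc := mc_add hT hd hP (t := t0) (h := l - t0) (w := w) (by omega) (by omega) hw hon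
  rw [h2, h1, h3, hmc, pow_add]
  ring

theorem moved_of_lt [Finite G] (hT : Tree G F b d N) (hO : Orb G F b n0 N O)
    {P : Place G F b s J N} (hP : Full P n t0) {l : ℕ} (hl : l < N)
    (hlt : P.ma O l < P.ma O (l + 1)) :
    ∃ δ ∈ P.I, (∀ x ∈ O l, δ • x = x) ∧ ∃ x, F x ∈ O l ∧ δ • x ≠ x := by
  obtain ⟨σ, hσ, hgen⟩ := hP.hgen
  obtain ⟨x0, hx0, hx0m⟩ := exists_ma hT hO P hl.le
  obtain ⟨e0, he0⟩ := ind_pow hT P hl.le (hO.sub l hl.le hx0)
  refine ⟨σ ^ P.ma O l, P.I.pow_mem hσ _, fun x hx => ?_, ?_⟩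
  · have hxl := hO.sub l hl.le hx
    rw [ind_gen P hσ (fun g hg => (hgen g hg).imp fun j hj => hj l hl.le x hxl)]
    obtain ⟨e, he⟩ := ind_pow hT P hl.le hxl
    have h1 := ma_le hT hO P hl.le hx
    rw [← hx0m, he0, he] at h1
    rw [← hx0m, he0, he]
    exact Nat.pow_dvd_pow 2 ((Nat.pow_le_pow_iff_right (by norm_num)).mp h1)
  · obtain ⟨x, hx, hxm⟩ := exists_ma hT hO P (l := l + 1) hl
    have hxl := hO.sub (l + 1) hl hx
    refine ⟨x, hO.par l hl x hx, ?_⟩
    rw [ne_eq, ind_gen P hσ (fun g hg => (hgen g hg).imp fun j hj => hj (l + 1) hl x hxl)]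
    intro h
    have hpos : 0 < P.ma O l := by rw [← hx0m, he0]; positivity
    have := Nat.le_of_dvd hpos h
    omega

theorem GJb_iter [Finite G] (hT : Tree G F b d N) (hO : Orb G F b n0 N O) (hd : 1 ≤ d)
    {P : Place G F b s J N} (hP : Full P n t0) (hI : InO P O) (hn0 : n0 ≤ t0) {l : ℕ}
    (hl : t0 + n * (t0 + 3 * s + 1) ≤ l) (j : ℕ) (hN : l + j * n ≤ N) :
    P.ma O (l + j * n) = 2 ^ (j * P.son n) * P.ma O l := by
  induction j with
  | zero => simp
  | succ j ih =>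
    have h1 : l + (j + 1) * n = (l + j * n) + n := by ring
    rw [h1] at hN ⊢
    rw [ma_add hT hO hd hP hI hn0 (l := l + j * n) (by omega) hN, ih (by omega)]
    rw [← mul_assoc, ← pow_add]
    congr 2
    ring

theorem good_ap [Finite G] (hT : Tree G F b d N) (hO : Orb G F b n0 N O) (hd : 1 ≤ d)
    {P : Place G F b s J N} (hP : Full P n t0) (hI : InO P O) (hn0 : n0 ≤ t0) {L0 : ℕ}
    (hL0 : t0 + n * (t0 + 3 * s + 1) ≤ L0) (hN : L0 + n ≤ N) :
    ∃ l, L0 ≤ l ∧ l < L0 + n ∧ ∀ j, l + j * n < N →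
      ∃ δ ∈ P.I, (∀ x ∈ O (l + j * n), δ • x = x) ∧ ∃ x, F x ∈ O (l + j * n) ∧ δ • x ≠ x := by
  have hex : ∃ l, L0 ≤ l ∧ l < L0 + n ∧ P.ma O l < P.ma O (l + 1) := by
    by_contra hcon
    push Not at hcon
    have hanti : ∀ i, i ≤ n → P.ma O (L0 + i) ≤ P.ma O L0 := by
      intro i
      induction i with
      | zero => intro _; exact le_rfl
      | succ i ih =>
        intro hi
        have h1 := hcon (L0 + i) (by omega) (by omega)
        exact le_trans h1 (ih (by omega))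
    have h1 := hanti n le_rfl
    rw [ma_add hT hO hd hP hI hn0 hL0 hN] at h1
    have hson := son_pos hP.toCyc
    have hpos : 0 < P.ma O L0 := by
      obtain ⟨x0, hx0, hx0m⟩ := exists_ma hT hO P (l := L0) (by omega)
      obtain ⟨e0, he0⟩ := ind_pow hT P (t := L0) (by omega) (hO.sub L0 (by omega) hx0)
      rw [← hx0m, he0]; positivity
    have h2 : 2 ≤ 2 ^ P.son n := by
      calc 2 = 2 ^ 1 := by norm_num
        _ ≤ 2 ^ P.son n := Nat.pow_le_pow_right (by norm_num) hson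
    nlinarith
  obtain ⟨l, hl1, hl2, hlt⟩ := hex
  refine ⟨l, hl1, hl2, fun j hj => ?_⟩
  apply moved_of_lt hT hO hP hj
  have h1 := GJb_iter hT hO hd hP hI hn0 (l := l) (by omega) j hj.le
  have h2 := GJb_iter hT hO hd hP hI hn0 (l := l + 1) (by omega) j (by omega)
  have h3 : l + 1 + j * n = l + j * n + 1 := by ring
  rw [h3] at h2
  rw [h1, h2]
  exact Nat.mul_lt_mul_of_pos_left hlt (by positivity)

end Pool.Agent.H42.PC
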