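/-
ROW GKb. The number of possible gaps up to `X` is at most `s^2 (X/n + 2)`.
PROOF. Write `β = red b`. `P.HH l ∩ [1,X]` is contained in `U1 ∪ U2`,
`U1 = ⋃_{c, c'' ∈ A} {h ∈ [1,X] : FR^[l+1] c = β ∧ FR^[h] c = c''}`,
`U2 = ⋃_{c, c' ∈ A} {h : FR^[h] c ≠ FR^[h] c' ∧ FR^[h+1] c = FR^[h+1] c'}`; `A` is a finite set with
at most `s` elements, so there are at most `s^2` pairs.
* every set in `U2` has at most one element: if `h < h'` are both in it then from
  `FR^[h+1] c = FR^[h+1] c'` we get `FR^[h'] c = FR^[h'] c'`, contradiction.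
* every set in `U1` has at most `X/n + 1` elements: if `h < h'` are both in it, then `c''` is fixed by
  `FR^[h'-h]`. The point `c''` lies on the cycle of `β`: pick a multiple `M = (h'-h)*(l+1)` (or any
  multiple of `h'-h` which is at least `l+1-h`), then `c'' = FR^[M] c'' = FR^[M+h] c` and
  `M + h ≥ l+1`, so `c'' = FR^[M+h-(l+1)] β` (as `FR^[l+1] c = β`). So `c'' = FR^[k] β`; applying
  `FR^[k']` with `n ∣ k + k'` gives `FR^[h'-h] β = β` (hcyc), so `n ∣ h' - h` by hmin
  (write `h'-h = n*q + r`, `r < n`: `FR^[r] β = β`, so `r = 0`). Hence all elements of the set are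
  congruent modulo `n`, and a set of numbers in `[1,X]` which are congruent modulo `n` has at most
  `X/n + 1` elements (the map `h ↦ h / n ≤ X/n` is injective on it).
Sum up: `s^2 (X/n+1) + s^2 = s^2 (X/n+2)`. (Use Finset.card_biUnion_le over
`P.hAfin.toFinset ×ˢ P.hAfin.toFinset`, or Set.ncard lemmas.)
-/
import Pool.Agent.H42.AD.Defs

set_option autoImplicit false

namespace Pool.Agent.H42.PC

open scoped Classical

variable {G Ω : Type} [Group G] [MulAction G Ω] {F : Ω → Ω} {b : Ω} {d N s J n t0 : ℕ}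

theorem GKb_iter_n {P : Place G F b s J N} (hP : Full P n t0) (q : ℕ) :
    P.FR^[n * q] (P.red b) = P.red b := by
  induction q with
  | zero => simp
  | succ q ih =>
    rw [Nat.mul_succ, Function.iterate_add_apply, hP.hcyc, ih]

/-- the exact period divides every period -/
theorem dvd_of_per {P : Place G F b s J N} (hP : Full P n t0) {i : ℕ}
    (h : P.FR^[i] (P.red b) = P.red b) : n ∣ i := by
  have hn : 1 ≤ n := hP.hn
  have hd := Nat.div_add_mod i n
  have h1 : P.FR^[i % n] (P.red b) = P.red b := by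
    have h2 : P.FR^[i % n + n * (i / n)] (P.red b) = P.red b := by
      rw [Nat.add_comm, hd]; exact h
    rw [Function.iterate_add_apply, GKb_iter_n hP] at h2
    exact h2
  by_contra hnd
  have h3 : 1 ≤ i % n := by
    rcases Nat.eq_zero_or_pos (i % n) with h0 | h0
    · exact absurd (Nat.dvd_of_mod_eq_zero h0) hnd
    · exact h0
  exact hP.hmin _ h3 (Nat.mod_lt _ hn) h1

theorem GKb_fix {R : Type} (f : R → R) (c : R) (m k : ℕ) (h : f^[m] c = c) :
    f^[m * k] c = c := by
  induction k with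
  | zero => simp
  | succ k ih => rw [Nat.mul_succ, Function.iterate_add_apply, h, ih]

theorem GKb_dvd {P : Place G F b s J N} (hP : Full P n t0) (l : ℕ) (c c'' : P.R) (h h' : ℕ)
    (hlt : h < h') (hc : P.FR^[l + 1] c = P.red b) (h1 : P.FR^[h] c = c'')
    (h2 : P.FR^[h'] c = c'') : n ∣ h' - h := by
  have hn : 1 ≤ n := hP.hn
  set m := h' - h with hm
  have hm1 : 1 ≤ m := by omega
  have hfix : P.FR^[m] c'' = c'' := by
    have e : h' = m + h := by omega
    rw [e, Function.iterate_add_apply, h1] at h2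
    exact h2
  have hM : P.FR^[m * (l + 1)] c'' = c'' := GKb_fix _ _ _ _ hfix
  have hge : l + 1 ≤ m * (l + 1) := Nat.le_mul_of_pos_left _ hm1
  obtain ⟨k, hk⟩ : ∃ k, m * (l + 1) + h = k + (l + 1) := ⟨m * (l + 1) + h - (l + 1), by omega⟩
  have hck : c'' = P.FR^[k] (P.red b) := by
    calc c'' = P.FR^[m * (l + 1)] c'' := hM.symm
      _ = P.FR^[m * (l + 1)] (P.FR^[h] c) := by rw [h1]
      _ = P.FR^[m * (l + 1) + h] c := by rw [Function.iterate_add_apply]
      _ = P.FR^[k + (l + 1)] c := by rw [hk]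
      _ = P.FR^[k] (P.red b) := by rw [Function.iterate_add_apply, hc]
  apply dvd_of_per hP
  have hkk : P.FR^[k * (n - 1)] (P.FR^[k] (P.red b)) = P.red b := by
    rw [← Function.iterate_add_apply]
    have e : k * (n - 1) + k = n * k := by
      obtain ⟨n', rfl⟩ : ∃ n', n = n' + 1 := ⟨n - 1, by omega⟩
      simp only [Nat.add_sub_cancel]; ring
    rw [e]; exact GKb_iter_n hP k
  calc P.FR^[m] (P.red b) = P.FR^[m] (P.FR^[k * (n - 1)] (P.FR^[k] (P.red b))) := by rw [hkk]
    _ = P.FR^[k * (n - 1)] (P.FR^[m] (P.FR^[k] (P.red b))) := by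
        rw [← Function.iterate_add_apply P.FR m, Nat.add_comm m,
          Function.iterate_add_apply P.FR (k * (n - 1)) m]
    _ = P.FR^[k * (n - 1)] (P.FR^[k] (P.red b)) := by rw [← hck, hfix]
    _ = P.red b := hkk

theorem HH_count {P : Place G F b s J N} (hP : Full P n t0) (l X : ℕ) :
    (P.HH l ∩ Set.Icc 1 X).ncard ≤ s ^ 2 * (X / n + 2) := by
  have hn : 1 ≤ n := hP.hn
  let T : Finset (P.R × P.R) := P.hAfin.toFinset ×ˢ P.hAfin.toFinset
  let U1 : P.R × P.R → Finset ℕ := fun p =>
    (Finset.Icc 1 X).filter fun h => P.FR^[l + 1] p.1 = P.red b ∧ P.FR^[h] p.1 = p.2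
  let U2 : P.R × P.R → Finset ℕ := fun p =>
    (Finset.Icc 1 X).filter fun h =>
      P.FR^[h] p.1 ≠ P.FR^[h] p.2 ∧ P.FR^[h + 1] p.1 = P.FR^[h + 1] p.2
  have hsub : P.HH l ∩ Set.Icc 1 X ⊆ ((T.biUnion fun p => U1 p ∪ U2 p : Finset ℕ) : Set ℕ) := by
    rintro h ⟨hh, hX⟩
    have hX' : h ∈ Finset.Icc 1 X := by
      rw [Finset.mem_Icc]; exact ⟨hX.1, hX.2⟩
    rw [Finset.mem_coe, Finset.mem_biUnion]
    rcases hh with ⟨c, hc, h1, h2⟩ | ⟨c, hc, c', hc', h1, h2⟩
    · refine ⟨(c, P.FR^[h] c), ?_, ?_⟩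
      · rw [Finset.mem_product]
        exact ⟨P.hAfin.mem_toFinset.2 hc, P.hAfin.mem_toFinset.2 h2⟩
      · exact Finset.mem_union_left _ (Finset.mem_filter.2 ⟨hX', h1, rfl⟩)
    · refine ⟨(c, c'), ?_, ?_⟩
      · rw [Finset.mem_product]
        exact ⟨P.hAfin.mem_toFinset.2 hc, P.hAfin.mem_toFinset.2 hc'⟩
      · exact Finset.mem_union_right _ (Finset.mem_filter.2 ⟨hX', h1, h2⟩)
  have hU1 : ∀ p, (U1 p).card ≤ X / n + 1 := by
    intro p
    have : (U1 p).card ≤ (Finset.range (X / n + 1)).card := by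
      apply Finset.card_le_card_of_injOn (fun h => h / n)
      · intro h hh
        have hh' := (Finset.mem_filter.1 (Finset.mem_coe.1 hh)).1
        rw [Finset.mem_Icc] at hh'
        simp only [Finset.coe_range, Set.mem_Iio]
        exact Nat.lt_succ_of_le (Nat.div_le_div_right hh'.2)
      · intro h hh h' hh' he
        have a := (Finset.mem_filter.1 (Finset.mem_coe.1 hh)).2
        have a' := (Finset.mem_filter.1 (Finset.mem_coe.1 hh')).2
        have key : ∀ x y : ℕ, x < y → P.FR^[x] p.1 = p.2 → P.FR^[y] p.1 = p.2 →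
            x / n = y / n → False := by
          intro x y hxy hx hy hq
          have hd := GKb_dvd hP l p.1 p.2 x y hxy a.1 hx hy
          obtain ⟨e, he'⟩ := hd
          have hy' : y = x + n * e := by omega
          have he0 : 1 ≤ e := by
            rcases Nat.eq_zero_or_pos e with h0 | h0
            · subst h0; simp at he'; omega
            · exact h0
          rw [hy', Nat.add_mul_div_left _ _ (by omega : 0 < n)] at hq
          omega
        rcases lt_trichotomy h h' with hl | hl | hl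
        · exact (key h h' hl a.2 a'.2 he).elim
        · exact hl
        · exact (key h' h hl a'.2 a.2 he.symm).elim
    simpa using this
  have hU2 : ∀ p, (U2 p).card ≤ 1 := by
    intro p
    rw [Finset.card_le_one]
    intro h hh h' hh'
    have a := (Finset.mem_filter.1 hh).2
    have a' := (Finset.mem_filter.1 hh').2
    have key : ∀ x y : ℕ, x < y → P.FR^[x + 1] p.1 = P.FR^[x + 1] p.2 →
        P.FR^[y] p.1 = P.FR^[y] p.2 := by
      intro x y hxy hx
      obtain ⟨k, rfl⟩ : ∃ k, y = k + (x + 1) := ⟨y - (x + 1), by omega⟩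
      rw [Function.iterate_add_apply, hx, ← Function.iterate_add_apply]
    rcases lt_trichotomy h h' with hl | hl | hl
    · exact (a'.1 (key h h' hl a.2)).elim
    · exact hl
    · exact (a.1 (key h' h hl a'.2)).elim
  have hT : T.card ≤ s ^ 2 := by
    have h1 : P.hAfin.toFinset.card ≤ s := by
      rw [← Set.ncard_eq_toFinset_card P.A P.hAfin]; exact P.hA
    rw [Finset.card_product, pow_two]
    exact Nat.mul_le_mul h1 h1
  calc (P.HH l ∩ Set.Icc 1 X).ncard
      ≤ ((T.biUnion fun p => U1 p ∪ U2 p : Finset ℕ) : Set ℕ).ncard :=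
        Set.ncard_le_ncard hsub (Finset.finite_toSet _)
    _ = (T.biUnion fun p => U1 p ∪ U2 p).card := Set.ncard_coe_finset _
    _ ≤ ∑ p ∈ T, (U1 p ∪ U2 p).card := Finset.card_biUnion_le
    _ ≤ ∑ p ∈ T, (X / n + 2) := by
        apply Finset.sum_le_sum
        intro p _
        have h1 := Finset.card_union_le (U1 p) (U2 p)
        have h2 := hU1 p
        have h3 := hU2 p
        omega
    _ = T.card * (X / n + 2) := by rw [Finset.sum_const, smul_eq_mul]
    _ ≤ s ^ 2 * (X / n + 2) := Nat.mul_le_mul_right _ hT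

end Pool.Agent.H42.PC
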