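/-
ROW GLb. Choice of a residue class (pure counting).
PROOF. For `1 ≤ i ≤ N0`, `h ∈ H ∩ [1,X]` and `r < n'` with `D r` there is at most one
`j0 < n'` such that `l + (j0+i)*n + 1 - h ≡ r mod n'` (natural subtraction is harmless since
`h ≤ X ≤ l`): two such `j0, j0'` satisfy `j0*n ≡ j0'*n mod n'`, so `j0 ≡ j0' mod n'` because `n` is
coprime to `n'` (Nat.ModEq.cancel_right_of_coprime or via ZMod), so `j0 = j0'`. The number of
triples `(i,h,r)` is at most `N0 * h0 * s < n'`, so some `j0 < n'` is not bad for any triple.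
For this `j0`: `D (l + (j0+i)*n + 1 - h)` would imply `D r` with `r` the remainder mod `n'`
(D is `n'`-periodic: Function.Periodic / Nat.ModEq induction, `Function.Periodic.map_mod_nat` for
`fun t => D t` with propext), contradiction.
(Formally: the set of bad `j0` is the union over the triples in a Finset of sets of size `≤ 1`;
Finset.card_biUnion_le; `Finset.exists_mem_notMem_of_card_lt_card`.)
-/
import Mathlib

set_option autoImplicit false

namespace Pool.Agent.H42.PC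

open scoped Classical

theorem glb_per {n' : ℕ} (D : ℕ → Prop) (hper : ∀ t, D (t + n') ↔ D t) (k t : ℕ) :
    D (t + k * n') ↔ D t := by
  induction k with
  | zero => rw [zero_mul, add_zero]
  | succ k ih =>
    have e : t + (k + 1) * n' = (t + k * n') + n' := by ring
    rw [e, hper, ih]

theorem glb_mod {n' : ℕ} (D : ℕ → Prop) (hper : ∀ t, D (t + n') ↔ D t) (t : ℕ) :
    D (t % n') ↔ D t := by
  have h := glb_per D hper (t / n') (t % n')
  have e : t % n' + t / n' * n' = t := by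
    rw [mul_comm]
    exact Nat.mod_add_div t n'
  rw [e] at h
  exact h.symm

theorem glb_one {n n' l X : ℕ} (hco : Nat.Coprime n n') (hl : X ≤ l) (i h r : ℕ) (hh : h ≤ X) :
    ((Finset.range n').filter fun j => l + (j + i) * n + 1 - h ≡ r [MOD n']).card ≤ 1 := by
  rw [Finset.card_le_one]
  intro j hj j' hj'
  rw [Finset.mem_filter, Finset.mem_range] at hj hj'
  obtain ⟨c, hc⟩ : ∃ c, c = l + 1 - h := ⟨_, rfl⟩
  have e : ∀ x : ℕ, l + x + 1 - h = c + x := by
    intro x
    omega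
  have h1 : c + (j + i) * n ≡ c + (j' + i) * n [MOD n'] := by
    rw [← e, ← e]
    exact hj.2.trans hj'.2.symm
  have h2 := Nat.ModEq.add_left_cancel' c h1
  have h3 : j + i ≡ j' + i [MOD n'] :=
    Nat.ModEq.cancel_right_of_coprime (by rw [Nat.gcd_comm]; exact hco) h2
  have h4 := Nat.ModEq.add_right_cancel' i h3
  exact Nat.ModEq.eq_of_lt_of_lt h4 hj.1 hj'.1

theorem choose_class {n n' s N0 h0 X l : ℕ} (hn' : 1 ≤ n') (hco : Nat.Coprime n n')
    (D : ℕ → Prop) (hper : ∀ t, D (t + n') ↔ D t)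
    (hD : ((Finset.range n').filter fun t => D t).card ≤ s) (H : Set ℕ)
    (hH : (H ∩ Set.Icc 1 X).ncard ≤ h0) (hlt : N0 * h0 * s < n') (hl : X ≤ l) :
    ∃ j0 < n', ∀ i, 1 ≤ i → i ≤ N0 → ∀ h ∈ H, 1 ≤ h → h ≤ X →
      ¬ D (l + (j0 + i) * n + 1 - h) := by
  have hfin : (H ∩ Set.Icc 1 X).Finite := (Set.finite_Icc 1 X).subset Set.inter_subset_right
  obtain ⟨HF, hHF⟩ : ∃ HF : Finset ℕ, HF = hfin.toFinset := ⟨_, rfl⟩
  have hHFc : HF.card ≤ h0 := by
    rw [hHF, ← Set.ncard_eq_toFinset_card _ hfin]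
    exact hH
  obtain ⟨T, hT⟩ : ∃ T : Finset (ℕ × ℕ × ℕ), T = (Finset.Icc 1 N0) ×ˢ HF ×ˢ
      ((Finset.range n').filter fun t => D t) := ⟨_, rfl⟩
  have hTc : T.card < n' := by
    rw [hT, Finset.card_product, Finset.card_product, Nat.card_Icc]
    refine lt_of_le_of_lt ?_ hlt
    have h1 : N0 + 1 - 1 = N0 := by omega
    rw [h1, mul_assoc]
    exact Nat.mul_le_mul le_rfl (Nat.mul_le_mul hHFc hD)
  obtain ⟨B, hB⟩ : ∃ B : Finset ℕ, B = T.biUnion (fun τ => (Finset.range n').filter fun j =>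
      l + (j + τ.1) * n + 1 - τ.2.1 ≡ τ.2.2 [MOD n']) := ⟨_, rfl⟩
  have hBc : B.card < (Finset.range n').card := by
    rw [Finset.card_range, hB]
    refine lt_of_le_of_lt Finset.card_biUnion_le (lt_of_le_of_lt ?_ hTc)
    have h2 : ∀ τ ∈ T, ((Finset.range n').filter fun j =>
        l + (j + τ.1) * n + 1 - τ.2.1 ≡ τ.2.2 [MOD n']).card ≤ 1 := by
      intro τ hτ
      rw [hT, Finset.mem_product, Finset.mem_product, hHF, Set.Finite.mem_toFinset] at hτ
      exact glb_one hco hl _ _ _ hτ.2.1.2.2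
    exact (Finset.sum_le_card_nsmul T _ 1 h2).trans (by simp)
  obtain ⟨j0, hj0, hj0B⟩ := Finset.exists_mem_notMem_of_card_lt_card hBc
  rw [Finset.mem_range] at hj0
  refine ⟨j0, hj0, fun i hi1 hi2 h hh h1 h2 hDD => hj0B ?_⟩
  rw [hB, Finset.mem_biUnion]
  refine ⟨(i, h, (l + (j0 + i) * n + 1 - h) % n'), ?_, ?_⟩
  · rw [hT, Finset.mem_product, Finset.mem_product, hHF, Set.Finite.mem_toFinset,
      Finset.mem_filter, Finset.mem_range, Finset.mem_Icc]
    refine ⟨⟨hi1, hi2⟩, ⟨hh, h1, h2⟩, Nat.mod_lt _ (by omega), ?_⟩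
    exact (glb_mod D hper _).2 hDD
  · rw [Finset.mem_filter, Finset.mem_range]
    exact ⟨hj0, (Nat.mod_modEq _ _).symm⟩

end Pool.Agent.H42.PC
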