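/-
ROW GDa. Isolation inside one cluster: a variant of `isolation` of PCM/G2 (section GIso).
PROOF: copy the proof of `isolation` (PCM/G2.lean, about 110 lines) and change only this:
`U` is contained in the fibre of `z` under `F^[l-T]`, so the level `m` at which `u = F a ∈ U` and
`y ∈ U` diverge (`diverge`) satisfies `T ≤ m`: if `m < T` then `l - m - 1 ≥ l - T` and
`F^[l-m-1] u = F^[l-m-1-(l-T)] (F^[l-T] u) = F^[l-m-1-(l-T)] z = F^[l-m-1] y`, contradiction.
In `key`, when the filter is not empty, pick `γ0` in it: then `F x1` and `γ0⁻¹ • y` are two points of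
`SD F O l δ` which diverge at level `m` (c2, c3, c4 of the old proof, hs1): this provides the last
hypothesis of `hbig`.
-/
import Pool.Agent.H42.AD.Defs

set_option autoImplicit false

namespace Pool.Agent.H42.PC

open scoped Classical

variable {G Ω : Type} [Group G] [MulAction G Ω] {F : Ω → Ω} {b : Ω}
  {d N s J n0 : ℕ} {O : ℕ → Set Ω}

theorem isolation2 [Finite G] (hT : Tree G F b d N) (hO : Orb G F b n0 N O)
    (P : Place G F b s J N) (hJ : 1 ≤ J) (hd : 1 ≤ d) {l T : ℕ} (hl0 : n0 ≤ l) (hTl : T ≤ l)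
    (hl : l < N) {δ : G}
    (hδ : δ ∈ P.I) (htriv : ∀ g ∈ P.I, ∀ x ∈ O l, g • x = x) {x1 : Ω} (hx : F x1 ∈ O l)
    (hmv : δ • x1 ≠ x1) (k : ℕ)
    (hbig : ∀ u ∈ O l, ∀ y ∈ O l, ∀ m, T ≤ m → m < l → F^[l - m] u = F^[l - m] y →
      F^[l - m - 1] u ≠ F^[l - m - 1] y → J < l + 1 - m →
      (∃ y1 ∈ SD F O l δ, ∃ y2 ∈ SD F O l δ, F^[l - m] y1 = F^[l - m] y2 ∧
        F^[l - m - 1] y1 ≠ F^[l - m - 1] y2) →
      k * d * (s * 2 ^ ((l - m) / (J + 1))) <
        (MulAction.orbit (MulAction.stabilizer G u) y).ncard)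
    (z : Ω) (U : Set Ω) (hU : U ⊆ O l) (hUz : ∀ y ∈ U, F^[l - T] y = z) (hUk : U.ncard ≤ k)
    {a : Ω} (ha : F a ∈ U) :
    ∃ γ : G, γ • x1 = a ∧ ∀ y ∈ U, y ≠ F a → γ⁻¹ • y ∉ SD F O l δ := by
  have := Fintype.ofFinite G
  have hu : F a ∈ O l := hU ha
  have ha' : a ∈ O (l + 1) := hO.full l hl0 hl a hu
  have hx' : x1 ∈ O (l + 1) := hO.full l hl0 hl x1 hx
  have hOl : (O l).Finite := (lev_fin hT hl.le).subset (hO.sub l hl.le)
  have hOpos : 0 < (O l).ncard := (Set.ncard_pos hOl).2 (hO.ne l hl.le)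
  have hT0 : Nat.card {g : G // g • x1 = a} * (d * (O l).ncard) = Nat.card G := by
    rw [← orb_succ hT hO hl0 hl]
    exact transport hT hO (by omega) hx' ha'
  have hS0 : Nat.card {g : G // g • F a = F a} * (O l).ncard = Nat.card G :=
    transport hT hO hl.le hu hu
  have hTS : Nat.card {g : G // g • F a = F a} = Nat.card {g : G // g • x1 = a} * d := by
    have h1 : Nat.card {g : G // g • F a = F a} * (O l).ncard =
        (Nat.card {g : G // g • x1 = a} * d) * (O l).ncard := by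
      rw [hS0, ← hT0, mul_assoc]
    exact Nat.eq_of_mul_eq_mul_right hOpos h1
  set T0 : Finset G := Finset.univ.filter fun g => g • x1 = a with hT0d
  have hT0c : Nat.card {g : G // g • x1 = a} = T0.card := by
    rw [Nat.card_eq_fintype_card, Fintype.card_subtype]
  rw [hT0c] at hTS
  have hT0pos : 0 < T0.card := by
    obtain ⟨g, hg⟩ := hO.trans (l + 1) hl x1 hx' a ha'
    exact Finset.card_pos.2 ⟨g, Finset.mem_filter.2 ⟨Finset.mem_univ _, hg⟩⟩
  have hs1 : F x1 ∈ SD F O l δ := ⟨hx, x1, rfl, hmv⟩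
  have key : ∀ y ∈ U, y ≠ F a →
      k * (T0.filter fun γ => γ⁻¹ • y ∈ SD F O l δ).card < T0.card := by
    intro y hyU hyne
    have hy : y ∈ O l := hU hyU
    rcases Finset.eq_empty_or_nonempty (T0.filter fun γ => γ⁻¹ • y ∈ SD F O l δ) with hB | hB
    · rw [hB, Finset.card_empty, mul_zero]
      exact hT0pos
    obtain ⟨m, hm, hm1, hm2⟩ := diverge hO hl.le hu hy hyne.symm
    have hTm : T ≤ m := by
      by_contra hcon
      apply hm2
      have e1 : l - m - 1 = (l - m - 1 - (l - T)) + (l - T) := by omega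
      rw [e1, Function.iterate_add_apply, Function.iterate_add_apply, hUz _ ha, hUz _ hyU]
    have hγ : ∀ γ ∈ T0.filter (fun γ => γ⁻¹ • y ∈ SD F O l δ),
        γ • F x1 = F a ∧ γ⁻¹ • y ∈ SD F O l δ ∧ F^[l - m] (γ⁻¹ • y) = F^[l - m] (F x1) ∧
          F^[l - m - 1] (F x1) ≠ F^[l - m - 1] (γ⁻¹ • y) := by
      intro γ hγ
      rw [Finset.mem_filter, hT0d, Finset.mem_filter] at hγ
      have h1 : γ • F x1 = F a := by rw [← hT.equiv, hγ.1.2]
      have h2 : γ⁻¹ • F a = F x1 := by rw [← h1, inv_smul_smul]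
      refine ⟨h1, hγ.2, ?_, ?_⟩
      · rw [iter_smul hT, ← hm1, ← iter_smul hT, h2]
      · intro h
        apply hm2
        rw [iter_smul hT, ← h2, iter_smul hT] at h
        exact MulAction.injective γ⁻¹ h
    obtain ⟨γ0, hγ0⟩ := hB
    obtain ⟨-, c2, c3, c4⟩ := hγ γ0 hγ0
    have hnear := sd_near hT hO P hJ hl hδ htriv hm hs1 c2 c3.symm c4
    have hz : F^[l - m] (F x1) ∈ lev F b m := by
      have h1 := lev_iter (j := l - m) (hO.sub l hl.le hx) (by omega)
      rwa [show l - (l - m) = m by omega] at h1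
    have hD := sd_count hT hO P hJ hl hδ htriv hm.le hz
    set D : Set Ω := {y' | y' ∈ SD F O l δ ∧ F^[l - m] y' = F^[l - m] (F x1)} with hDd
    have hDfin : D.Finite := hOl.subset (fun y' hy' => hy'.1.1)
    have hcount : (T0.filter fun γ => γ⁻¹ • y ∈ SD F O l δ).card ≤
        D.ncard * Nat.card (MulAction.stabilizer (MulAction.stabilizer G (F a)) y) := by
      have hsub : (T0.filter fun γ => γ⁻¹ • y ∈ SD F O l δ) ⊆ hDfin.toFinset.biUnion
          (fun s2 => Finset.univ.filter fun γ : G => γ • F x1 = F a ∧ γ • s2 = y) := by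
        intro γ h
        obtain ⟨d1, d2, d3, -⟩ := hγ γ h
        rw [Finset.mem_biUnion]
        refine ⟨γ⁻¹ • y, ?_, ?_⟩
        · rw [Set.Finite.mem_toFinset]
          exact ⟨d2, d3⟩
        · rw [Finset.mem_filter]
          exact ⟨Finset.mem_univ _, d1, smul_inv_smul _ _⟩
      refine (Finset.card_le_card hsub).trans (Finset.card_biUnion_le.trans ?_)
      rw [Set.ncard_eq_toFinset_card _ hDfin]
      refine (Finset.sum_le_card_nsmul _ _ _ (fun s2 _ => ?_)).trans (le_of_eq (smul_eq_mul _ _))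
      have h1 := GIso_two (G := G) (F x1) s2 (F a) y
      rwa [Nat.card_eq_fintype_card, Fintype.card_subtype] at h1
    have horb := GIso_orb (G := G) (F a) y
    rw [hTS] at horb
    have hb := hbig (F a) hu y hy m hTm hm hm1 hm2 hnear
      ⟨F x1, hs1, γ0⁻¹ • y, c2, c3.symm, c4⟩
    set B := (T0.filter fun γ => γ⁻¹ • y ∈ SD F O l δ).card with hBd
    set M := Nat.card (MulAction.stabilizer (MulAction.stabilizer G (F a)) y) with hMd
    set o := (MulAction.orbit (MulAction.stabilizer G (F a)) y).ncard with hod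
    have hfin : k * B * o < T0.card * o := by
      calc k * B * o ≤ k * (D.ncard * M) * o := by gcongr
        _ = k * D.ncard * (M * o) := by ring
        _ = k * D.ncard * (T0.card * d) := by rw [horb]
        _ = (k * d * D.ncard) * T0.card := by ring
        _ ≤ (k * d * (s * 2 ^ ((l - m) / (J + 1)))) * T0.card := by gcongr
        _ < o * T0.card := Nat.mul_lt_mul_of_pos_right hb hT0pos
        _ = T0.card * o := by ring
    exact lt_of_mul_lt_mul_right hfin (Nat.zero_le _)
  by_contra hcon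
  push Not at hcon
  have hUfin : U.Finite := hOl.subset hU
  have hcov : T0 ⊆ (hUfin.toFinset.filter fun y => y ≠ F a).biUnion
      (fun y => T0.filter fun γ => γ⁻¹ • y ∈ SD F O l δ) := by
    intro γ h
    obtain ⟨y, hy1, hy2, hy3⟩ := hcon γ (Finset.mem_filter.1 h).2
    rw [Finset.mem_biUnion]
    refine ⟨y, ?_, ?_⟩
    · rw [Finset.mem_filter, Set.Finite.mem_toFinset]
      exact ⟨hy1, hy2⟩
    · exact Finset.mem_filter.2 ⟨h, hy3⟩
  set U' := hUfin.toFinset.filter fun y => y ≠ F a with hU'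
  have hcard : T0.card ≤ ∑ y ∈ U', (T0.filter fun γ => γ⁻¹ • y ∈ SD F O l δ).card :=
    (Finset.card_le_card hcov).trans Finset.card_biUnion_le
  have hU'ne : U'.Nonempty := by
    rw [Finset.nonempty_iff_ne_empty]
    intro h
    rw [h, Finset.sum_empty] at hcard
    omega
  have hU'c : U'.card ≤ k := by
    refine le_trans (Finset.card_filter_le _ _) ?_
    rwa [← Set.ncard_eq_toFinset_card _ hUfin]
  have h1 : k * T0.card < k * T0.card := by
    calc k * T0.card ≤ k * ∑ y ∈ U', (T0.filter fun γ => γ⁻¹ • y ∈ SD F O l δ).card := by gcongr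
      _ = ∑ y ∈ U', k * (T0.filter fun γ => γ⁻¹ • y ∈ SD F O l δ).card := Finset.mul_sum _ _ _
      _ < ∑ y ∈ U', T0.card := by
          refine Finset.sum_lt_sum_of_nonempty hU'ne (fun y hy => ?_)
          rw [hU', Finset.mem_filter, Set.Finite.mem_toFinset] at hy
          exact key y hy.1 hy.2
      _ = U'.card * T0.card := by rw [Finset.sum_const, smul_eq_mul]
      _ ≤ k * T0.card := by gcongr
  exact lt_irrefl _ h1

end Pool.Agent.H42.PC
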