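/-
ROW GDb. Deranging one cluster: a variant of `derange` of PCM/G2 (section GDer).
PROOF: copy the proof of `derange` (PCM/G2.lean, about 80 lines), replacing
`{y | y ∈ O l ∧ g • y = y}` by `{y | y ∈ O l ∧ g • y = y ∧ F^[l-T] y = z}` and
`{x | x ∈ O (l+1) ∧ g • x = x}` by `{x | x ∈ O (l+1) ∧ g • x = x ∧ F^[l+1-T] x = z}` (for
`x ∈ O (l+1)`: `F^[l+1-T] x = F^[l-T] (F x)`, as `l+1-T = (l-T)+1`). The point `a` to be removed is a
fixed point above `z`, so `F a` lies in the set `U` of fixed points of level `l` above `z`, and hiso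
applies. The elements `γ * δ * γ⁻¹` act trivially on `O l`, so `U` does not change; for a fixed point
`x` of `g * (γδγ⁻¹)` above `z` with `F x ≠ F a` the point `F x` lies in `U`, so `γ⁻¹ • F x ∉ SD` and
`x` is not moved by `γδγ⁻¹`; if `F x = F a` use sd_swap as before. So the number of fixed points
above `z` decreases.
-/
import Pool.Agent.H42.AD.Defs

set_option autoImplicit false

namespace Pool.Agent.H42.PC

open scoped Classical

variable {G Ω : Type} [Group G] [MulAction G Ω] {F : Ω → Ω} {b : Ω}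
  {d N s J n0 : ℕ} {O : ℕ → Set Ω}

theorem derange2 [Finite G] (hT : Tree G F b d N) (hO : Orb G F b n0 N O)
    (P : Place G F b s J N) (hJ : 1 ≤ J) {l T : ℕ} (hl0 : n0 ≤ l) (hTl : T ≤ l) (hl : l < N)
    {δ : G} (hδ : δ ∈ P.I) (htriv : ∀ g ∈ P.I, ∀ x ∈ O l, g • x = x) {x1 : Ω} (hx : F x1 ∈ O l)
    (hmv : δ • x1 ≠ x1) (k : ℕ) (z : Ω)
    (hiso : ∀ U : Set Ω, U ⊆ O l → (∀ y ∈ U, F^[l - T] y = z) → U.ncard ≤ k → ∀ a, F a ∈ U →
      ∃ γ : G, γ • x1 = a ∧ ∀ y ∈ U, y ≠ F a → γ⁻¹ • y ∉ SD F O l δ)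
    (g : G) (hg : {y | y ∈ O l ∧ g • y = y ∧ F^[l - T] y = z}.ncard ≤ k) :
    ∃ h : G, (∀ x ∈ O l, h • x = x) ∧
      ∀ x ∈ O (l + 1), F^[l + 1 - T] x = z → (g * h) • x ≠ x := by
  have _ := hl0
  have hfin1 : (O (l + 1)).Finite := (lev_fin hT hl).subset (hO.sub (l + 1) hl)
  have hit : ∀ x : Ω, F^[l + 1 - T] x = F^[l - T] (F x) := by
    intro x
    rw [show l + 1 - T = (l - T) + 1 by omega, Function.iterate_succ_apply]
  have key : ∀ n : ℕ, ∀ g : G, {y | y ∈ O l ∧ g • y = y ∧ F^[l - T] y = z}.ncard ≤ k →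
      {x | x ∈ O (l + 1) ∧ g • x = x ∧ F^[l + 1 - T] x = z}.ncard ≤ n →
      ∃ h : G, (∀ x ∈ O l, h • x = x) ∧
        ∀ x ∈ O (l + 1), F^[l + 1 - T] x = z → (g * h) • x ≠ x := by
    intro n
    induction n with
    | zero =>
      intro g hg hn
      refine ⟨1, fun x _ => one_smul G x, fun x hx hxz he => ?_⟩
      have hf : {x | x ∈ O (l + 1) ∧ g • x = x ∧ F^[l + 1 - T] x = z}.Finite :=
        hfin1.subset fun x hx => hx.1
      have h0 := (Set.ncard_eq_zero hf).1 (Nat.le_zero.1 hn)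
      rw [mul_one] at he
      have hx' : x ∈ {x | x ∈ O (l + 1) ∧ g • x = x ∧ F^[l + 1 - T] x = z} := ⟨hx, he, hxz⟩
      rw [h0] at hx'
      exact hx'
    | succ n ih =>
      intro g hg hn
      by_cases hex : ∃ a ∈ O (l + 1), F^[l + 1 - T] a = z ∧ g • a = a
      swap
      · push Not at hex
        exact ⟨1, fun x _ => one_smul G x, fun x hx hxz => by
          rw [mul_one]
          exact hex x hx hxz⟩
      obtain ⟨a, ha, haz, hga⟩ := hex
      have hFa : F a ∈ O l := hO.par l hl a ha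
      have hFaU : F a ∈ {y | y ∈ O l ∧ g • y = y ∧ F^[l - T] y = z} :=
        ⟨hFa, by rw [← hT.equiv, hga], by rw [← hit]; exact haz⟩
      obtain ⟨γ, hγ, hγ2⟩ := hiso {y | y ∈ O l ∧ g • y = y ∧ F^[l - T] y = z}
        (fun y hy => hy.1) (fun y hy => hy.2.2) hg a hFaU
      have hx1 : γ⁻¹ • a = x1 := by rw [← hγ, inv_smul_smul]
      have htr : ∀ x ∈ O l, (γ * δ * γ⁻¹) • x = x := by
        intro x hx
        rw [mul_smul, mul_smul, htriv δ hδ _ (hO.inv l hl.le γ⁻¹ x hx), smul_inv_smul]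
      have hg'U : {y | y ∈ O l ∧ (g * (γ * δ * γ⁻¹)) • y = y ∧ F^[l - T] y = z} =
          {y | y ∈ O l ∧ g • y = y ∧ F^[l - T] y = z} := by
        ext y
        simp only [Set.mem_ofPred_eq]
        constructor
        · rintro ⟨hy, h, hz⟩
          rw [mul_smul, htr y hy] at h
          exact ⟨hy, h, hz⟩
        · rintro ⟨hy, h, hz⟩
          refine ⟨hy, ?_, hz⟩
          rw [mul_smul, htr y hy]
          exact h
      have hfix : ∀ x ∈ O (l + 1), F^[l + 1 - T] x = z → (g * (γ * δ * γ⁻¹)) • x = x →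
          g • x = x ∧ x ≠ a := by
        intro x hxO hxz hgx
        have hFx : F x ∈ O l := hO.par l hl x hxO
        have hFxU : F x ∈ {y | y ∈ O l ∧ g • y = y ∧ F^[l - T] y = z} := by
          rw [← hg'U]
          exact ⟨hFx, by rw [← hT.equiv, hgx], by rw [← hit]; exact hxz⟩
        have hh : (γ * δ * γ⁻¹) • x = γ • δ • γ⁻¹ • x := by rw [mul_smul, mul_smul]
        have hback : δ • γ⁻¹ • x = γ⁻¹ • x → g • x = x := by
          intro h
          rw [mul_smul, hh, h, smul_inv_smul] at hgx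
          exact hgx
        by_cases hFe : F x = F a
        · have hFz : F (γ⁻¹ • x) = F x1 := by rw [hT.equiv, hFe, ← hT.equiv, hx1]
          obtain ⟨-, -, hdd, hz⟩ := sd_swap hT hO P hJ hl hδ htriv hx hmv
          by_cases hz1 : γ⁻¹ • x = x1
          · exfalso
            have hxa : x = a := by rw [← hγ, ← hz1, smul_inv_smul]
            rw [mul_smul, hh, hz1, hxa] at hgx
            have h2 : γ • δ • x1 = a := smul_left_cancel g (hgx.trans hga.symm)
            rw [← hγ] at h2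
            exact hmv (smul_left_cancel γ h2)
          · by_cases hz2 : γ⁻¹ • x = δ • x1
            · exfalso
              rw [mul_smul, hh, hz2, hdd, hγ, hga] at hgx
              rw [← hgx, hx1] at hz2
              exact hmv hz2.symm
            · refine ⟨hback (hz _ hFz hz1 hz2), fun hxa => hz1 ?_⟩
              rw [hxa, hx1]
        · have hnot := hγ2 (F x) hFxU hFe
          refine ⟨hback ?_, fun hxa => hFe (by rw [hxa])⟩
          by_contra hne
          exact hnot ⟨hO.inv l hl.le γ⁻¹ _ hFx, γ⁻¹ • x, by rw [hT.equiv], hne⟩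
      have hf : {x | x ∈ O (l + 1) ∧ g • x = x ∧ F^[l + 1 - T] x = z}.Finite :=
        hfin1.subset fun x hx => hx.1
      have hlt : {x | x ∈ O (l + 1) ∧ (g * (γ * δ * γ⁻¹)) • x = x ∧ F^[l + 1 - T] x = z}.ncard <
          {x | x ∈ O (l + 1) ∧ g • x = x ∧ F^[l + 1 - T] x = z}.ncard := by
        refine Set.ncard_lt_ncard ⟨fun x hx => ⟨hx.1, (hfix x hx.1 hx.2.2 hx.2.1).1, hx.2.2⟩,
          fun h => ?_⟩ hf
        have h3 := h ⟨ha, hga, haz⟩
        exact (hfix a ha haz h3.2.1).2 rfl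
      obtain ⟨h, h1, h2⟩ := ih (g * (γ * δ * γ⁻¹)) (by rw [hg'U]; exact hg) (by omega)
      refine ⟨γ * δ * γ⁻¹ * h, fun x hx => by rw [mul_smul, h1 x hx, htr x hx],
        fun x hx hxz => ?_⟩
      rw [← mul_assoc]
      exact h2 x hx hxz
  exact key _ g hg le_rfl

end Pool.Agent.H42.PC
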