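/-
ROW GKa. Gaps between a moved level `l` and the levels at which two moved points diverge.
PROOFS.
* sd_gap: like sd_near in PCM/G2 (section GDel; copy its first half). Let `y1 = F x1`, `y2 = F x2`
  with `δ • x1 ≠ x1`, `δ • x2 ≠ x2`, `c1 = red x1`, `c2 = red x2 ∈ A` (sd_swap). Put `h = l - m ≥ 1`.
  `v1 = F^[h-1] y1 = F^[h] x1 ∈ lev (m+1)`, `v2 = F^[h] x2`; `red v1 = FR^[h] c1`,
  `red v2 = FR^[h] c2` (red_iter), `F v1 = F v2` (he), `v1 ≠ v2` (hne), and
  `FR^[h+1] c1 = red (F^[h+1] x1) = red (F^[h] y1) = FR^[h+1] c2`.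
  If `FR^[h] c1 ≠ FR^[h] c2`: second alternative of `HH`. Otherwise `red v1 = red v2`, so by hone
  `red v1 ∈ A`, i.e. `FR^[h] c1 ∈ A`; and `FR^[l+1] c1 = red (F^[l+1] x1) = red b` because
  `x1 ∈ lev (l+1)`: first alternative.
* HH_mono: the second alternative does not depend on `l`. First: `FR^[l + j*n + 1] c =
  FR^[j*n] (FR^[l+1] c) = FR^[j*n] (red b) = red b` (hcyc; Function.iterate_mul,
  Function.iterate_fixed, `Function.IsPeriodicPt`).
-/
import Pool.Agent.H42.AD.Defs

set_option autoImplicit false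

namespace Pool.Agent.H42.PC

open scoped Classical

variable {G Ω : Type} [Group G] [MulAction G Ω] {F : Ω → Ω} {b : Ω} {d N s J n t0 n0 : ℕ}
  {O : ℕ → Set Ω}

theorem GKa_lev (hO : Orb G F b n0 N O) {l : ℕ} (hl : l < N) {x : Ω}
    (hx : F x ∈ O l) : x ∈ lev F b (l + 1) := by
  have h := hO.sub l hl.le hx
  exact lev_up (j := 1) (by simpa using h)

theorem sd_gap (hT : Tree G F b d N) (hO : Orb G F b n0 N O) (P : Place G F b s J N)
    (hJ : 1 ≤ J) {l : ℕ} (hl : l < N) {δ : G} (hδ : δ ∈ P.I)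
    (htriv : ∀ g ∈ P.I, ∀ x ∈ O l, g • x = x) {m : ℕ} (hm : m < l) {y1 y2 : Ω}
    (h1 : y1 ∈ SD F O l δ) (h2 : y2 ∈ SD F O l δ) (he : F^[l - m] y1 = F^[l - m] y2)
    (hne : F^[l - m - 1] y1 ≠ F^[l - m - 1] y2) : l - m ∈ P.HH l := by
  obtain ⟨hy1, x1, hx1, hm1⟩ := h1
  obtain ⟨hy2, x2, hx2, hm2⟩ := h2
  subst hx1
  subst hx2
  have hA1 := (sd_swap hT hO P hJ hl hδ htriv hy1 hm1).1
  have hA2 := (sd_swap hT hO P hJ hl hδ htriv hy2 hm2).1
  have hl1 := GKa_lev hO hl hy1
  have hl2 := GKa_lev hO hl hy2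
  have r1 := red_iter P (t := l + 1) (j := (l - m) + 1) (by omega) hl hl1
  have r2 := red_iter P (t := l + 1) (j := (l - m) + 1) (by omega) hl hl2
  rw [Function.iterate_succ_apply] at r1 r2
  have hc : P.FR^[(l - m) + 1] (P.red x1) = P.FR^[(l - m) + 1] (P.red x2) := by
    rw [← r1, ← r2, he]
  have q1 := red_iter P (t := l + 1) (j := l - m) (by omega) hl hl1
  have q2 := red_iter P (t := l + 1) (j := l - m) (by omega) hl hl2
  have q1' : P.red (F^[l - m - 1] (F x1)) = P.FR^[l - m] (P.red x1) := by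
    rw [← q1, ← Function.iterate_succ_apply, show (l - m - 1).succ = l - m by omega]
  have q2' : P.red (F^[l - m - 1] (F x2)) = P.FR^[l - m] (P.red x2) := by
    rw [← q2, ← Function.iterate_succ_apply, show (l - m - 1).succ = l - m by omega]
  by_cases hq : P.FR^[l - m] (P.red x1) = P.FR^[l - m] (P.red x2)
  · left
    have v1 : F^[l - m - 1] (F x1) ∈ lev F b (m + 1) := by
      have := lev_iter (j := l - m - 1) (hO.sub l hl.le hy1) (by omega)
      rwa [show l - (l - m - 1) = m + 1 by omega] at this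
    have v2 : F^[l - m - 1] (F x2) ∈ lev F b (m + 1) := by
      have := lev_iter (j := l - m - 1) (hO.sub l hl.le hy2) (by omega)
      rwa [show l - (l - m - 1) = m + 1 by omega] at this
    have hFe : F (F^[l - m - 1] (F x1)) = F (F^[l - m - 1] (F x2)) := by
      rw [← Function.iterate_succ_apply' F, ← Function.iterate_succ_apply' F,
        show (l - m - 1).succ = l - m by omega, he]
    have hRe : P.red (F^[l - m - 1] (F x1)) = P.red (F^[l - m - 1] (F x2)) := by
      rw [q1', q2', hq]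
    have hrA : P.red (F^[l - m - 1] (F x1)) ∈ P.A := by
      by_contra hn
      exact hne (P.hone m (by omega) _ v1 _ v2 hFe hRe hn)
    refine ⟨P.red x1, hA1, ?_, ?_⟩
    · have hb := red_iter P (t := l + 1) (j := l + 1) le_rfl hl hl1
      have h2 : F^[l + 1] x1 = b := hl1
      rw [h2] at hb
      exact hb.symm
    · rw [← q1']
      exact hrA
  · right
    exact ⟨P.red x1, hA1, P.red x2, hA2, hq, hc⟩

theorem HH_mono {P : Place G F b s J N} (hC : Cyc P n t0) (l j : ℕ) :
    P.HH l ⊆ P.HH (l + j * n) := by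
  intro h hh
  rcases hh with ⟨c, hcA, hcb, hch⟩ | hh
  · left
    refine ⟨c, hcA, ?_, hch⟩
    have h1 : l + j * n + 1 = n * j + (l + 1) := by ring
    rw [h1, Function.iterate_add_apply, hcb, Function.iterate_mul]
    exact Function.iterate_fixed hC.hcyc j
  · right
    exact hh

end Pool.Agent.H42.PC
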