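/-
ROW GLa. The levels at which the cycle point is critical. Write `β = red b`.
PROOFS.
* dg_per: `(n-1)*(t+n) = (n-1)*t + (n-1)*n`, and `FR^[(n-1)*n] β = β` (hcyc,
  Function.iterate_mul, Function.iterate_fixed), so both iterates agree
  (Function.iterate_add_apply).
* dg_count: the map `t ↦ FR^[(n-1)*t] β` is injective on `[0,n)`: apply `FR^[t']`... precisely,
  suppose `t < t' < n` have the same value `r`. Apply `FR^[t']`: from the second,
  `FR^[(n-1)*t'+t'] β = FR^[n*t'] β = β`; from the first `FR^[(n-1)*t + t'] β =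
  FR^[n*t + (t'-t)] β = FR^[t'-t] β`. So `FR^[t'-t] β = β` with `1 ≤ t'-t < n`, contradicting hmin.
  The values of the `t` in the filter lie in `A` and `A.ncard ≤ s` (P.hA, P.hAfin;
  Finset.card_le_card_of_injOn).
* dg_on: `red x = FR^[(n-1)*t] β` for `x` on the cycle in `lev t`. PROOF of this: let `r = red x`;
  `FR^[n] r = r` (onC_fix) and `FR^[t] r = red (F^[t] x) = β` (red_iter), so
  `FR^[(n-1)*t] β = FR^[(n-1)*t+t] r = FR^[n*t] r = r`.
-/
import Pool.Agent.H42.AD.Defs

set_option autoImplicit false

namespace Pool.Agent.H42.PC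

open scoped Classical

variable {G Ω : Type} [Group G] [MulAction G Ω] {F : Ω → Ω} {b : Ω} {d N s J n t0 : ℕ}

theorem gla_mul {P : Place G F b s J N} (hC : Cyc P n t0) (k : ℕ) :
    P.FR^[n * k] (P.red b) = P.red b := by
  rw [Function.iterate_mul]
  exact Function.iterate_fixed hC.hcyc k

theorem dg_per {P : Place G F b s J N} (hC : Cyc P n t0) (t : ℕ) :
    P.dg n (t + n) ↔ P.dg n t := by
  unfold Place.dg
  have h : (n - 1) * (t + n) = (n - 1) * t + n * (n - 1) := by ring
  rw [h, Function.iterate_add_apply, gla_mul hC]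

theorem dg_count {P : Place G F b s J N} (hP : Full P n t0) :
    ((Finset.range n).filter fun t => P.dg n t).card ≤ s := by
  have hC := hP.toCyc
  have hn := hC.hn
  have hinj : ∀ t t', t < t' → t' < n →
      P.FR^[(n - 1) * t] (P.red b) = P.FR^[(n - 1) * t'] (P.red b) → False := by
    intro t t' htt ht' h
    have h1 : P.FR^[t'] (P.FR^[(n - 1) * t'] (P.red b)) = P.red b := by
      rw [← Function.iterate_add_apply]
      have e : t' + (n - 1) * t' = n * t' := by
        obtain ⟨m, rfl⟩ := Nat.exists_eq_add_of_le hn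
        simp only [Nat.add_sub_cancel_left]
        ring
      rw [e, gla_mul hC]
    have h2 : P.FR^[t'] (P.FR^[(n - 1) * t] (P.red b)) = P.FR^[t' - t] (P.red b) := by
      rw [← Function.iterate_add_apply]
      have e : t' + (n - 1) * t = (t' - t) + n * t := by
        obtain ⟨m, rfl⟩ := Nat.exists_eq_add_of_le hn
        obtain ⟨l, rfl⟩ := Nat.exists_eq_add_of_le htt.le
        simp only [Nat.add_sub_cancel_left]
        ring
      rw [e, Function.iterate_add_apply, gla_mul hC]
    rw [h, h1] at h2
    exact hP.hmin (t' - t) (by omega) (by omega) h2.symm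
  refine le_trans ?_ P.hA
  rw [Set.ncard_eq_toFinset_card _ P.hAfin]
  refine Finset.card_le_card_of_injOn (fun t => P.FR^[(n - 1) * t] (P.red b)) ?_ ?_
  · intro t ht
    rw [Finset.mem_coe, Finset.mem_filter] at ht
    rw [Finset.mem_coe, Set.Finite.mem_toFinset]
    exact ht.2
  · intro t ht t' ht' h
    rw [Finset.mem_coe, Finset.mem_filter, Finset.mem_range] at ht ht'
    rcases lt_trichotomy t t' with h1 | h1 | h1
    · exact (hinj t t' h1 ht'.1 h).elim
    · exact h1
    · exact (hinj t' t h1 ht.1 h.symm).elim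

theorem dg_on {P : Place G F b s J N} (hC : Cyc P n t0) {t : ℕ} (ht : t ≤ N) {x : Ω}
    (hx : x ∈ lev F b t) (hon : P.OnC x) : P.red x ∈ P.A ↔ P.dg n t := by
  have hn := hC.hn
  have h1 : P.FR^[n] (P.red x) = P.red x := by
    obtain ⟨k, hk⟩ := hon
    rw [hk, ← Function.iterate_add_apply, Nat.add_comm, Function.iterate_add_apply, hC.hcyc]
  have h2 : P.FR^[t] (P.red x) = P.red b := by
    have key : ∀ j ≤ t, P.FR^[j] (P.red x) = P.red (F^[j] x) := by
      intro j
      induction j with
      | zero => intro _; rfl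
      | succ j ih =>
        intro hj
        rw [Function.iterate_succ_apply', ih (by omega), Function.iterate_succ_apply']
        refine (P.hred (t - j - 1) (by omega) _ ?_).symm
        have h3 := lev_iter hx (show j ≤ t by omega)
        have e : t - j - 1 + 1 = t - j := by omega
        rw [e]
        exact h3
    rw [key t le_rfl]
    have h4 : F^[t] x = b := hx
    rw [h4]
  have h3 : P.FR^[(n - 1) * t] (P.red b) = P.red x := by
    rw [← h2, ← Function.iterate_add_apply]
    have e : (n - 1) * t + t = n * t := by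
      obtain ⟨m, rfl⟩ := Nat.exists_eq_add_of_le hn
      simp only [Nat.add_sub_cancel_left]
      ring
    rw [e, Function.iterate_mul]
    exact Function.iterate_fixed h1 t
  unfold Place.dg
  rw [h3]

end Pool.Agent.H42.PC
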