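/-
ROW GMa. Large orbits from the small place, when the level above the divergence is not critical.
PROOFS.
* sep_nd: `sep_core` (PCM/G1, section GSep) with `L = (s+1)*n'`; its hypothesis `hbad` is vacuous:
  if `a ∈ lev (m+1)` is on the cycle of `P'` then `P'.red a ∈ P'.A ↔ P'.dg n' (m+1)` (dg_on, row GLa;
  `m + 1 ≤ N`), which is false by hnd.
* big_nd: as in the proof of `hbig` in `step` (PCM/G2, section GStep): `numeric` with
  `c = k*d*s`, `L = (s+1)*n'`, `ts = t'` (`L ≥ 1` because `hC'.hn`) gives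
  `k*d*(s*2^((l-m)/(J+1))) < 2^((l - max (m+1) t')/L)`, and `orbit_big` with
  `m0 = max (m+1) t'`, `k = (l - m0)/L` gives `2^k ≤` the size of the orbit; its hypothesis is
  sep_nd (for `m1 ≥ m0`).
-/
import Pool.Agent.H42.AD.GLa

set_option autoImplicit false

namespace Pool.Agent.H42.PC

open scoped Classical

variable {G Ω : Type} [Group G] [MulAction G Ω] {F : Ω → Ω} {b : Ω}
  {d N s J J' n' t' n0 : ℕ} {O : ℕ → Set Ω}

theorem sep_nd [Finite G] (hT : Tree G F b d N) (hO : Orb G F b n0 N O)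
    {P' : Place G F b s J' N} (hC' : Cyc P' n' t') (hI' : InO P' O) {m m0 t : ℕ} (ht : t ≤ N)
    (hm : m + 1 ≤ m0) (h0 : t' ≤ m0) (hmL : m0 + (s + 1) * n' ≤ t) (hnd : ¬ P'.dg n' (m + 1))
    {u y : Ω} (hu : u ∈ O t) (hy : y ∈ O t) (hw : F^[t - m] u = F^[t - m] y)
    (hne : F^[t - m - 1] u ≠ F^[t - m - 1] y) :
    ∃ g : G, g • u = u ∧ g • F^[t - m0] y = F^[t - m0] y ∧
      g • F^[t - m0 - (s + 1) * n'] y ≠ F^[t - m0 - (s + 1) * n'] y := by
  refine sep_core hT hO hC' hI' ht hm h0 le_rfl hmL hu hy hw hne ?_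
  intro a ha hon hA
  exact absurd ((dg_on hC' (by omega) ha hon).mp hA) hnd

theorem big_nd [Finite G] (hT : Tree G F b d N) (hO : Orb G F b n0 N O)
    {P' : Place G F b s J' N} (hC' : Cyc P' n' t') (hI' : InO P' O) {k m l : ℕ} (hl : l ≤ N)
    (hm : m < l) (hnd : ¬ P'.dg n' (m + 1)) (htl : t' ≤ l)
    (hJ : 2 * ((s + 1) * n') * (k * d * s + 1) + 2 * t' + 2 * ((s + 1) * n') + 1 ≤ J)
    (hJm : J < l + 1 - m) {u y : Ω} (hu : u ∈ O l) (hy : y ∈ O l)
    (hw : F^[l - m] u = F^[l - m] y) (hne : F^[l - m - 1] u ≠ F^[l - m - 1] y) :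
    k * d * (s * 2 ^ ((l - m) / (J + 1))) <
      (MulAction.orbit (MulAction.stabilizer G u) y).ncard := by
  have hn := hC'.hn
  have hL1 : 1 ≤ (s + 1) * n' := Nat.mul_pos (by omega) (by omega)
  have h1 : k * d * s < 2 ^ (k * d * s) := Nat.lt_two_pow_self
  have h2 := numeric (L := (s + 1) * n') (ts := t') (J := J) (l := l) (m := m) h1 hL1
    (by omega) hm hJm
  refine lt_of_lt_of_le h2 ?_
  refine orbit_big hT (t := l) (m0 := max (m + 1) t') (L := (s + 1) * n') ?_ _ ?_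
  · intro m1 hm1 hm1L
    have e1 : m + 1 ≤ m1 := (le_max_left _ _).trans hm1
    have e2 : t' ≤ m1 := (le_max_right _ _).trans hm1
    exact sep_nd hT hO hC' hI' hl e1 e2 hm1L hnd hu hy hw hne
  · have e1 : max (m + 1) t' ≤ l := by
      rw [max_le_iff]
      omega
    have e2 : (l - max (m + 1) t') / ((s + 1) * n') * ((s + 1) * n') ≤ l - max (m + 1) t' :=
      Nat.div_mul_le_self _ _
    omega

end Pool.Agent.H42.PC
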