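/-
ROW GMb. One good level: the hypothesis of cluster_step.
SETTING: `T ≤ l`, the driver place `P` (Full not needed here, only `δ`), `δ ∈ P.I` acts trivially on
`O l` and moves `x1` above `O l`; `P'` the small place.
PROOF. Let `Q = P.sub (Subgroup.zpowers δ) _` (`zpowers δ ≤ P.I` since `δ ∈ P.I`); `δ ∈ Q.I`
(Subgroup.mem_zpowers), and `htriv` for `Q`: every element of `zpowers δ` fixes every `x ∈ O l`
(the stabiliser of `x` is a subgroup containing `δ`). `Q.HH l = P.HH l` by rfl. Let `g`, `z ∈ O T`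
with at most `k` fixed points of `g` in `O l`. Apply derange2 (row GDb) to `Q`, `z`; its hiso is
isolation2 (row GDa) for `Q`. In hbig of isolation2: given `u, y ∈ O l`, `m` with `T ≤ m < l` etc. and
two points of `SD F O l δ` diverging at `m`; then `l - m ∈ P.HH l` by sd_gap (row GKa) for `Q`, so
`¬ P'.dg n' (m+1)` by hgood, and big_nd (row GMa) applies. The condition `hg` of derange2:
the set is contained in the set of all fixed points (Set.ncard_le_ncard, finite since `O l` is).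
-/
import Pool.Agent.H42.AD.GMa
import Pool.Agent.H42.AD.GKa
import Pool.Agent.H42.AD.GDa
import Pool.Agent.H42.AD.GDb

set_option autoImplicit false

namespace Pool.Agent.H42.PC

open scoped Classical

variable {G Ω : Type} [Group G] [MulAction G Ω] {F : Ω → Ω} {b : Ω}
  {d N s J J' n' t' n0 : ℕ} {O : ℕ → Set Ω}

theorem good_level [Finite G] (hT : Tree G F b d N) (hO : Orb G F b n0 N O) (hd : 1 ≤ d)
    {P' : Place G F b s J' N} (hC' : Cyc P' n' t') (hI' : InO P' O) (P : Place G F b s J N)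
    {k T l : ℕ} (hn0 : n0 ≤ l) (hTl : T ≤ l) (hl : l < N) (htl : t' ≤ l)
    (hJ : 2 * ((s + 1) * n') * (k * d * s + 1) + 2 * t' + 2 * ((s + 1) * n') + 1 ≤ J)
    (hgood : ∀ m, T ≤ m → m < l → l - m ∈ P.HH l → ¬ P'.dg n' (m + 1))
    (hmv : ∃ δ ∈ P.I, (∀ x ∈ O l, δ • x = x) ∧ ∃ x, F x ∈ O l ∧ δ • x ≠ x) :
    ∀ g : G, ∀ z ∈ O T, {y | y ∈ O l ∧ g • y = y}.ncard ≤ k →
      ∃ h : G, (∀ x ∈ O l, h • x = x) ∧
        ∀ x ∈ O (l + 1), F^[l + 1 - T] x = z → (g * h) • x ≠ x := by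
  obtain ⟨δ, hδ, hδt, x1, hx1, hx1m⟩ := hmv
  have hJ1 : 1 ≤ J := le_trans (Nat.le_add_left 1 _) hJ
  have hle : Subgroup.zpowers δ ≤ P.I := by
    rw [Subgroup.zpowers_le]
    exact hδ
  have hQδ : δ ∈ (P.sub (Subgroup.zpowers δ) hle).I := Subgroup.mem_zpowers δ
  have htrivQ : ∀ g ∈ (P.sub (Subgroup.zpowers δ) hle).I, ∀ x ∈ O l, g • x = x := by
    intro g hg x hx
    have h1 : Subgroup.zpowers δ ≤ MulAction.stabilizer G x := by
      rw [Subgroup.zpowers_le]
      exact hδt x hx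
    exact h1 hg
  intro g z _ hfix
  have hOl : (O l).Finite := (lev_fin hT hl.le).subset (hO.sub l hl.le)
  refine derange2 hT hO (P.sub (Subgroup.zpowers δ) hle) hJ1 hn0 hTl hl hQδ htrivQ hx1 hx1m k z
    ?_ g ?_
  · intro U hU hUz hUk a ha
    refine isolation2 hT hO (P.sub (Subgroup.zpowers δ) hle) hJ1 hd hn0 hTl hl hQδ htrivQ hx1
      hx1m k ?_ z U hU hUz hUk ha
    rintro u hu y hy m hTm hml he hne hJm ⟨y1, h1, y2, h2, he', hne'⟩
    have hgap : l - m ∈ (P.sub (Subgroup.zpowers δ) hle).HH l :=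
      sd_gap hT hO (P.sub (Subgroup.zpowers δ) hle) hJ1 hl hQδ htrivQ hml h1 h2 he' hne'
    exact big_nd hT hO hC' hI' hl.le hml (hgood m hTm hml hgap) htl hJ hJm hu hy he hne
  · have hsub : {y | y ∈ O l ∧ g • y = y ∧ F^[l - T] y = z} ⊆ {y | y ∈ O l ∧ g • y = y} :=
      fun y hy => ⟨hy.1, hy.2.1⟩
    have hfin : {y | y ∈ O l ∧ g • y = y}.Finite := hOl.subset fun y hy => hy.1
    exact (Set.ncard_le_ncard hsub hfin).trans hfix

end Pool.Agent.H42.PC
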