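/-
ROW GMc. The main theorem of the group theoretic part.
PROOF. Put `L0 = max (max n0 (max t' (t0 + n*(t0+3*s+1)))) ((N0+1)*n)`. good_ap (row GJb) gives `l`
with `L0 ≤ l < L0 + n` such that all levels `l + j*n < N` are moved.
`X = (N0+1)*n`, `H = P.HH (l + (n'+N0)*n)`. HH_count (row GKb): `(H ∩ [1,X]).ncard ≤ s^2*(X/n+2) =
s^2*(N0+3)` (`X/n = N0+1`, `n ≥ 1`). choose_class (row GLb) with `D = P'.dg n'`
(dg_per, dg_count of row GLa for `P'`), `h0 = s^2*(N0+3)`, gives `j0 < n'` such that for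
`1 ≤ i ≤ N0`, `h ∈ H`, `1 ≤ h ≤ X`: `¬ P'.dg n' (l + (j0+i)*n + 1 - h)`.
Put `T = l + j0*n`, `l_i = T + i*n = l + (j0+i)*n` for `1 ≤ i ≤ N0`; `l_i + 1 ≤ L0 + n + (n'+N0)*n ≤ N`.
For each such `i`, good_level (row GMb) for `T` and `l_i`: `hgood`: if `T ≤ m < l_i` and
`h = l_i - m ∈ P.HH l_i` then `1 ≤ h ≤ i*n ≤ X`, `h ∈ H` by HH_mono (`l + (n'+N0)*n =
l_i + (n' + N0 - j0 - i)*n`; row GKa), and `m + 1 = l_i + 1 - h`. `hmv`: good_ap with `j = j0+i`.
cluster_step (row GFb) then gives hstep of q_final (row GFc) with `D = (k*d)^(k*d)`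
(`> 0` since `k, d ≥ 1`). Conclude with the level `T + N0*n`.
-/
import Pool.Agent.H42.AD.GMb
import Pool.Agent.H42.AD.GJb
import Pool.Agent.H42.AD.GKb
import Pool.Agent.H42.AD.GLb
import Pool.Agent.H42.AD.GFb
import Pool.Agent.H42.AD.GFc

set_option autoImplicit false

namespace Pool.Agent.H42.PC

open scoped Classical

variable {G Ω : Type} [Group G] [MulAction G Ω] {F : Ω → Ω} {b : Ω}
  {d N s J J' n t0 n' t' n0 : ℕ} {O : ℕ → Set Ω}

theorem group_main [Finite G] (hT : Tree G F b d N) (hO : Orb G F b n0 N O) (hd : 1 ≤ d)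
    {P' : Place G F b s J' N} (hP' : Full P' n' t') (hI' : InO P' O)
    {P : Place G F b s J N} (hP : Full P n t0) (hI : InO P O) (hn0 : n0 ≤ t0)
    (hco : Nat.Coprime n n') {k N0 : ℕ} (hk : 1 ≤ k) (hN0 : 1 ≤ N0)
    (hn' : N0 * (s ^ 2 * (N0 + 3)) * s < n')
    (hJ : 2 * ((s + 1) * n') * (k * d * s + 1) + 2 * t' + 2 * ((s + 1) * n') + 1 ≤ J)
    (hN : max (max n0 (max t' (t0 + n * (t0 + 3 * s + 1)))) ((N0 + 1) * n) +
      n * (n' + N0 + 2) ≤ N) :
    ∃ l, n0 ≤ l ∧ l ≤ N ∧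
      (N0 : ℝ) * (q G O l - 1 / ((k : ℝ) + 1)) ≤ (((k * d) ^ (k * d) : ℕ) : ℝ) := by
  have hn : 1 ≤ n := hP.hn
  have hn'1 : 1 ≤ n' := hP'.hn
  set L0 := max (max n0 (max t' (t0 + n * (t0 + 3 * s + 1)))) ((N0 + 1) * n) with hL0
  have a1 : n0 ≤ L0 := (le_max_left _ _).trans (le_max_left _ _)
  have a2 : t' ≤ L0 := ((le_max_left _ _).trans (le_max_right _ _)).trans (le_max_left _ _)
  have a3 : t0 + n * (t0 + 3 * s + 1) ≤ L0 :=
    ((le_max_right _ _).trans (le_max_right _ _)).trans (le_max_left _ _)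
  have a4 : (N0 + 1) * n ≤ L0 := le_max_right _ _
  have e1 : n * (n' + N0 + 2) = (n' + N0) * n + 2 * n := by ring
  rw [e1] at hN
  obtain ⟨l, hl1, hl2, hl3⟩ := good_ap hT hO hd hP hI hn0 a3 (show L0 + n ≤ N by omega)
  set X := (N0 + 1) * n with hX
  have hXn : X / n = N0 + 1 := Nat.mul_div_cancel _ (by omega)
  have hcnt := HH_count hP (l + (n' + N0) * n) X
  rw [hXn] at hcnt
  obtain ⟨j0, hj0, hj⟩ := choose_class (n := n) (n' := n') (s := s) (N0 := N0)
    (h0 := s ^ 2 * (N0 + 3)) (X := X) (l := l) hn'1 hco (P'.dg n') (dg_per hP'.toCyc)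
    (dg_count hP') (P.HH (l + (n' + N0) * n)) (by simpa [add_assoc] using hcnt) hn' (a4.trans hl1)
  have hstep : ∀ i, 1 ≤ i → i ≤ N0 →
      (q G O (l + j0 * n + i * n) - 1 / ((k : ℝ) + 1)) / (((k * d) ^ (k * d) : ℕ) : ℝ) ≤
      Zm G F O (l + j0 * n) (l + j0 * n + i * n) - Zm G F O (l + j0 * n) (l + j0 * n + i * n + 1) := by
    intro i hi1 hi2
    have f1 : j0 * n + i * n = (j0 + i) * n := by ring
    have f2 : (j0 + i) * n ≤ (n' + N0) * n := Nat.mul_le_mul_right _ (by omega)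
    have f3 : i * n ≤ (N0 + 1) * n := Nat.mul_le_mul_right _ (by omega)
    have hlN : l + j0 * n + i * n < N := by omega
    refine cluster_step hT hO hd (by omega) (by omega) hlN k hk ?_
    refine good_level hT hO hd hP'.toCyc hI' P (by omega) (by omega) hlN (by omega) hJ ?_ ?_
    · intro m hm1 hm2 hmH
      have hmem : l + j0 * n + i * n - m ∈ P.HH (l + (n' + N0) * n) := by
        have g1 := HH_mono hP.toCyc (l + j0 * n + i * n) (n' + N0 - (j0 + i)) hmH
        have g2 : l + j0 * n + i * n + (n' + N0 - (j0 + i)) * n = l + (n' + N0) * n := by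
          have g3 : (j0 + i) * n + (n' + N0 - (j0 + i)) * n = (n' + N0) * n := by
            rw [← Nat.add_mul]
            congr 1
            omega
          omega
        rwa [g2] at g1
      have := hj i hi1 hi2 _ hmem (by omega) (by omega)
      have g4 : l + (j0 + i) * n + 1 - (l + j0 * n + i * n - m) = m + 1 := by omega
      rwa [g4] at this
    · have := hl3 (j0 + i) (by omega)
      rwa [show l + (j0 + i) * n = l + j0 * n + i * n by omega] at this
  have hD : (0 : ℝ) < (((k * d) ^ (k * d) : ℕ) : ℝ) := by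
    have : 0 < k * d := Nat.mul_pos (by omega) (by omega)
    exact_mod_cast Nat.pow_pos this
  have f4 : (j0 + N0) * n ≤ (n' + N0) * n := Nat.mul_le_mul_right _ (by omega)
  have f5 : j0 * n + N0 * n = (j0 + N0) * n := by ring
  have := q_final hT hO (T := l + j0 * n) (n := n) (N0 := N0) (k := k) hD hn (by omega) hstep
  exact ⟨l + j0 * n + N0 * n, by omega, by omega, this⟩

end Pool.Agent.H42.PC
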