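/-
ROW ZAa. Elementary estimates for polynomials and an absolute value `a`.
PROOFS.
* poly_bdd / poly_lip: for example by `Polynomial.induction_on` (constants, sums, multiplication by
  `X`) proving both statements together for a fixed `R`:
  `a (p x * x - p y * y) ≤ a (p x - p y) * a x + a (p y) * a (x - y)`. Take max with 1 for `C`.
* poly_low: `D = p.natDegree`, `L = a p.leadingCoeff > 0`. `p.eval x = lc * x^D + r` with
  `r = ∑_{i<D} coeff i * x^i`, and for `a x ≥ 1`, `a r ≤ M * (a x)^(D-1)` with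
  `M = ∑_{i<D} a (coeff i)` (if `D = 0` then `r = 0`). So for `a x ≥ R := max 1 (2*M/L)`:
  `a r ≤ (L/2) * (a x)^D`, hence `a (p.eval x) ≥ L*(a x)^D - a r ≥ (L/2)*(a x)^D`.
  (AbsoluteValue.add_le / le_sub, map_mul, map_pow.)
* quad: `f'(β) = 0` implies `(X - C β)^2 ∣ f - C (f.eval β)`: so `f.eval x - f.eval β =
  (x-β)^2 * g.eval x`, and poly_bdd for `g`. (Divisibility: as in the proof of crit_form in
  PCM/D1, or `Polynomial.binomExpansion`/taylor: `f.eval (β + y) = f.eval β + f'(β) y + k y^2`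
  with `k` a polynomial in `y`.)
-/
import Pool.Agent.H42.PCM.D1

set_option autoImplicit false

namespace Pool.Agent.H42.PC

open Polynomial

variable {K : Type} [Field K]

theorem poly_bdd (a : AbsoluteValue K ℝ) (p : K[X]) (R : ℝ) :
    ∃ M : ℝ, 0 ≤ M ∧ ∀ x, a x ≤ R → a (p.eval x) ≤ M := by
  refine ⟨∑ i ∈ Finset.range (p.natDegree + 1), a (p.coeff i) * (max R 0) ^ i, ?_, ?_⟩
  · exact Finset.sum_nonneg fun i _ => mul_nonneg (a.nonneg _) (pow_nonneg (le_max_right _ _) _)
  · intro x hx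
    rw [eval_eq_sum_range]
    refine (a.sum_le _ _).trans (Finset.sum_le_sum fun i _ => ?_)
    rw [map_mul, map_pow]
    exact mul_le_mul_of_nonneg_left (pow_le_pow_left₀ (a.nonneg _) (hx.trans (le_max_left _ _)) _)
      (a.nonneg _)

theorem za_pow_lip (a : AbsoluteValue K ℝ) (R : ℝ) (n : ℕ) :
    ∃ C : ℝ, 0 ≤ C ∧ ∀ x y, a x ≤ R → a y ≤ R → a (x ^ n - y ^ n) ≤ C * a (x - y) := by
  induction n with
  | zero => exact ⟨0, le_rfl, fun x y _ _ => by simp⟩
  | succ n ih =>
    obtain ⟨C, hC, h⟩ := ih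
    refine ⟨C * max R 0 + (max R 0) ^ n, by positivity, fun x y hx hy => ?_⟩
    have e : x ^ (n + 1) - y ^ (n + 1) = (x ^ n - y ^ n) * x + y ^ n * (x - y) := by ring
    rw [e]
    refine (a.add_le _ _).trans ?_
    rw [map_mul, map_mul, map_pow, add_mul]
    have h1 : a (x ^ n - y ^ n) * a x ≤ C * a (x - y) * max R 0 :=
      mul_le_mul (h x y hx hy) (hx.trans (le_max_left _ _)) (a.nonneg _)
        (mul_nonneg hC (a.nonneg _))
    have h2 : a y ^ n * a (x - y) ≤ (max R 0) ^ n * a (x - y) :=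
      mul_le_mul_of_nonneg_right (pow_le_pow_left₀ (a.nonneg _) (hy.trans (le_max_left _ _)) _)
        (a.nonneg _)
    nlinarith [h1, h2]

theorem poly_lip (a : AbsoluteValue K ℝ) (p : K[X]) (R : ℝ) :
    ∃ C : ℝ, 1 ≤ C ∧ ∀ x y, a x ≤ R → a y ≤ R → a (p.eval x - p.eval y) ≤ C * a (x - y) := by
  choose C hC0 hC using za_pow_lip a R
  refine ⟨1 + ∑ i ∈ Finset.range (p.natDegree + 1), a (p.coeff i) * C i, ?_, ?_⟩
  · have : 0 ≤ ∑ i ∈ Finset.range (p.natDegree + 1), a (p.coeff i) * C i :=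
      Finset.sum_nonneg fun i _ => mul_nonneg (a.nonneg _) (hC0 i)
    linarith
  · intro x y hx hy
    rw [eval_eq_sum_range, eval_eq_sum_range, ← Finset.sum_sub_distrib]
    have h1 : a (∑ i ∈ Finset.range (p.natDegree + 1), (p.coeff i * x ^ i - p.coeff i * y ^ i)) ≤
        (∑ i ∈ Finset.range (p.natDegree + 1), a (p.coeff i) * C i) * a (x - y) := by
      rw [Finset.sum_mul]
      refine (a.sum_le _ _).trans (Finset.sum_le_sum fun i _ => ?_)
      rw [← mul_sub, map_mul, mul_assoc]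
      exact mul_le_mul_of_nonneg_left (hC i x y hx hy) (a.nonneg _)
    have h2 := a.nonneg (x - y)
    nlinarith [h1, h2]

theorem poly_low (a : AbsoluteValue K ℝ) {p : K[X]} (hp : p ≠ 0) :
    ∃ R : ℝ, 1 ≤ R ∧ ∀ x, R ≤ a x →
      a p.leadingCoeff / 2 * a x ^ p.natDegree ≤ a (p.eval x) := by
  have hL : 0 < a p.leadingCoeff := a.pos (leadingCoeff_ne_zero.2 hp)
  obtain ⟨M, hM⟩ : ∃ M, M = ∑ i ∈ Finset.range p.natDegree, a (p.coeff i) := ⟨_, rfl⟩
  have hM0 : 0 ≤ M := by rw [hM]; exact Finset.sum_nonneg fun i _ => a.nonneg _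
  refine ⟨max 1 (2 * M / a p.leadingCoeff), le_max_left _ _, fun x hx => ?_⟩
  have hx1 : 1 ≤ a x := (le_max_left _ _).trans hx
  have hx2 : 2 * M / a p.leadingCoeff ≤ a x := (le_max_right _ _).trans hx
  have e : p.eval x = (∑ i ∈ Finset.range p.natDegree, p.coeff i * x ^ i) +
      p.leadingCoeff * x ^ p.natDegree := by
    rw [eval_eq_sum_range, Finset.sum_range_succ]; rfl
  have hr : a (∑ i ∈ Finset.range p.natDegree, p.coeff i * x ^ i) ≤
      a p.leadingCoeff / 2 * a x ^ p.natDegree := by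
    rcases Nat.eq_zero_or_pos p.natDegree with h0 | h0
    · rw [h0]
      simp only [Finset.range_zero, Finset.sum_empty, map_zero, pow_zero, mul_one]
      positivity
    · obtain ⟨k, hk⟩ : ∃ k, p.natDegree = k + 1 := ⟨p.natDegree - 1, by omega⟩
      have h1 : a (∑ i ∈ Finset.range p.natDegree, p.coeff i * x ^ i) ≤ M * a x ^ k := by
        rw [hM, Finset.sum_mul]
        refine (a.sum_le _ _).trans (Finset.sum_le_sum fun i hi => ?_)
        rw [map_mul, map_pow]
        have hik : i ≤ k := by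
          have := Finset.mem_range.1 hi
          omega
        exact mul_le_mul_of_nonneg_left (pow_le_pow_right₀ hx1 hik) (a.nonneg _)
      refine h1.trans ?_
      rw [hk, pow_succ]
      have h3 : M ≤ a p.leadingCoeff / 2 * a x := by
        rw [div_le_iff₀ hL] at hx2
        nlinarith
      have h4 : 0 ≤ a x ^ k := pow_nonneg (a.nonneg _) _
      nlinarith [mul_le_mul_of_nonneg_right h3 h4]
  have h5 : a (p.leadingCoeff * x ^ p.natDegree) ≤ a (p.eval x) +
      a (∑ i ∈ Finset.range p.natDegree, p.coeff i * x ^ i) := by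
    have h6 : p.leadingCoeff * x ^ p.natDegree = p.eval x +
        -(∑ i ∈ Finset.range p.natDegree, p.coeff i * x ^ i) := by
      rw [e]; ring
    rw [h6]
    refine (a.add_le _ _).trans ?_
    rw [a.map_neg]
  rw [map_mul, map_pow] at h5
  linarith

theorem quad (a : AbsoluteValue K ℝ) {f : K[X]} {β : K} (hc : (derivative f).eval β = 0) (R : ℝ) :
    ∃ C : ℝ, 1 ≤ C ∧ ∀ x, a x ≤ R → a (f.eval x - f.eval β) ≤ C * a (x - β) ^ 2 := by
  obtain ⟨g, hg⟩ : (X - C β) ∣ f - C (f.eval β) := by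
    rw [dvd_iff_isRoot, IsRoot.def]; simp
  have hg0 : g.eval β = 0 := by
    have h1 := congrArg (fun q => (derivative q).eval β) hg
    simp only [derivative_sub, derivative_C, sub_zero, derivative_mul, derivative_X, one_mul,
      eval_add, eval_mul, Polynomial.eval_sub, eval_X, eval_C, sub_self, zero_mul, add_zero] at h1
    rw [← h1, hc]
  obtain ⟨k, hk⟩ : (X - C β) ∣ g := by
    rw [dvd_iff_isRoot, IsRoot.def]; exact hg0
  obtain ⟨M, hM0, hM⟩ := poly_bdd a k R
  refine ⟨max 1 M, le_max_left _ _, fun x hx => ?_⟩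
  have e : f.eval x - f.eval β = (x - β) ^ 2 * k.eval x := by
    have h2 := congrArg (eval x) hg
    rw [hk] at h2
    simp only [Polynomial.eval_sub, eval_C, eval_mul, eval_X] at h2
    rw [h2]; ring
  rw [e, map_mul, map_pow, mul_comm]
  exact mul_le_mul_of_nonneg_right ((hM x hx).trans (le_max_right _ _)) (pow_nonneg (a.nonneg _) _)

end Pool.Agent.H42.PC
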