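/-
ROW ZAb. A bounded critical orbit returns to the critical point at most exponentially closely.
PROOF. Let `δ n = a ((ev f)^[n] β - β) > 0` for `n ≥ 1` (hper). Let `C ≥ 1` be such that
`a (f x - f y) ≤ C a (x-y)` and `a (f x - f β) ≤ C a (x-β)^2` for all `x, y` with `a x, a y ≤ R`
(poly_lip, quad of row ZAa; max of the two constants). For `x` in the orbit (`x = (ev f)^[i] β`) and
`m ≥ 1`: (1) `a ((ev f)^[m] x - (ev f)^[m] β) ≤ C^m * a (x-β)^2` (induction on m).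
Case A: there is `n1 ≥ 1` with `8 * C^n1 * δ n1 ≤ 1` and `δ n1 ≤ δ j` for all `1 ≤ j ≤ n1`.
 Put `δ = δ n1`. (2) for all `q`, `a ((ev f)^[q*n1] β - β) ≤ 2δ`: by (1) with `m = n1`,
 `x = (ev f)^[q*n1] β`: `a ((ev f)^[(q+1)*n1] β - (ev f)^[n1] β) ≤ C^n1 * 4δ^2 ≤ δ/2`.
 For `n ≥ 1` write `n = q*n1 + r`, `r < n1`. If `r = 0` then `q ≥ 1` and by the previous line
 `δ n ≥ δ - δ/2 = δ/2`. If `1 ≤ r < n1`: by (1) with `m = r` and (2),
 `a ((ev f)^[n] β - (ev f)^[r] β) ≤ C^r * 4δ^2 ≤ δ/2`, so `δ n ≥ δ r - δ/2 ≥ δ/2`. So `c = δ/2`,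
 constant `1`.
Case B: no such `n1`. For `n ≥ 1` let `n1 ∈ [1,n]` minimise `δ` on `[1,n]`
 (Finset.exists_min_image). Then `8 C^n1 δ n1 > 1`, so `δ n ≥ δ n1 > 1/(8 C^n1) ≥ (1/8)/C^n`.
-/
import Pool.Agent.H42.AD.ZAa

set_option autoImplicit false

namespace Pool.Agent.H42.PC

open Polynomial

variable {K : Type} [Field K]

theorem orbit_lb (a : AbsoluteValue K ℝ) {f : K[X]} {β : K} (hcrit : (derivative f).eval β = 0)
    (hper : ∀ n, 1 ≤ n → (ev f)^[n] β ≠ β) {R : ℝ} (hR : ∀ n, a ((ev f)^[n] β) ≤ R) :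
    ∃ c C : ℝ, 0 < c ∧ 1 ≤ C ∧ ∀ n, 1 ≤ n → c / C ^ n ≤ a ((ev f)^[n] β - β) := by
  obtain ⟨C1, hC1, hlip⟩ := poly_lip a f R
  obtain ⟨C2, hC2, hquad⟩ := quad a hcrit R
  obtain ⟨D, hD1, hlip', hquad'⟩ : ∃ D : ℝ, 1 ≤ D ∧
      (∀ x y, a x ≤ R → a y ≤ R → a (ev f x - ev f y) ≤ D * a (x - y)) ∧
      (∀ x, a x ≤ R → a (ev f x - ev f β) ≤ D * a (x - β) ^ 2) := by
    refine ⟨max C1 C2, le_max_of_le_left hC1, fun x y hx hy => ?_, fun x hx => ?_⟩
    · exact (hlip x y hx hy).trans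
        (mul_le_mul_of_nonneg_right (le_max_left _ _) (a.nonneg _))
    · exact (hquad x hx).trans
        (mul_le_mul_of_nonneg_right (le_max_right _ _) (by positivity))
  set δ : ℕ → ℝ := fun n => a ((ev f)^[n] β - β) with hδ
  have hδ0 : ∀ n, 0 ≤ δ n := fun n => a.nonneg _
  have hδpos : ∀ n, 1 ≤ n → 0 < δ n := fun n hn => a.pos (sub_ne_zero.mpr (hper n hn))
  have hD0 : 0 < D := lt_of_lt_of_le one_pos hD1
  have h1 : ∀ i m, 1 ≤ m → a ((ev f)^[m + i] β - (ev f)^[m] β) ≤ D ^ m * δ i ^ 2 := by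
    intro i m hm
    induction m, hm using Nat.le_induction with
    | base =>
      have e1 : (ev f)^[1 + i] β = ev f ((ev f)^[i] β) := by
        rw [add_comm, Function.iterate_succ_apply']
      rw [e1, Function.iterate_one, pow_one]
      exact hquad' _ (hR i)
    | succ m hm ih =>
      have e1 : (ev f)^[m + 1 + i] β = ev f ((ev f)^[m + i] β) := by
        rw [show m + 1 + i = (m + i) + 1 by ring, Function.iterate_succ_apply']
      rw [e1, Function.iterate_succ_apply']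
      refine (hlip' _ _ (hR _) (hR _)).trans ?_
      rw [pow_succ', mul_assoc]
      exact mul_le_mul_of_nonneg_left ih hD0.le
  have hlow : ∀ x y : K, a (y - β) - a (x - y) ≤ a (x - β) := by
    intro x y
    have h := a.add_le (y - x) (x - β)
    rw [show y - x + (x - β) = y - β by ring, a.map_sub y x] at h
    linarith
  have hupp : ∀ x y : K, a (x - β) ≤ a (y - β) + a (x - y) := by
    intro x y
    have h := a.add_le (y - β) (x - y)
    rw [show y - β + (x - y) = x - β by ring] at h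
    exact h
  by_cases hA : ∃ n1, 1 ≤ n1 ∧ 8 * D ^ n1 * δ n1 ≤ 1 ∧ ∀ j, 1 ≤ j → j ≤ n1 → δ n1 ≤ δ j
  · obtain ⟨n1, hn1, h8, hmin⟩ := hA
    have hd := hδpos n1 hn1
    have hkey : ∀ t, 0 ≤ t → t ≤ 2 * δ n1 → D ^ n1 * t ^ 2 ≤ δ n1 / 2 := by
      intro t ht0 ht
      have h2 : t ^ 2 ≤ (2 * δ n1) ^ 2 := pow_le_pow_left₀ ht0 ht 2
      have h3 : D ^ n1 * t ^ 2 ≤ D ^ n1 * (2 * δ n1) ^ 2 :=
        mul_le_mul_of_nonneg_left h2 (by positivity)
      have h4 : D ^ n1 * (2 * δ n1) ^ 2 = (8 * D ^ n1 * δ n1) * (δ n1 / 2) := by ring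
      have h5 : (8 * D ^ n1 * δ n1) * (δ n1 / 2) ≤ 1 * (δ n1 / 2) :=
        mul_le_mul_of_nonneg_right h8 (by positivity)
      linarith
    have h2 : ∀ q, δ (q * n1) ≤ 2 * δ n1 := by
      intro q
      induction q with
      | zero =>
        have : δ (0 * n1) = 0 := by simp [hδ]
        rw [this]; positivity
      | succ q ih =>
        have e := h1 (q * n1) n1 hn1
        have e2 := hkey _ (hδ0 _) ih
        have e3 := hupp ((ev f)^[n1 + q * n1] β) ((ev f)^[n1] β)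
        have e4 : δ ((q + 1) * n1) = a ((ev f)^[n1 + q * n1] β - β) := by
          simp only [hδ]
          rw [show (q + 1) * n1 = n1 + q * n1 by ring]
        have e5 : δ n1 = a ((ev f)^[n1] β - β) := rfl
        rw [e4]
        linarith
    refine ⟨δ n1 / 2, 1, by positivity, le_refl _, fun n hn => ?_⟩
    rw [one_pow, div_one]
    rcases Nat.eq_zero_or_pos (n % n1) with hr | hr
    · obtain ⟨q, hq⟩ : n1 ∣ n := Nat.dvd_of_mod_eq_zero hr
      obtain ⟨q', rfl⟩ : ∃ q', q = q' + 1 := by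
        rcases q with _ | q'
        · simp at hq; omega
        · exact ⟨q', rfl⟩
      have hn' : n = n1 + q' * n1 := by rw [hq]; ring
      have e := h1 (q' * n1) n1 hn1
      have e2 := hkey _ (hδ0 _) (h2 q')
      have e3 := hlow ((ev f)^[n1 + q' * n1] β) ((ev f)^[n1] β)
      have e5 : δ n1 = a ((ev f)^[n1] β - β) := rfl
      rw [hn']
      linarith
    · have hrlt : n % n1 < n1 := Nat.mod_lt _ (by omega)
      have hn' : n = n % n1 + (n / n1) * n1 := by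
        have := Nat.mod_add_div n n1
        rw [mul_comm n1] at this
        exact this.symm
      have e := h1 ((n / n1) * n1) (n % n1) hr
      have e2 := hkey _ (hδ0 _) (h2 (n / n1))
      have e6 : D ^ (n % n1) * δ (n / n1 * n1) ^ 2 ≤ D ^ n1 * δ (n / n1 * n1) ^ 2 :=
        mul_le_mul_of_nonneg_right (pow_le_pow_right₀ hD1 hrlt.le) (by positivity)
      have e3 := hlow ((ev f)^[n % n1 + (n / n1) * n1] β) ((ev f)^[n % n1] β)
      have e5 : δ (n % n1) = a ((ev f)^[n % n1] β - β) := rfl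
      have e7 := hmin (n % n1) hr hrlt.le
      rw [← hn'] at e3 e
      linarith
  · push Not at hA
    refine ⟨1 / 8, D, by norm_num, hD1, fun n hn => ?_⟩
    obtain ⟨n1, hn1, hmin⟩ := Finset.exists_min_image (Finset.Icc 1 n) δ
      ⟨1, Finset.mem_Icc.mpr ⟨le_refl _, hn⟩⟩
    rw [Finset.mem_Icc] at hn1
    have hmin' : ∀ j, 1 ≤ j → j ≤ n → δ n1 ≤ δ j := fun j h h' =>
      hmin j (Finset.mem_Icc.mpr ⟨h, h'⟩)
    have h8 : 1 < 8 * D ^ n1 * δ n1 := by
      by_contra hcon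
      obtain ⟨j, hj1, hj2, hj3⟩ := hA n1 hn1.1 (not_lt.mp hcon)
      exact absurd (hmin' j hj1 (hj2.trans hn1.2)) (not_le.mpr hj3)
    have e1 : δ n1 ≤ δ n := hmin' n hn le_rfl
    have e2 : D ^ n1 ≤ D ^ n := pow_le_pow_right₀ hD1 hn1.2
    have e3 : 8 * D ^ n1 * δ n1 ≤ 8 * D ^ n * δ n := by
      have := hδ0 n1
      have h9 : D ^ n1 * δ n1 ≤ D ^ n * δ n := mul_le_mul e2 e1 this (by positivity)
      linarith
    rw [div_le_iff₀ (by positivity)]
    have e5 : δ n = a ((ev f)^[n] β - β) := rfl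
    rw [← e5]
    linarith

end Pool.Agent.H42.PC
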