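/-
ROW ZAc. Escaping orbits; the values of a factor `h` of `f^n0 - β` along the orbit.
PROOFS.
* escape: `D = f.natDegree ≥ 2`, `L = a f.leadingCoeff > 0`, `κ = min 1 (L/2) > 0`; `R0 ≥ 1` from
  poly_low: `a x ≥ R0` implies `a (f x) ≥ (L/2) (a x)^D`, hence
  `κ a (f x) ≥ κ^2 (a x)^D ≥ (κ a x)^D` (κ ≤ 1, D ≥ 2). Choose `n1` with
  `a (x_{n1}) > max R0 (e/κ)` (`x_n = (ev f)^[n] β`, `e = Real.exp 1`). By induction for `n ≥ n1`:
  `κ a x_n ≥ exp (D^(n-n1))` and `a x_n ≥ a x_{n1} ≥ R0` (since `κ a x_{n+1} ≥ (κ a x_n)^D ≥ κ a x_n`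
  as `κ a x_n ≥ 1`). So `a x_n ≥ κ a x_n ≥ exp (D^(n-n1)) = exp (c D^n)` with `c = 1/D^n1`.
* factor_big: escape gives `c0, n1`; poly_low for `h` (monic): `a (h.eval x) ≥ (1/2)(a x)^(deg h)
  ≥ (1/2) a x` for `a x ≥ R` (`R ≥ 1`). For `n` large, `m = n - n0 ≥ n1`, `a x_m ≥ exp (c0 D^m) ≥ R`
  and `a (h.eval x_m) ≥ exp (c0 D^m)/2 ≥ exp (c0 D^m / 2)` once `exp (c0 D^m/2) ≥ 2`; and
  `c0 D^m / 2 = (c0/(2 D^n0)) * D^n`. (`D^m → ∞`: tendsto_pow_atTop_atTop_of_one_lt.)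
* factor_lb: `f.comp^[n0] X - C β = h * r`. For `y = x_{n-n0}`, `n ≥ n0`:
  `x_n - β = (h.eval y) * (r.eval y)` (Polynomial.iterate_comp_eval, Function.iterate_add_apply).
  `a (r.eval y) ≤ M` (poly_bdd, `M ≥ 1` without loss), so `a (h.eval y) ≥ (c/M) / C^n`.
-/
import Pool.Agent.H42.AD.ZAa

set_option autoImplicit false

namespace Pool.Agent.H42.PC

open Polynomial

variable {K : Type} [Field K]

theorem zac_step {κ L t v : ℝ} {D : ℕ} (hD : 2 ≤ D) (hκ0 : 0 < κ) (hκ1 : κ ≤ 1) (hκL : κ ≤ L / 2)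
    (ht : 0 ≤ t) (hv : L / 2 * t ^ D ≤ v) : (κ * t) ^ D ≤ κ * v := by
  have h1 : κ ^ D ≤ κ ^ 2 := pow_le_pow_of_le_one hκ0.le hκ1 hD
  have h2 : 0 ≤ t ^ D := pow_nonneg ht D
  calc (κ * t) ^ D = κ ^ D * t ^ D := mul_pow _ _ _
    _ ≤ κ ^ 2 * t ^ D := mul_le_mul_of_nonneg_right h1 h2
    _ = κ * (κ * t ^ D) := by ring
    _ ≤ κ * (L / 2 * t ^ D) :=
        mul_le_mul_of_nonneg_left (mul_le_mul_of_nonneg_right hκL h2) hκ0.le
    _ ≤ κ * v := mul_le_mul_of_nonneg_left hv hκ0.le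

theorem escape (a : AbsoluteValue K ℝ) {f : K[X]} (hd : 2 ≤ f.natDegree) {β : K}
    (hub : ∀ R : ℝ, ∃ n, R < a ((ev f)^[n] β)) :
    ∃ c : ℝ, 0 < c ∧ ∃ n1, ∀ n, n1 ≤ n →
      Real.exp (c * (f.natDegree : ℝ) ^ n) ≤ a ((ev f)^[n] β) := by
  have hf : f ≠ 0 := by
    intro h; rw [h, natDegree_zero] at hd; omega
  have hL : 0 < a f.leadingCoeff := a.pos (leadingCoeff_ne_zero.2 hf)
  obtain ⟨R0, hR0, hlow⟩ := poly_low a hf
  set D := f.natDegree with hD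
  set κ := min 1 (a f.leadingCoeff / 2) with hκ
  have hκ0 : 0 < κ := lt_min one_pos (by linarith)
  have hκ1 : κ ≤ 1 := min_le_left _ _
  have hκL : κ ≤ a f.leadingCoeff / 2 := min_le_right _ _
  obtain ⟨n1, hn1⟩ := hub (max R0 (Real.exp 1 / κ))
  have hn1a : R0 ≤ a ((ev f)^[n1] β) := (le_max_left _ _).trans hn1.le
  have hn1b : Real.exp 1 ≤ κ * a ((ev f)^[n1] β) := by
    have := (le_max_right R0 (Real.exp 1 / κ)).trans hn1.le
    rw [div_le_iff₀ hκ0] at this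
    linarith
  have key : ∀ k, Real.exp ((D : ℝ) ^ k) ≤ κ * a ((ev f)^[n1 + k] β) ∧
      R0 ≤ a ((ev f)^[n1 + k] β) := by
    intro k
    induction k with
    | zero => exact ⟨by simpa using hn1b, hn1a⟩
    | succ k ih =>
      obtain ⟨ih1, ih2⟩ := ih
      have hx : (ev f)^[n1 + (k + 1)] β = f.eval ((ev f)^[n1 + k] β) := by
        rw [← Nat.add_assoc, Function.iterate_succ_apply']; rfl
      have h1 := zac_step hd hκ0 hκ1 hκL (a.nonneg _) (hlow _ ih2)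
      rw [← hx] at h1
      have h2 : 1 ≤ κ * a ((ev f)^[n1 + k] β) :=
        le_trans (Real.one_le_exp (by positivity)) ih1
      have h3 : κ * a ((ev f)^[n1 + k] β) ≤ (κ * a ((ev f)^[n1 + k] β)) ^ D :=
        le_self_pow₀ h2 (by omega)
      constructor
      · calc Real.exp ((D : ℝ) ^ (k + 1)) = Real.exp ((D : ℝ) ^ k) ^ D := by
              rw [← Real.exp_nat_mul, pow_succ, mul_comm]
          _ ≤ (κ * a ((ev f)^[n1 + k] β)) ^ D :=
              pow_le_pow_left₀ (Real.exp_pos _).le ih1 D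
          _ ≤ _ := h1
      · have h4 : κ * a ((ev f)^[n1 + k] β) ≤ κ * a ((ev f)^[n1 + (k + 1)] β) := h3.trans h1
        exact ih2.trans (le_of_mul_le_mul_left h4 hκ0)
  have hD0 : (0 : ℝ) < (D : ℝ) := by
    have : 0 < D := by omega
    exact_mod_cast this
  refine ⟨1 / (D : ℝ) ^ n1, by positivity, n1, fun n hn => ?_⟩
  obtain ⟨k, rfl⟩ := Nat.exists_eq_add_of_le hn
  have e : 1 / (D : ℝ) ^ n1 * (D : ℝ) ^ (n1 + k) = (D : ℝ) ^ k := by
    rw [pow_add]; field_simp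
  rw [e]
  refine (key k).1.trans ?_
  exact mul_le_of_le_one_left (a.nonneg _) hκ1

theorem factor_big (a : AbsoluteValue K ℝ) {f h : K[X]} (hd : 2 ≤ f.natDegree) {β : K}
    (hm : h.Monic) (hh : 1 ≤ h.natDegree) (n0 : ℕ) (hub : ∀ R : ℝ, ∃ n, R < a ((ev f)^[n] β)) :
    ∃ c : ℝ, 0 < c ∧ ∃ n1, ∀ n, n1 ≤ n →
      Real.exp (c * (f.natDegree : ℝ) ^ n) ≤ a (h.eval ((ev f)^[n - n0] β)) := by
  obtain ⟨c0, hc0, n1, hesc⟩ := escape a hd hub
  obtain ⟨R, hR, hlow⟩ := poly_low a hm.ne_zero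
  set D := f.natDegree with hD
  have hD0 : (0 : ℝ) < (D : ℝ) := by
    have : 0 < D := by omega
    exact_mod_cast this
  have hD1 : (1 : ℝ) < (D : ℝ) := by
    have : 1 < D := by omega
    exact_mod_cast this
  have ht : Filter.Tendsto (fun m : ℕ => c0 * (D : ℝ) ^ m) Filter.atTop Filter.atTop :=
    (tendsto_pow_atTop_atTop_of_one_lt hD1).const_mul_atTop hc0
  obtain ⟨n2, hn2⟩ := Filter.eventually_atTop.1
    (ht.eventually_ge_atTop (max (Real.log R) (2 * Real.log 2)))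
  refine ⟨c0 / (2 * (D : ℝ) ^ n0), by positivity, n0 + max n1 n2, fun n hn => ?_⟩
  obtain ⟨m, rfl⟩ := Nat.exists_eq_add_of_le ((Nat.le_add_right _ _).trans hn)
  have hmm : max n1 n2 ≤ m := by omega
  have hm1 : n1 ≤ m := (le_max_left _ _).trans hmm
  have hm2 := hn2 m ((le_max_right _ _).trans hmm)
  rw [Nat.add_sub_cancel_left]
  have e : c0 / (2 * (D : ℝ) ^ n0) * (D : ℝ) ^ (n0 + m) = c0 * (D : ℝ) ^ m / 2 := by
    rw [pow_add]; field_simp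
  rw [e]
  have h1 := hesc m hm1
  have h2 : R ≤ Real.exp (c0 * (D : ℝ) ^ m) := by
    rw [← Real.log_le_iff_le_exp (by linarith)]
    exact (le_max_left _ _).trans hm2
  have h3 : 2 ≤ Real.exp (c0 * (D : ℝ) ^ m / 2) := by
    rw [← Real.log_le_iff_le_exp (by norm_num)]
    have := (le_max_right (Real.log R) (2 * Real.log 2)).trans hm2
    linarith
  have h4 := hlow _ (h2.trans h1)
  rw [hm.leadingCoeff, map_one] at h4
  have h5 : (1 : ℝ) ≤ a ((ev f)^[m] β) := hR.trans (h2.trans h1)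
  have h6 : a ((ev f)^[m] β) ≤ a ((ev f)^[m] β) ^ h.natDegree :=
    le_self_pow₀ h5 (by omega)
  have h7 : Real.exp (c0 * (D : ℝ) ^ m) =
      Real.exp (c0 * (D : ℝ) ^ m / 2) * Real.exp (c0 * (D : ℝ) ^ m / 2) := by
    rw [← Real.exp_add]; congr 1; ring
  have h8 := Real.exp_pos (c0 * (D : ℝ) ^ m / 2)
  nlinarith

theorem factor_lb (a : AbsoluteValue K ℝ) {f h : K[X]} {β : K} {n0 : ℕ}
    (hdvd : h ∣ f.comp^[n0] X - C β) {R : ℝ} (hR : ∀ n, a ((ev f)^[n] β) ≤ R) {c C' : ℝ}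
    (hc : 0 < c) (hC : 1 ≤ C') (hlb : ∀ n, 1 ≤ n → c / C' ^ n ≤ a ((ev f)^[n] β - β)) :
    ∃ c' : ℝ, 0 < c' ∧ ∀ n, 1 ≤ n → n0 ≤ n → c' / C' ^ n ≤ a (h.eval ((ev f)^[n - n0] β)) := by
  obtain ⟨r, hr⟩ := hdvd
  obtain ⟨M, hM0, hM⟩ := poly_bdd a r R
  refine ⟨c / (M + 1), by positivity, fun n hn1 hn0 => ?_⟩
  set y := (ev f)^[n - n0] β with hy
  have e1 : (ev f)^[n] β - β = h.eval y * r.eval y := by
    rw [← eval_mul, ← hr, Polynomial.eval_sub, eval_C, Polynomial.iterate_comp_eval, eval_X]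
    have e2 : (fun x => f.eval x)^[n0] y = (ev f)^[n] β := by
      have e3 : (fun x => f.eval x)^[n0] y = (ev f)^[n0] y := rfl
      rw [e3, hy, ← Function.iterate_add_apply]
      congr 1
      congr 1
      omega
    rw [e2]
  have h1 := hlb n hn1
  rw [e1, map_mul] at h1
  have h2 : a (h.eval y) * a (r.eval y) ≤ a (h.eval y) * (M + 1) :=
    mul_le_mul_of_nonneg_left ((hM y (hR _)).trans (by linarith)) (a.nonneg _)
  have h3 : c / C' ^ n ≤ a (h.eval y) * (M + 1) := h1.trans h2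
  rw [div_right_comm, div_le_iff₀ (by positivity)]
  exact h3

end Pool.Agent.H42.PC
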