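/-
ROW ZBa. A doubly exponential factor beats exponentially small ones (real analysis).
PROOF. By Finset induction, for every finite `T` of indices as in `hu` there are `c > 0`, `C ≥ 1`,
`n1` with `c / C^n ≤ ∏ i ∈ T, u i n ^ m i` for `n ≥ n1`: (powers:
`(c/C^n)^m = c^m / (C^m)^n`; products of such bounds are such bounds; all are positive). Apply this to
`T = S.erase i0`. Then for large `n`
`∏ i ∈ S, u i n ^ m i = u i0 n ^ m i0 * ∏ i ∈ S.erase i0, ... ≥ exp (c0 d^n) * c / C^n`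
(`u i0 n ≥ exp (c0 d^n) ≥ 1` and `m i0 ≥ 1`), which tends to infinity:
`c0 d^n + log c - n log C → ∞` since `d^n ≥ 2^n`, e.g. `n / 2^n → 0`.
(Other way: `exp (c0 d^n) ≥ (c0 2^n)^2 / 2`... any proof that `C^n / c < exp (c0 2^n)` eventually.)
-/
import Mathlib

set_option autoImplicit false

namespace Pool.Agent.H42.PC

theorem zba_low {ι : Type} (T : Finset ι) (m : ι → ℕ) (u : ι → ℕ → ℝ)
    (hu : ∀ i ∈ T, ∃ c C : ℝ, 0 < c ∧ 1 ≤ C ∧ ∃ n1, ∀ n, n1 ≤ n → c / C ^ n ≤ u i n) :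
    ∃ c C : ℝ, 0 < c ∧ 1 ≤ C ∧ ∃ n1 : ℕ, ∀ n : ℕ, n1 ≤ n → c / C ^ n ≤ ∏ i ∈ T, u i n ^ m i := by
  classical
  induction T using Finset.induction_on with
  | empty => exact ⟨1, 1, one_pos, le_rfl, 0, fun n _ => by simp⟩
  | insert a T ha ih =>
    obtain ⟨c, C, hc, hC, n1, h1⟩ := ih (fun i hi => hu i (Finset.mem_insert_of_mem hi))
    obtain ⟨c', C', hc', hC', n1', h1'⟩ := hu a (Finset.mem_insert_self a T)
    refine ⟨c' ^ m a * c, C' ^ m a * C, by positivity, ?_, max n1 n1', fun n hn => ?_⟩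
    · have := one_le_pow₀ hC' (n := m a)
      nlinarith
    · rw [Finset.prod_insert ha]
      have h2 := h1 n ((le_max_left _ _).trans hn)
      have h3 := h1' n ((le_max_right _ _).trans hn)
      have hC0 : 0 < C := by linarith
      have hC0' : 0 < C' := by linarith
      have e : c' ^ m a * c / (C' ^ m a * C) ^ n = (c' / C' ^ n) ^ m a * (c / C ^ n) := by
        rw [div_pow, mul_pow, ← pow_mul, ← pow_mul, mul_comm (m a) n]
        field_simp
      rw [e]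
      have h4 : (c' / C' ^ n) ^ m a ≤ u a n ^ m a := pow_le_pow_left₀ (by positivity) h3 _
      exact mul_le_mul h4 h2 (by positivity) (le_trans (by positivity) h4)

theorem zba_exp {c C c0 : ℝ} (hc : 0 < c) (hC : 1 ≤ C) (hc0 : 0 < c0) {d : ℕ} (hd : 2 ≤ d) :
    ∀ᶠ n : ℕ in Filter.atTop, 1 < Real.exp (c0 * (d : ℝ) ^ n) * (c / C ^ n) := by
  have h1 : Filter.Tendsto (fun n : ℕ => (n : ℝ) ^ 1 / (2 : ℝ) ^ n) Filter.atTop (nhds 0) :=
    tendsto_pow_const_div_const_pow_of_one_lt 1 (by norm_num)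
  have h2 : Filter.Tendsto (fun n : ℕ => (n : ℝ) ^ 0 / (2 : ℝ) ^ n) Filter.atTop (nhds 0) :=
    tendsto_pow_const_div_const_pow_of_one_lt 0 (by norm_num)
  have h3 : Filter.Tendsto (fun n : ℕ => Real.log C * ((n : ℝ) ^ 1 / (2 : ℝ) ^ n) +
      (-Real.log c) * ((n : ℝ) ^ 0 / (2 : ℝ) ^ n)) Filter.atTop (nhds 0) := by
    have h4 := (h1.const_mul (Real.log C)).add (h2.const_mul (-Real.log c))
    simpa using h4
  have h5 := h3.eventually (gt_mem_nhds hc0)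
  filter_upwards [h5] with n hn
  have hC0 : 0 < C := by linarith
  have h2n : (0 : ℝ) < 2 ^ n := by positivity
  have h6 : (n : ℝ) * Real.log C - Real.log c < c0 * 2 ^ n := by
    have e : Real.log C * ((n : ℝ) ^ 1 / (2 : ℝ) ^ n) + (-Real.log c) * ((n : ℝ) ^ 0 / (2 : ℝ) ^ n) =
        ((n : ℝ) * Real.log C - Real.log c) / 2 ^ n := by
      field_simp
      ring
    rw [e, div_lt_iff₀ h2n] at hn
    exact hn
  have h7 : c0 * (2 : ℝ) ^ n ≤ c0 * (d : ℝ) ^ n := by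
    have : (2 : ℝ) ≤ d := by exact_mod_cast hd
    gcongr
  have h8 : Real.exp ((n : ℝ) * Real.log C - Real.log c) = C ^ n / c := by
    rw [Real.exp_sub, Real.exp_log hc, ← Real.log_rpow hC0, Real.rpow_natCast,
      Real.exp_log (by positivity)]
  have h9 : C ^ n / c < Real.exp (c0 * (d : ℝ) ^ n) := by
    rw [← h8]
    exact Real.exp_lt_exp.2 (h6.trans_le h7)
  have h10 : C ^ n / c * (c / C ^ n) = 1 := by
    field_simp
  calc (1 : ℝ) = C ^ n / c * (c / C ^ n) := h10.symm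
    _ < Real.exp (c0 * (d : ℝ) ^ n) * (c / C ^ n) :=
      mul_lt_mul_of_pos_right h9 (by positivity)

theorem prod_big {ι : Type} (S : Finset ι) (m : ι → ℕ) (u : ι → ℕ → ℝ)
    (hu : ∀ i ∈ S, ∃ c C : ℝ, 0 < c ∧ 1 ≤ C ∧ ∃ n1, ∀ n, n1 ≤ n → c / C ^ n ≤ u i n)
    {i0 : ι} (hi0 : i0 ∈ S) (hm : 1 ≤ m i0) {d : ℕ} (hd : 2 ≤ d)
    (h0 : ∃ c : ℝ, 0 < c ∧ ∃ n1, ∀ n, n1 ≤ n → Real.exp (c * (d : ℝ) ^ n) ≤ u i0 n) :
    ∀ᶠ n in Filter.atTop, 1 < ∏ i ∈ S, u i n ^ m i := by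
  classical
  obtain ⟨c, C, hc, hC, n1, h1⟩ := zba_low (S.erase i0) m u
    (fun i hi => hu i (Finset.mem_of_mem_erase hi))
  obtain ⟨c0, hc0, n2, h2⟩ := h0
  filter_upwards [zba_exp hc hC hc0 hd, Filter.eventually_ge_atTop n1,
    Filter.eventually_ge_atTop n2] with n h3 h4 h5
  rw [← Finset.mul_prod_erase S _ hi0]
  have h6 := h1 n h4
  have h7 := h2 n h5
  have h8 : (1 : ℝ) ≤ u i0 n := by
    refine le_trans ?_ h7
    exact Real.one_le_exp (by positivity)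
  have h9 : Real.exp (c0 * (d : ℝ) ^ n) ≤ u i0 n ^ m i0 := by
    refine h7.trans ?_
    calc u i0 n = u i0 n ^ 1 := (pow_one _).symm
      _ ≤ u i0 n ^ m i0 := pow_le_pow_right₀ h8 hm
  refine lt_of_lt_of_le h3 (mul_le_mul h9 h6 ?_ ?_)
  · have : 0 < C := by linarith
    positivity
  · exact pow_nonneg (by linarith) _

end Pool.Agent.H42.PC
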