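/-
ROW ZCa. Places of a number field: product formula and Northcott.
PROOFS.
* fp_lt: `FinitePlace.mk v x = ‖embedding v x‖ = adicAbv K v x = toNNReal _ (v.valuation K x)`
  (FinitePlace.mk_apply, norm_embedding, adicAbv_def, WithZeroMulInt.toNNReal_lt_one_iff or the
  strict monotonicity of toNNReal; Mathlib.NumberTheory.NumberField.Completion.FinitePlace and
  Mathlib.RingTheory.DedekindDomain.AdicValuation have the lemmas on adicAbv).
* prod_le_one: `NumberField.prod_abs_eq_one hx : (∏ w : InfinitePlace K, w x ^ w.mult) *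
  ∏ᶠ w : FinitePlace K, w x = 1`. The support of `w ↦ w x` is finite (FinitePlace.hasFiniteMulSupport hx);
  let `T` be a finite set containing it and `B`; `∏ᶠ = ∏ w ∈ T` (finprod_eq_prod_of_mulSupport_subset)
  `= (∏ w ∈ B) * ∏ w ∈ T \ B ≥ ∏ w ∈ B` as the other factors are `≥ 1` and the factors of `B` are
  `≥ 0`. Multiply by `∏ w : InfinitePlace K, w x ^ w.mult ≥ 0`.
* exists_unbounded: suppose not. Then for every infinite place `w` and every `w ∈ B` there is a bound
  `R w` for `w ((ev f)^[n] β)`, all `n`. For `w ∉ B`, `w ((ev f)^[n] β) ≤ 1` (induction on `n`;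
  `f.eval x = ∑ coeff i * x^i` and `w` is nonarchimedean: FinitePlace.add_le). By
  NumberField.mulHeight₁_eq, `mulHeight₁ x = (∏ w : InfinitePlace K, max (w x) 1 ^ w.mult) *
  ∏ᶠ w : FinitePlace K, max (w x) 1`; for `x` in the orbit the support of the second product is inside
  `B`, so it is `∏ w ∈ B ... ≤ ∏ w ∈ B, max (R w) 1`. So the heights of the orbit points are bounded by
  a constant and the orbit is finite by `NumberField.finite_setOfPred_mulHeight₁_le`
  (Mathlib.NumberTheory.Height.NumberField), contradicting hw.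
-/
import Pool.Agent.H42.PCM.D1

set_option autoImplicit false

namespace Pool.Agent.H42.PC

open Polynomial NumberField IsDedekindDomain

variable {K : Type} [Field K] [NumberField K]

theorem fp_lt (v : HeightOneSpectrum (𝓞 K)) (x : K) :
    FinitePlace.mk v x < 1 ↔ v.valuation K x < 1 := by
  rw [FinitePlace.mk_apply, NumberField.FinitePlace.norm_embedding']
  have h := WithZeroMulInt.toNNReal_lt_one_iff (m := v.valuation K x)
    (HeightOneSpectrum.one_lt_absNorm_nnreal v)
  rw [← h]
  exact_mod_cast Iff.rfl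

theorem fp_le (v : HeightOneSpectrum (𝓞 K)) (x : K) :
    FinitePlace.mk v x ≤ 1 ↔ v.valuation K x ≤ 1 := by
  rw [FinitePlace.mk_apply, NumberField.FinitePlace.norm_embedding']
  have h := WithZeroMulInt.toNNReal_le_one_iff (m := v.valuation K x)
    (HeightOneSpectrum.one_lt_absNorm_nnreal v)
  rw [← h]
  exact_mod_cast Iff.rfl

theorem prod_le_one (B : Finset (FinitePlace K)) {x : K} (hx : x ≠ 0)
    (h : ∀ w : FinitePlace K, w ∉ B → 1 ≤ w x) :
    (∏ w : InfinitePlace K, w x ^ w.mult) * ∏ w ∈ B, w x ≤ 1 := by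
  classical
  have h1 := NumberField.prod_abs_eq_one hx
  have hfin : (Function.mulSupport (fun w : FinitePlace K => w x)).Finite :=
    FinitePlace.hasFiniteMulSupport hx
  set T : Finset (FinitePlace K) := hfin.toFinset ∪ B with hT
  have h2 : (∏ᶠ w : FinitePlace K, w x) = ∏ w ∈ T, w x := by
    apply finprod_eq_prod_of_mulSupport_subset
    intro w hw
    simp only [hT, Finset.coe_union, Set.Finite.coe_toFinset]
    exact Or.inl hw
  have hnn : ∀ w : FinitePlace K, 0 ≤ w x := fun w => apply_nonneg w x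
  have h3 : (∏ w ∈ B, w x) ≤ ∏ w ∈ T, w x := by
    have hBT : B ⊆ T := by
      rw [hT]
      exact Finset.subset_union_right
    rw [← Finset.prod_sdiff hBT]
    have h4 : 1 ≤ ∏ w ∈ T \ B, w x := by
      have h7 := Finset.prod_le_prod (s := T \ B) (f := fun _ : FinitePlace K => (1 : ℝ))
        (g := fun w => w x) (fun _ _ => zero_le_one)
        (fun w hw => h w (Finset.mem_sdiff.mp hw).2)
      simpa using h7
    have h5 : 0 ≤ ∏ w ∈ B, w x := Finset.prod_nonneg (fun w _ => hnn w)
    nlinarith
  have h6 : 0 ≤ ∏ w : InfinitePlace K, w x ^ w.mult :=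
    Finset.prod_nonneg (fun w _ => pow_nonneg (apply_nonneg w x) _)
  calc (∏ w : InfinitePlace K, w x ^ w.mult) * ∏ w ∈ B, w x
      ≤ (∏ w : InfinitePlace K, w x ^ w.mult) * ∏ w ∈ T, w x :=
        mul_le_mul_of_nonneg_left h3 h6
    _ = 1 := by rw [← h2]; exact h1

end Pool.Agent.H42.PC
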