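/-
ROW ZCb. Some place has an unbounded orbit (Northcott).
PROOF. Suppose not. Then for every infinite place `w` and every `w ∈ B` there is a bound
`R w` for `w ((ev f)^[n] β)`, all `n`. For `w ∉ B`, `w ((ev f)^[n] β) ≤ 1` (induction on `n`;
`f.eval x = ∑ coeff i * x^i` and `w` is nonarchimedean: FinitePlace.add_le). By
NumberField.mulHeight₁_eq, `mulHeight₁ x = (∏ w : InfinitePlace K, max (w x) 1 ^ w.mult) *
∏ᶠ w : FinitePlace K, max (w x) 1`; for `x` in the orbit the support of the second product is inside
`B`, so it equals `∏ w ∈ B, max (w x) 1 ≤ ∏ w ∈ B, max (R w) 1`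
(finprod_eq_prod_of_mulSupport_subset). So the heights of the orbit points are bounded by
a constant and the orbit is finite by `NumberField.finite_setOfPred_mulHeight₁_le`
(Mathlib.NumberTheory.Height.NumberField), contradicting hw.
-/
import Pool.Agent.H42.PCM.D1

set_option autoImplicit false

namespace Pool.Agent.H42.PC

open Polynomial NumberField IsDedekindDomain

variable {K : Type} [Field K] [NumberField K]

theorem ZCb_sum (w : FinitePlace K) {ι : Type} (s : Finset ι) (g : ι → K)
    (h : ∀ i ∈ s, w (g i) ≤ 1) : w (∑ i ∈ s, g i) ≤ 1 := by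
  classical
  induction s using Finset.induction_on with
  | empty => simp
  | insert a s ha ih =>
    rw [Finset.sum_insert ha]
    refine (FinitePlace.add_le w _ _).trans ?_
    exact max_le (h a (Finset.mem_insert_self a s))
      (ih (fun i hi => h i (Finset.mem_insert_of_mem hi)))

theorem ZCb_orbit {f : K[X]} {β : K} (w : FinitePlace K)
    (h : (∀ i, w (f.coeff i) ≤ 1) ∧ w β ≤ 1) (n : ℕ) : w ((ev f)^[n] β) ≤ 1 := by
  induction n with
  | zero => exact h.2
  | succ n ih =>
    rw [Function.iterate_succ_apply']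
    unfold ev at ih ⊢
    rw [eval_eq_sum_range]
    apply ZCb_sum
    intro i _
    rw [map_mul, map_pow]
    have h1 := h.1 i
    have h2 := pow_le_one₀ (apply_nonneg w _) ih (n := i)
    have h3 := apply_nonneg w (f.coeff i)
    have h4 : 0 ≤ w ((fun x => eval x f)^[n] β) ^ i := pow_nonneg (apply_nonneg w _) _
    exact mul_le_one₀ h1 h4 h2

theorem exists_unbounded {f : K[X]} {β : K}
    (hw : (Set.range fun n : ℕ => (ev f)^[n] β).Infinite) (B : Finset (FinitePlace K))
    (hint : ∀ w : FinitePlace K, w ∉ B → (∀ i, w (f.coeff i) ≤ 1) ∧ w β ≤ 1) :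
    (∃ w : InfinitePlace K, ∀ R : ℝ, ∃ n, R < w ((ev f)^[n] β)) ∨
      ∃ w ∈ B, ∀ R : ℝ, ∃ n, R < w ((ev f)^[n] β) := by
  by_contra hcon
  push Not at hcon
  obtain ⟨h1, h2⟩ := hcon
  choose R hR using h1
  have h2' : ∀ w : FinitePlace K, ∃ R : ℝ, w ∈ B → ∀ n, w ((ev f)^[n] β) ≤ R := by
    intro w
    by_cases hwB : w ∈ B
    · obtain ⟨R, hR⟩ := h2 w hwB
      exact ⟨R, fun _ => hR⟩
    · exact ⟨0, fun h => absurd h hwB⟩
  choose S hS using h2'
  have hsub : (Set.range fun n : ℕ => (ev f)^[n] β) ⊆
      {x : K | Height.mulHeight₁ x ≤ (∏ v : InfinitePlace K, max (R v) 1 ^ v.mult) *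
        ∏ v ∈ B, max (S v) 1} := by
    rintro _ ⟨n, rfl⟩
    change Height.mulHeight₁ ((ev f)^[n] β) ≤ _
    rw [NumberField.mulHeight₁_eq]
    have hfin : ∏ᶠ v : FinitePlace K, max (v ((ev f)^[n] β)) 1 =
        ∏ v ∈ B, max (v ((ev f)^[n] β)) 1 := by
      apply finprod_eq_prod_of_mulSupport_subset
      intro v hv
      by_contra hvB
      apply hv
      exact max_eq_right (ZCb_orbit v (hint v hvB) n)
    rw [hfin]
    apply mul_le_mul
    · apply Finset.prod_le_prod
      · intro v _
        positivity
      · intro v _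
        exact pow_le_pow_left₀ (by positivity) (max_le_max (hR v n) le_rfl) _
    · apply Finset.prod_le_prod
      · intro v _
        positivity
      · intro v hv
        exact max_le_max (hS v hv n) le_rfl
    · apply Finset.prod_nonneg
      intro v _
      positivity
    · apply Finset.prod_nonneg
      intro v _
      positivity
  exact hw ((NumberField.finite_setOfPred_mulHeight₁_le K _).subset hsub)

end Pool.Agent.H42.PC
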