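/-
ROW ZDa. For all large `n` the value `h (f^(n-n0) β)` has a prime divisor outside a given finite set.
PROOF. Let `a_n = h.eval ((ev f)^[n-n0] β)`. The orbit is infinite, so `(ev f)^[n] β ≠ β` for
`n ≥ 1` (otherwise the orbit is finite: every `(ev f)^[m] β = (ev f)^[m % n] β`,
Function.iterate_mod..., IsPeriodicPt). `a_n ≠ 0` for `n ≥ max n0 1`: otherwise
`(ev f)^[n] β - β = a_n * r(..) = 0` (Polynomial.iterate_comp_eval as in row ZAc).
Let `B1 : Finset (FinitePlace K)` be the (finite) set of the places `FinitePlace.mk v` for `v ∈ B`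
together with all `FinitePlace.mk v` for which `v.valuation K β > 1` or `v.valuation K (f.coeff i) > 1`
for some `i ∈ f.support` (finite: `val_ne_one_finite` in PCM/E1 for the nonzero ones among
`β, f.coeff i`). So `∀ w ∉ B1, (∀ i, w (f.coeff i) ≤ 1) ∧ w β ≤ 1`: `w = FinitePlace.mk v` with
`v = w.maximalIdeal` (FinitePlace.mk_maximalIdeal), fp_le of row ZCa.
exists_unbounded (row ZCb) gives a place `w0` (infinite or in `B1`) with unbounded orbit.
Index set `ι = InfinitePlace K ⊕ FinitePlace K`, `S = (univ : Finset (InfinitePlace K)).disjSum B1`,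
`m (inl w) = w.mult`, `m (inr w) = 1`, `u i n = |a_n|_i`. Hypothesis `hu` of prod_big (row ZBa)
for a place with bounded orbit: orbit_lb (row ZAb; hcrit) and factor_lb; for a place with unbounded
orbit: factor_big (`exp ≥ 1 = 1/1^n`). `h0`: factor_big for `w0`. (Apply the rows ZA to the absolute
values `w.1 : AbsoluteValue K ℝ`; `w x = w.1 x` by rfl / coe_apply.)
So eventually `1 < (∏ w : InfinitePlace K, w a_n ^ w.mult) * ∏ w ∈ B1, w a_n`
(Finset.prod_disjSum). By prod_le_one (row ZCa) there is `w ∉ B1` with `w a_n < 1`;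
`v = w.maximalIdeal` is not in `B` and `v.valuation K a_n < 1` by fp_lt.
-/
import Pool.Agent.H42.PCM.E1
import Pool.Agent.H42.AD.ZAb
import Pool.Agent.H42.AD.ZAc
import Pool.Agent.H42.AD.ZBa
import Pool.Agent.H42.AD.ZCa
import Pool.Agent.H42.AD.ZCb

set_option autoImplicit false

namespace Pool.Agent.H42.PC

open Polynomial NumberField IsDedekindDomain

variable {K : Type} [Field K] [NumberField K]

omit [NumberField K] in
theorem zda_per {f : K[X]} {β : K} (hw : (Set.range fun n : ℕ => (ev f)^[n] β).Infinite) (n : ℕ)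
    (hn : 1 ≤ n) : (ev f)^[n] β ≠ β := by
  classical
  intro h
  apply hw
  refine ((Finset.range n).image fun m => (ev f)^[m] β).finite_toSet.subset ?_
  rintro _ ⟨m, rfl⟩
  rw [Finset.mem_coe, Finset.mem_image]
  have hp : Function.IsPeriodicPt (ev f) n β := h
  exact ⟨m % n, Finset.mem_range.2 (Nat.mod_lt _ (by omega)), hp.iterate_mod_apply m⟩

theorem zda_ne {f h : K[X]} {β : K} (hw : (Set.range fun n : ℕ => (ev f)^[n] β).Infinite) {n0 : ℕ}
    (hdvd : h ∣ f.comp^[n0] X - C β) (n : ℕ) (hn : 1 ≤ n) (hn0 : n0 ≤ n) :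
    h.eval ((ev f)^[n - n0] β) ≠ 0 := by
  intro h0
  obtain ⟨r, hr⟩ := hdvd
  have h1 := congrArg (fun p : K[X] => p.eval ((ev f)^[n - n0] β)) hr
  simp only [Polynomial.eval_mul, h0, zero_mul] at h1
  rw [Polynomial.eval_sub, Polynomial.eval_C, Polynomial.iterate_comp_eval,
    Polynomial.eval_X] at h1
  have h2 : (fun x => eval x f)^[n0] ((ev f)^[n - n0] β) = (ev f)^[n] β := by
    show (ev f)^[n0] ((ev f)^[n - n0] β) = (ev f)^[n] β
    rw [← Function.iterate_add_apply]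
    congr 2
    omega
  rw [h2] at h1
  exact zda_per hw n hn (sub_eq_zero.1 h1)

theorem zda_lb (a : AbsoluteValue K ℝ) {f h : K[X]} {β : K} (hd : 2 ≤ f.natDegree)
    (hcrit : (derivative f).eval β = 0) (hw : (Set.range fun n : ℕ => (ev f)^[n] β).Infinite)
    {n0 : ℕ} (hm : h.Monic) (hh : 1 ≤ h.natDegree) (hdvd : h ∣ f.comp^[n0] X - C β) :
    ∃ c C : ℝ, 0 < c ∧ 1 ≤ C ∧ ∃ n1, ∀ n, n1 ≤ n → c / C ^ n ≤ a (h.eval ((ev f)^[n - n0] β)) := by
  by_cases hb : ∃ R : ℝ, ∀ n, a ((ev f)^[n] β) ≤ R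
  · obtain ⟨R, hR⟩ := hb
    obtain ⟨c, C', hc, hC, hlb⟩ := orbit_lb a hcrit (fun n hn => zda_per hw n hn) hR
    obtain ⟨c', hc', h'⟩ := factor_lb a hdvd hR hc hC hlb
    exact ⟨c', C', hc', hC, max 1 n0, fun n hn =>
      h' n ((le_max_left _ _).trans hn) ((le_max_right _ _).trans hn)⟩
  · push Not at hb
    obtain ⟨c, hc, n1, h1⟩ := factor_big a hd hm hh n0 hb
    refine ⟨1, 1, one_pos, le_refl _, n1, fun n hn => ?_⟩
    refine le_trans ?_ (h1 n hn)
    rw [one_pow, div_one]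
    exact Real.one_le_exp (by positivity)

theorem zsig {f h : K[X]} {β : K} (hd : 2 ≤ f.natDegree)
    (hcrit : (derivative f).eval β = 0) (hw : (Set.range fun n : ℕ => (ev f)^[n] β).Infinite)
    {n0 : ℕ} (hm : h.Monic) (hh : 1 ≤ h.natDegree) (hdvd : h ∣ f.comp^[n0] X - C β)
    {B : Set (HeightOneSpectrum (𝓞 K))} (hB : B.Finite) :
    ∀ᶠ n in Filter.atTop, ∃ v, v ∉ B ∧
      v.valuation K (h.eval ((ev f)^[n - n0] β)) < 1 := by
  classical
  set Z : Finset K := (insert β (f.support.image f.coeff)) with hZ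
  have hV : (B ∪ ⋃ z ∈ {z | z ∈ Z ∧ z ≠ 0},
      {v : HeightOneSpectrum (𝓞 K) | v.valuation K z ≠ 1}).Finite := by
    refine hB.union ?_
    refine Set.Finite.biUnion (Z.finite_toSet.subset fun z hz => hz.1) fun z hz => ?_
    exact val_ne_one_finite hz.2
  set V := (B ∪ ⋃ z ∈ {z | z ∈ Z ∧ z ≠ 0},
      {v : HeightOneSpectrum (𝓞 K) | v.valuation K z ≠ 1}) with hVdef
  set B1 : Finset (FinitePlace K) := hV.toFinset.image FinitePlace.mk with hB1
  have hz1 : ∀ w : FinitePlace K, w ∉ B1 → ∀ z ∈ Z, w z ≤ 1 := by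
    intro w hwB z hz
    have e : FinitePlace.mk w.maximalIdeal = w := FinitePlace.mk_maximalIdeal w
    by_cases hz0 : z = 0
    · rw [hz0]
      have : w (0 : K) = 0 := map_zero w.1
      rw [this]
      exact zero_le_one
    · have hv : w.maximalIdeal ∉ V := by
        intro hv
        apply hwB
        rw [hB1, Finset.mem_image]
        exact ⟨_, hV.mem_toFinset.2 hv, e⟩
      have hv1 : w.maximalIdeal.valuation K z = 1 := by
        by_contra hne
        apply hv
        rw [hVdef]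
        refine Or.inr (Set.mem_biUnion (show z ∈ {z | z ∈ Z ∧ z ≠ 0} from ⟨hz, hz0⟩) hne)
      rw [← e, fp_le, hv1]
  have hint : ∀ w : FinitePlace K, w ∉ B1 → (∀ i, w (f.coeff i) ≤ 1) ∧ w β ≤ 1 := by
    intro w hwB
    refine ⟨fun i => ?_, hz1 w hwB β (Finset.mem_insert_self _ _)⟩
    by_cases hi : i ∈ f.support
    · exact hz1 w hwB _ (Finset.mem_insert_of_mem (Finset.mem_image_of_mem _ hi))
    · rw [notMem_support_iff.1 hi]
      have : w (0 : K) = 0 := map_zero w.1
      rw [this]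
      exact zero_le_one
  set an : ℕ → K := fun n => h.eval ((ev f)^[n - n0] β) with han
  set S : Finset (InfinitePlace K ⊕ FinitePlace K) :=
    (Finset.univ : Finset (InfinitePlace K)).disjSum B1 with hS
  set m : InfinitePlace K ⊕ FinitePlace K → ℕ := Sum.elim (fun w => w.mult) (fun _ => 1) with hmdef
  set u : InfinitePlace K ⊕ FinitePlace K → ℕ → ℝ :=
    Sum.elim (fun w n => w (an n)) (fun w n => w (an n)) with hudef
  have hu : ∀ i ∈ S, ∃ c C : ℝ, 0 < c ∧ 1 ≤ C ∧ ∃ n1, ∀ n, n1 ≤ n → c / C ^ n ≤ u i n := by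
    rintro (w | w) -
    · exact zda_lb w.1 hd hcrit hw hm hh hdvd
    · exact zda_lb w.1 hd hcrit hw hm hh hdvd
  have hi0 : ∃ i0 ∈ S, 1 ≤ m i0 ∧ ∃ c : ℝ, 0 < c ∧ ∃ n1, ∀ n, n1 ≤ n →
      Real.exp (c * (f.natDegree : ℝ) ^ n) ≤ u i0 n := by
    rcases exists_unbounded hw B1 hint with ⟨w, hub⟩ | ⟨w, hwB, hub⟩
    · refine ⟨Sum.inl w, ?_, ?_, factor_big w.1 hd hm hh n0 hub⟩
      · rw [hS, Finset.inl_mem_disjSum]
        exact Finset.mem_univ _
      · exact InfinitePlace.mult_pos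
    · refine ⟨Sum.inr w, ?_, ?_, factor_big w.1 hd hm hh n0 hub⟩
      · rw [hS, Finset.inr_mem_disjSum]
        exact hwB
      · exact le_refl 1
  obtain ⟨i0, hi0S, hmi0, h0⟩ := hi0
  have hev := prod_big S m u hu hi0S hmi0 hd h0
  filter_upwards [hev, Filter.eventually_ge_atTop (max 1 n0)] with n hn hn1
  have hne : an n ≠ 0 := zda_ne hw hdvd n ((le_max_left _ _).trans hn1)
    ((le_max_right _ _).trans hn1)
  rw [hS, Finset.prod_disjSum] at hn
  have hn' : 1 < (∏ w : InfinitePlace K, w (an n) ^ w.mult) * ∏ w ∈ B1, w (an n) := by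
    simpa [hmdef, hudef] using hn
  have hex : ∃ w : FinitePlace K, w ∉ B1 ∧ w (an n) < 1 := by
    by_contra hcon
    push Not at hcon
    exact absurd (prod_le_one B1 hne hcon) (not_le.2 hn')
  obtain ⟨w, hwB, hlt⟩ := hex
  have e : FinitePlace.mk w.maximalIdeal = w := FinitePlace.mk_maximalIdeal w
  refine ⟨w.maximalIdeal, ?_, ?_⟩
  · intro hv
    apply hwB
    rw [hB1, Finset.mem_image]
    exact ⟨_, hV.mem_toFinset.2 (Or.inl hv), e⟩
  · rw [← fp_lt, e]
    exact hlt

end Pool.Agent.H42.PC
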