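/-
ROW ZDb. Good primes at which `β` has exact prime period.
PROOF. `FA f K = ev f` because `f.map (algebraMap K K) = f` (Algebra.algebraMap_self,
Polynomial.map_id); so `hGP` (transported to K by GP_hom (Algebra.ofId K _)) gives the hypotheses of
zsig (row ZDa): `crit`, `wan`. `M` is algebraic over `K` so `GP f β M` (GP_hom with
IsAlgClosed.lift, see ELim_gpM in PCM/E3). Write `f.comp^[n0] X - C β = h * r`. Bad set
`B = {v | ¬ GoodK f β M J v} ∪ {v | v.valuation K (f.eval β - β) ≠ 1} ∪
⋃ i ∈ r.support, {v | v.valuation K (r.coeff i) ≠ 1}`: finite by goodK_finite and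
val_ne_one_finite (PCM/E1) (`f.eval β ≠ β` by `aper`, `n = 1`). `1 ≤ h.natDegree` since `h` is
irreducible (Irreducible.natDegree_pos or degree). By zsig and Nat.exists_infinite_primes
there is a prime `n ≥ B0` (also `n ≥ n0`) and `v ∉ B` with `v (h.eval (f^(n-n0) β)) < 1`; `k = n - n0`.
* `v ((FA f K)^[n] β - β) < 1`: it is `v (h(y)) * v (r(y))`, `y = (ev f)^[n-n0] β`
  (Polynomial.iterate_comp_eval or itp_aeval), `v y ≤ 1` (induction: coefficients of `f` and `β` are
  integral at `v`; eval_int of PCM/D1) and `v (r.eval y) ≤ 1` (coefficients of `r` have value `≤ 1`;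
  eval_int).
* its value is `exp (-v0)` with `1 ≤ v0`: nonzero (aper) and `< 1`: see the end of ELim_pr, PCM/E3.
* `¬ v (f^i β - β) < 1` for `1 ≤ i < n`: `i` is coprime to the prime `n`; there are `a, c` with
  `a * i = c * n + 1` (Nat.exists_mul_emod_eq_one_of_coprime or similar). Write `x ~ y` for
  `v (x - y) < 1`; for integral `x, y`, `x ~ y` implies `f x ~ f y` (eval_sub_le, PCM/D1). If
  `f^i β ~ β` then `f^(a*i) β ~ β` (induction on a), and `f^(c*n) β ~ β`, so
  `f^(c*n+1) β ~ f β`. Hence `f β ~ β`, contradicting `v (f β - β) = 1`.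
-/
import Pool.Agent.H42.PCM.E2
import Pool.Agent.H42.AD.ZDa

set_option autoImplicit false

namespace Pool.Agent.H42.PC

open Polynomial NumberField IsDedekindDomain

private theorem ZDb_gpM {K M : Type} [Field K] [NumberField K] [Field M] [NumberField M]
    [Algebra K M] {f : K[X]} {β : K} (hGP : GP f β (AlgebraicClosure K)) : GP f β M := by
  have : Module.Finite K M := Module.Finite.of_restrictScalars_finite ℚ K M
  have : Algebra.IsAlgebraic K M := inferInstance
  exact GP_hom (IsAlgClosed.lift : M →ₐ[K] AlgebraicClosure K) hGP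

private theorem ZDb_it_int {K : Type} [Field K] {V : Valuation K (WithZero (Multiplicative ℤ))}
    {f : K[X]} (hp : ∀ i, V (f.coeff i) ≤ 1) {x : K} (hx : V x ≤ 1) (m : ℕ) :
    V ((ev f)^[m] x) ≤ 1 := by
  induction m with
  | zero => exact hx
  | succ m ih =>
    rw [Function.iterate_succ_apply']
    exact eval_int hp ih

private theorem ZDb_it_sub {K : Type} [Field K] {V : Valuation K (WithZero (Multiplicative ℤ))}
    {f : K[X]} (hp : ∀ i, V (f.coeff i) ≤ 1) {x y : K} (hx : V x ≤ 1) (hy : V y ≤ 1) (m : ℕ) :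
    V ((ev f)^[m] x - (ev f)^[m] y) ≤ V (x - y) := by
  induction m with
  | zero => exact le_rfl
  | succ m ih =>
    rw [Function.iterate_succ_apply', Function.iterate_succ_apply']
    exact (eval_sub_le hp (ZDb_it_int hp hx m) (ZDb_it_int hp hy m)).trans ih

private theorem ZDb_mul {K : Type} [Field K] {V : Valuation K (WithZero (Multiplicative ℤ))}
    {f : K[X]} (hp : ∀ i, V (f.coeff i) ≤ 1) {x : K} (hx : V x ≤ 1) {i : ℕ}
    (hi : V ((ev f)^[i] x - x) < 1) (a : ℕ) : V ((ev f)^[a * i] x - x) < 1 := by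
  induction a with
  | zero =>
    rw [zero_mul, Function.iterate_zero_apply, sub_self, map_zero]
    exact zero_lt_one
  | succ a ih =>
    have h1 : (ev f)^[(a + 1) * i] x - x =
        ((ev f)^[i] ((ev f)^[a * i] x) - (ev f)^[i] x) + ((ev f)^[i] x - x) := by
      have h2 : (a + 1) * i = i + a * i := by ring
      rw [h2, Function.iterate_add_apply]
      ring
    rw [h1]
    exact V.map_add_lt ((ZDb_it_sub hp (ZDb_it_int hp hx _) hx i).trans_lt ih) hi

theorem exists_prime_place {K M : Type} [Field K] [NumberField K] [Field M] [NumberField M]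
    [Algebra K M] {f h : K[X]} {β : K} (hd : 2 ≤ f.natDegree)
    (hGP : GP f β (AlgebraicClosure K)) {n0 : ℕ} (hm : h.Monic) (hi : Irreducible h)
    (hdvd : h ∣ f.comp^[n0] X - C β) (J B0 : ℕ) :
    ∃ (v : HeightOneSpectrum (𝓞 K)) (n v0 k : ℕ), GoodK f β M J v ∧ n.Prime ∧ B0 ≤ n ∧ 1 ≤ v0 ∧
      v.valuation K ((FA f K)^[n] β - β) = WithZero.exp (-(v0 : ℤ)) ∧
      (∀ i, 1 ≤ i → i < n → ¬ v.valuation K ((FA f K)^[i] β - β) < 1) ∧
      v.valuation K (h.eval ((FA f K)^[k] β)) < 1 := by
  have hgM : GP f β M := ZDb_gpM hGP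
  have hgK : GP f β K := ZDb_gpM hGP
  have hFA : FA f K = ev f := by
    funext x
    show (f.map (algebraMap K K)).eval x = f.eval x
    rw [Algebra.algebraMap_self, Polynomial.map_id]
  have hwan : (Set.range fun n : ℕ => (ev f)^[n] β).Infinite := by
    have := hgK.wan
    unfold Wandering at this
    rwa [hFA] at this
  have haper : ∀ t, 1 ≤ t → (ev f)^[t] β ≠ β := by
    intro t ht
    have := aper hgK ht
    rwa [hFA] at this
  obtain ⟨r, hr⟩ := hdvd
  have hne : f.eval β - β ≠ 0 := by
    have := haper 1 le_rfl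
    intro h0
    exact this (sub_eq_zero.1 h0)
  set B : Set (HeightOneSpectrum (𝓞 K)) := {v | ¬ GoodK f β M J v} ∪
    {v | v.valuation K (f.eval β - β) ≠ 1} ∪
    ⋃ i ∈ r.support, {v | v.valuation K (r.coeff i) ≠ 1} with hBdef
  have hB : B.Finite := by
    refine ((goodK_finite (M := M) hd hgM J).union (val_ne_one_finite hne)).union ?_
    refine Set.Finite.biUnion r.support.finite_toSet ?_
    intro i hi
    exact val_ne_one_finite (Polynomial.mem_support_iff.1 hi)
  have hh : 1 ≤ h.natDegree := hi.natDegree_pos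
  have hz := zsig hd hgK.crit hwan (n0 := n0) hm hh ⟨r, hr⟩ hB
  obtain ⟨N0, hN0⟩ := Filter.eventually_atTop.1 hz
  obtain ⟨n, hn, hnp⟩ := Nat.exists_infinite_primes (B0 + n0 + N0)
  obtain ⟨v, hvB, hv⟩ := hN0 n (by omega)
  have hg : GoodK f β M J v := by
    by_contra hcon
    exact hvB (Or.inl (Or.inl hcon))
  have hv1 : v.valuation K (f.eval β - β) = 1 := by
    by_contra hcon
    exact hvB (Or.inl (Or.inr hcon))
  have hrc : ∀ i, v.valuation K (r.coeff i) ≤ 1 := by
    intro i
    by_cases h0 : r.coeff i = 0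
    · rw [h0, map_zero]; exact zero_le_one
    · by_contra hcon
      apply hvB
      right
      simp only [Set.mem_iUnion]
      exact ⟨i, Polynomial.mem_support_iff.2 h0, fun h1 => hcon h1.le⟩
  have hitn : v.valuation K ((ev f)^[n] β - β) < 1 := by
    have h1 := itp_aeval (A := K) (f := f) (β := β) n0 ((ev f)^[n - n0] β)
    rw [hFA, ← Function.iterate_add_apply, hr, map_mul] at h1
    have h2 : n0 + (n - n0) = n := by omega
    rw [h2] at h1
    have h3 : (ev f)^[n] β - β = h.eval ((ev f)^[n - n0] β) * r.eval ((ev f)^[n - n0] β) := by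
      have h4 : (algebraMap K K) β = β := rfl
      rw [h4] at h1
      rw [← h1, Polynomial.coe_aeval_eq_eval]
    rw [h3, map_mul]
    exact mul_lt_one_of_lt_of_le hv (eval_int hrc (ZDb_it_int hg.int hg.bint _))
  have hvne : v.valuation K ((ev f)^[n] β - β) ≠ 0 := by
    rw [Ne, map_eq_zero]
    intro h0
    exact haper n hnp.one_le (sub_eq_zero.1 h0)
  obtain ⟨e, he⟩ : ∃ e : ℤ, v.valuation K ((ev f)^[n] β - β) = WithZero.exp e :=
    ⟨_, (WithZero.exp_log hvne).symm⟩
  have he1 : e < 0 := by
    have := hitn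
    rwa [he, ← WithZero.exp_zero, WithZero.exp_lt_exp] at this
  simp only [hFA]
  refine ⟨v, n, (-e).toNat, n - n0, hg, hnp, by omega, by omega, ?_, ?_, hv⟩
  · rw [he]
    congr 1
    omega
  · intro i hi1 hin hlt
    have hco : Nat.Coprime i n := by
      rw [Nat.coprime_comm]
      exact (Nat.Prime.coprime_iff_not_dvd hnp).2 fun hdv => by
        have := Nat.le_of_dvd (by omega) hdv
        omega
    obtain ⟨a, -, ha⟩ := Nat.exists_mul_mod_eq_one_of_coprime hco hnp.one_lt
    have hac : a * i = (i * a / n) * n + 1 := by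
      have := Nat.div_add_mod (i * a) n
      rw [ha] at this
      rw [mul_comm a i, mul_comm _ n]
      exact this.symm
    have h1 := ZDb_mul hg.int hg.bint hlt a
    have h2 := ZDb_mul hg.int hg.bint hitn (i * a / n)
    rw [hac] at h1
    have h3 : v.valuation K ((ev f)^[(i * a / n) * n + 1] β - f.eval β) < 1 := by
      rw [Function.iterate_succ_apply']
      exact (eval_sub_le hg.int (ZDb_it_int hg.int hg.bint _) hg.bint).trans_lt h2
    have h4 : v.valuation K (f.eval β - β) < 1 := by
      have h5 : f.eval β - β = ((ev f)^[(i * a / n) * n + 1] β - β) -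
          ((ev f)^[(i * a / n) * n + 1] β - f.eval β) := by ring
      rw [h5]
      exact (v.valuation K).map_sub_lt h1 h3
    rw [hv1] at h4
    exact lt_irrefl _ h4

end Pool.Agent.H42.PC
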