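/-
ROW EBa. The proportions tend to zero (all degrees).
PROOF. Like qq_tendsto (PCM/E3, section ELim); ELim_gpM, ELim_fld are private there: copy them
(ELim_fld only needs `2 ≤ f.natDegree`). Let `s = (Wd f M).card`, `d = f.natDegree`.
limit_zero2 (row GFc): nonnegativity and antitonicity as in qq_tendsto. For `k ≥ 1`:
`D = (k*d)^(k*d) ≥ 1`, `N0 = (k+1)*D`.
1. exists_prime_place (row ZDb) with `J = max n0 1`, `B0 = N0*(s^2*(N0+3))*s + 1` gives
   `v', n', v0', k'`; `n'` prime, `n' > N0*(s^2*(N0+3))*s`; `t' = (n'+1)*(n'*(v0'+1))`.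
2. exists_prime_place with `J = max n0 (2*((s+1)*n')*(k*d*s+1) + 2*t' + 2*((s+1)*n') + 1)`,
   `B0 = n' + 1` gives `v, n, v0, k2`; `n > n'` are primes, so coprime
   (Nat.coprime_primes). `t0 = max n0 ((n+1)*(n*(v0+1)))`.
3. `N` = the left side of hN in group_main (row GMc), which is `≥ n0`. ELim_fld gives the field `L`
   with Tree, Orb; pl_full (row EAa) gives the places `P'` (with J as in 1) and `P`, Full.mono
   (row GHb; `t0 ≥ (n+1)*(n*(v0+1))`).
4. group_main gives `l` with `n0 ≤ l ≤ N` and `N0 * (q - 1/(k+1)) ≤ D`, so `q ≤ 1/(k+1) + D/N0 =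
   2/(k+1)`; `q = qq f h β n0 l` by q_indep (PCM/E3).
-/
import Pool.Agent.H42.AD.EAa
import Pool.Agent.H42.AD.GMc
import Pool.Agent.H42.AD.ZDb

set_option autoImplicit false

namespace Pool.Agent.H42.PC

open Polynomial NumberField IsDedekindDomain Filter Topology

open scoped Classical

private theorem EBa_finite {K M : Type} [Field K] [NumberField K] [Field M] [NumberField M]
    [Algebra K M] : Algebra.IsAlgebraic K M := by
  have : Module.Finite K M := Module.Finite.of_restrictScalars_finite ℚ K M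
  infer_instance

private theorem EBa_gpM {K M : Type} [Field K] [NumberField K] [Field M] [NumberField M]
    [Algebra K M] {f : K[X]} {β : K} (hGP : GP f β (AlgebraicClosure K)) : GP f β M := by
  have : Algebra.IsAlgebraic K M := EBa_finite
  exact GP_hom (IsAlgClosed.lift : M →ₐ[K] AlgebraicClosure K) hGP

private theorem EBa_fld {K M : Type} [Field K] [NumberField K] [Field M] [NumberField M]
    [Algebra K M] {f h : K[X]} {β : K} [IsSplittingField K M (derivative f)]
    (hd : 2 ≤ f.natDegree) (hGP : GP f β (AlgebraicClosure K)) {n0 : ℕ}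
    (hst : Stab f β n0) (hm : h.Monic) (hi : Irreducible h) (hdvd : h ∣ f.comp^[n0] X - C β)
    (N : ℕ) (hN : n0 ≤ N) :
    ∃ (L : Type) (_ : Field L) (_ : NumberField L) (_ : Algebra K L) (_ : Algebra M L)
      (_ : IsScalarTower K M L) (_ : IsGalois K L),
      (∀ t ≤ N, ((f.comp^[t] X - C β).map (algebraMap K L)).Splits) ∧
      Tree (L ≃ₐ[K] L) (FA f L) (algebraMap K L β) f.natDegree N ∧
      Orb (L ≃ₐ[K] L) (FA f L) (algebraMap K L β) n0 N (OO f h n0 L) := by
  obtain ⟨L, i1, i2, i3, i4, i5, i6, hs⟩ := exists_field (M := M) f β N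
  have hT := tree_of_splits (L := L) (by omega : 1 ≤ f.natDegree) (EBa_gpM (M := L) hGP) hs
  exact ⟨L, i1, i2, i3, i4, i5, i6, hs, hT, orb_of_stab (by omega) hN hT hs hst hm hi hdvd⟩

theorem qq_tendsto2 {K M : Type} [Field K] [NumberField K] [Field M] [NumberField M]
    [Algebra K M] {f h : K[X]} {β : K} [IsSplittingField K M (derivative f)]
    (hd : 2 ≤ f.natDegree) (hGP : GP f β (AlgebraicClosure K)) {n0 : ℕ}
    (hst : Stab f β n0) (hm : h.Monic) (hi : Irreducible h) (hdvd : h ∣ f.comp^[n0] X - C β) :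
    Tendsto (fun t => qq f h β n0 t) atTop (𝓝 0) := by
  obtain ⟨s, hs⟩ : ∃ s, s = (Wd f M).card := ⟨_, rfl⟩
  refine limit_zero2 _ n0 ?_ ?_ ?_
  · intro t
    exact div_nonneg (Nat.cast_nonneg _) (Nat.cast_nonneg _)
  · intro t ht
    obtain ⟨L, i1, i2, i3, i4, i5, i6, hsp, hT, hO⟩ :=
      EBa_fld (M := M) hd hGP hst hm hi hdvd (t + 1) (by omega)
    have := q_anti hT hO (t := t) (by omega)
    rwa [q_indep (by omega) (by omega) hdvd (hsp _ (by omega)),
      q_indep (by omega) ht hdvd (hsp _ (by omega))] at this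
  · intro k hk
    obtain ⟨D, hD⟩ : ∃ D, D = (k * f.natDegree) ^ (k * f.natDegree) := ⟨_, rfl⟩
    have hD1 : 1 ≤ D := by
      rw [hD]
      exact Nat.pow_pos (Nat.mul_pos hk (by omega))
    obtain ⟨N0, hN0⟩ : ∃ N0, N0 = (k + 1) * D := ⟨_, rfl⟩
    have hN01 : 1 ≤ N0 := by
      rw [hN0]
      exact Nat.mul_pos (by omega) hD1
    obtain ⟨v', n', v0', k', hg', hp', hB', hv0', hval', hmin', hk'⟩ :=
      exists_prime_place (M := M) hd hGP hm hi hdvd (max n0 1) (N0 * (s ^ 2 * (N0 + 3)) * s + 1)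
    obtain ⟨t', ht'⟩ : ∃ t', t' = (n' + 1) * (n' * (v0' + 1)) := ⟨_, rfl⟩
    obtain ⟨v, n, v0, k2, hg, hp, hB, hv0, hval, hmin, hk2⟩ :=
      exists_prime_place (M := M) hd hGP hm hi hdvd
        (max n0 (2 * ((s + 1) * n') * (k * f.natDegree * s + 1) + 2 * t' + 2 * ((s + 1) * n') + 1))
        (n' + 1)
    have hco : Nat.Coprime n n' := (Nat.coprime_primes hp hp').2 (by omega)
    obtain ⟨t0, ht0⟩ : ∃ t0, t0 = max n0 ((n + 1) * (n * (v0 + 1))) := ⟨_, rfl⟩
    obtain ⟨N, hN⟩ : ∃ N, N = max (max n0 (max t' (t0 + n * (t0 + 3 * s + 1)))) ((N0 + 1) * n) +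
      n * (n' + N0 + 2) := ⟨_, rfl⟩
    have hn0N : n0 ≤ N := by
      rw [hN]
      exact (le_max_left _ _).trans ((le_max_left _ _).trans (Nat.le_add_right _ _))
    obtain ⟨L, i1, i2, i3, i4, i5, i6, hsp, hT, hO⟩ :=
      EBa_fld (M := M) hd hGP hst hm hi hdvd N hn0N
    obtain ⟨P', hF', hI'⟩ := pl_full hd hGP hg' hn0N (le_max_left _ _) hT hO hsp hm hdvd
      hp'.one_lt.le hv0' hval' hmin' hk'
    obtain ⟨P, hF, hI⟩ := pl_full hd hGP hg hn0N (le_max_left _ _) hT hO hsp hm hdvd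
      hp.one_lt.le hv0 hval hmin hk2
    rw [← ht'] at hF'
    subst hs
    obtain ⟨l, hl1, hl2, hl3⟩ := group_main hT hO (by omega) hF' hI'
      (hF.mono (t1 := t0) (by rw [ht0]; exact le_max_right _ _)) hI
      (by rw [ht0]; exact le_max_left _ _) hco hk hN01 (by omega) (le_max_right _ _)
      (le_of_eq hN.symm)
    refine ⟨l, hl1, ?_⟩
    rw [q_indep (by omega) hl1 hdvd (hsp _ hl2), ← hD, hN0] at hl3
    have hDp : (0 : ℝ) < (D : ℝ) := by exact_mod_cast hD1
    have hkp : (0 : ℝ) < (k : ℝ) + 1 := by positivity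
    rw [le_div_iff₀ hkp]
    have h1 : (((k + 1) * D : ℕ) : ℝ) * (qq f h β n0 l - 1 / ((k : ℝ) + 1)) =
        D * (qq f h β n0 l * ((k : ℝ) + 1) - 1) := by
      push_cast
      field_simp
    rw [h1] at hl3
    have h2 : qq f h β n0 l * ((k : ℝ) + 1) - 1 ≤ 1 := by
      by_contra hcon
      push Not at hcon
      have := mul_lt_mul_of_pos_left hcon hDp
      linarith
    linarith

end Pool.Agent.H42.PC
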