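/-
ROW EBb. Density zero for all degrees. PROOF: EFin_SS2 is EFin_SS of PCM/E4 (section EFin) with
qq_tendsto replaced by qq_tendsto2 (row EBa): no case distinction on finiteness is needed;
density_zero2 is density_zero of PCM/E4 with EFin_SS2 (copy both proofs; `omega` side goals only use
`2 ≤ f.natDegree`).
-/
import Pool.Agent.H42.PCM.E4
import Pool.Agent.H42.AD.EBa

set_option autoImplicit false

namespace Pool.Agent.H42.PC

open Polynomial NumberField IsDedekindDomain Filter Topology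

open scoped Classical

theorem EFin_SS2 (hPIT : ∀ (E : Type) [Field E] [NumberField E], PITh E)
    {K : Type} [Field K] [NumberField K] {f h : K[X]} {β : K}
    (hd : 2 ≤ f.natDegree) (hGP : GP f β (AlgebraicClosure K)) {n0 : ℕ} (hst : Stab f β n0)
    (hm : h.Monic) (hi : Irreducible h) (hdvd : h ∣ f.comp^[n0] X - C β) :
    EFinSm K (SS f h β) := by
  classical
  ·
    have hM : NumberField (derivative f).SplittingField :=
      NumberField.of_module_finite K (derivative f).SplittingField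
    have hq := qq_tendsto2 (M := (derivative f).SplittingField) hd hGP hst hm hi hdvd
    intro ε hε
    obtain ⟨t, hqt, hnt⟩ : ∃ t, qq f h β n0 t < ε / 4 ∧ n0 ≤ t := by
      have h1 : ∀ᶠ t in atTop, qq f h β n0 t < ε / 4 := hq.eventually_lt_const (by positivity)
      exact (h1.and (eventually_ge_atTop n0)).exists
    obtain ⟨L, iF, iN, iKL, iML, iT, iG, hs⟩ := exists_field (K := K)
      (M := (derivative f).SplittingField) f β t
    have hGPL : GP f β L := GP_hom (IsAlgClosed.lift : L →ₐ[K] AlgebraicClosure K) hGP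
    have hT := tree_of_splits (L := L) (by omega) hGPL hs
    have hO := orb_of_stab (L := L) (by omega) hnt hT hs hst hm hi hdvd
    have hfr := frob_in (M := (derivative f).SplittingField) (L := L) (by omega) hGP
      (IsSplittingField.splits _ _) hnt hT hO hs hm hdvd
    have hOfin : (OO f h n0 L t).Finite := (lev_fin hT le_rfl).subset (hO.sub t le_rfl)
    have hden := frobenius_density (K := K) (L := L) (hPIT K) (fun M => hPIT M) (OO f h n0 L t)
      hOfin (fun g x hx => hO.inv t le_rfl g x hx) (ε := ε / 4) (by positivity)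
    have hqe : q (L ≃ₐ[K] L) (OO f h n0 L) t = qq f h β n0 t := by
      first
        | exact q_indep (L := L) (by omega) hnt hdvd (hs t le_rfl)
        | exact q_indep (L := L) hnt hdvd (hs t le_rfl)
    have hE := EFin_fin (hPIT K) hfr (ε / 4) (by positivity)
    filter_upwards [hden, hE] with X h1 h2
    have h3 : SS f h β ⊆ {v | v ∈ SS f h β ∧ ¬ ∃ g : L ≃ₐ[K] L,
        (∃ x ∈ OO f h n0 L t, g • x = x) ∧ IsFr K L v g} ∪
        {v | ∃ g : L ≃ₐ[K] L, (∃ x ∈ OO f h n0 L t, g • x = x) ∧ IsFr K L v g} := by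
      intro v hv
      by_cases hg : ∃ g : L ≃ₐ[K] L, (∃ x ∈ OO f h n0 L t, g • x = x) ∧ IsFr K L v g
      · exact Or.inr hg
      · exact Or.inl ⟨hv, hg⟩
    have h4 := (EFin_mono_prc h3 X).trans (EFin_union_prc _ _ X)
    have h5 : (prc K (SS f h β) X : ℝ) ≤ (prc K {v | v ∈ SS f h β ∧ ¬ ∃ g : L ≃ₐ[K] L,
        (∃ x ∈ OO f h n0 L t, g • x = x) ∧ IsFr K L v g} X : ℝ) +
        (prc K {v | ∃ g : L ≃ₐ[K] L, (∃ x ∈ OO f h n0 L t, g • x = x) ∧ IsFr K L v g} X : ℝ) := by
      exact_mod_cast h4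
    have h6 : (Nat.card {g : L ≃ₐ[K] L // ∃ x ∈ OO f h n0 L t, g • x = x} : ℝ) /
        Nat.card (L ≃ₐ[K] L) < ε / 4 := by
      have : q (L ≃ₐ[K] L) (OO f h n0 L) t < ε / 4 := by rw [hqe]; exact hqt
      exact this
    have h7 : (0 : ℝ) ≤ prc K Set.univ X := Nat.cast_nonneg _
    have h8 : ((Nat.card {g : L ≃ₐ[K] L // ∃ x ∈ OO f h n0 L t, g • x = x} : ℝ) /
        Nat.card (L ≃ₐ[K] L) + ε / 4) * prc K Set.univ X ≤ (ε / 4 + ε / 4) * prc K Set.univ X :=
      mul_le_mul_of_nonneg_right (by linarith) h7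
    nlinarith

theorem density_zero2 (hPIT : ∀ (E : Type) [Field E] [NumberField E], PITh E)
    {K : Type} [Field K] [NumberField K] {f : K[X]} {β : K}
    (hd : 2 ≤ f.natDegree) (hper : ∀ n, 1 ≤ n → (FA f K)^[n] β ≠ β)
    (hGP : Wandering f β → GP f β (AlgebraicClosure K)) (hES : ES f β) :
    Tendsto (fun X : ℕ => (prc K {v | ∃ n, 1 ≤ n ∧
      v.valuation K ((FA f K)^[n] β - β) < 1} X : ℝ) / prc K Set.univ X) atTop (𝓝 0) := by
  apply EFin_tendsto
  by_cases hw : Wandering f β
  · obtain ⟨n0, hst⟩ := exists_stab (by omega) hES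
    have hc := cover (f := f) (β := β) (by omega) n0
    have hS : EFinSm K (⋃ h ∈ {g : K[X] | g.Monic ∧ Irreducible g ∧ g ∣ f.comp^[n0] X - C β},
        SS f h β) := EFin_bUnion (hPIT K) (fac_finite (by omega) n0) _
      (fun h hh => EFin_SS2 hPIT hd (hGP hw) hst hh.1 hh.2.1 hh.2.2)
    refine EFin_mono ?_ (EFin_union (EFin_fin (hPIT K) hc) hS)
    intro v hv
    by_cases hv2 : v ∈ ⋃ h ∈ {g : K[X] | g.Monic ∧ Irreducible g ∧ g ∣ f.comp^[n0] X - C β},
        SS f h β
    · exact Or.inr hv2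
    · exact Or.inl ⟨hv, hv2⟩
  · exact EFin_fin (hPIT K) (prep_finite hw hper)

end Pool.Agent.H42.PC
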