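/-
ROW GHa. Index lemmas. `P.ind x = (P.st x).relIndex P.I`, `P.st x = P.I ⊓ stabilizer G x`.
Useful from PCM/G1: GSt_mem, GSt_one, st_mono, GSt_index, GSt_orbit, step_one, step_two, step_ge,
path_le, `Subgroup.relIndex_mul_relIndex`.
PROOFS.
* ind_base: for `x ∈ lev F b 0`, `x = b`, every `g` fixes `b` (hT.fix), so `P.st b = P.I`, relIndex
  is 1 (`Subgroup.relIndex_self` after rewriting, or `relIndex_eq_one`).
* ind_mul: `Subgroup.relIndex_mul_relIndex (P.st x) (P.st (F^[j] x)) P.I (st_mono ..) inf_le_left`.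
* ind_one: ind_mul with `j = 1` and step_one.
* ind_two: ind_mul with `j = 1`, step_two and step_ge (so the relative index is 2).
* ind_pow: induction on `t`: ind_base, and for `x ∈ lev (t+1)`: ind_mul (j=1), the relative index is
  `≤ 2` (step_two) and `≠ 0` (`Subgroup.index_ne_zero_of_finite`), hence 1 or 2.
* ind_gen: the orbit of `x` under `P.I` is `{σ^j • x}` by `hgen`; its size is
  `(P.st x).relIndex P.I` (`MulAction.index_stabilizer` for the action of the subgroup `P.I`, as in
  the proof of GSt_index). It is also the orbit of `x` under `Subgroup.zpowers σ`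
  (`MulAction.orbit (Subgroup.zpowers σ) x`; G is finite so `zpowers = powers`), whose size is
  `Function.minimalPeriod (σ • ·) x` (`MulAction.minimalPeriod_eq_card` or
  `Nat.card_zpowers`-type lemmas, `MulAction.orbitZPowersEquiv`). Finally
  `MulAction.pow_smul_eq_iff_minimalPeriod_dvd`.
-/
import Pool.Agent.H42.AD.Defs

set_option autoImplicit false

namespace Pool.Agent.H42.PC

open scoped Classical

variable {G Ω : Type} [Group G] [MulAction G Ω] {F : Ω → Ω} {b : Ω} {d N s J n t0 : ℕ}

theorem ind_base (hT : Tree G F b d N) (P : Place G F b s J N) {x : Ω} (hx : x ∈ lev F b 0) :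
    P.ind x = 1 := by
  have hxb : x = b := hx
  unfold Place.ind
  rw [Subgroup.relIndex_eq_one]
  intro g hg
  rw [GSt_mem]
  exact ⟨hg, by rw [hxb]; exact hT.fix g⟩

theorem ind_mul (hT : Tree G F b d N) (P : Place G F b s J N) (x : Ω) (j : ℕ) :
    P.ind x = (P.st x).relIndex (P.st (F^[j] x)) * P.ind (F^[j] x) := by
  unfold Place.ind
  exact (Subgroup.relIndex_mul_relIndex _ _ _ (st_mono hT P x j) inf_le_left).symm

theorem ind_one [Finite G] (hT : Tree G F b d N) (P : Place G F b s J N) {t : ℕ} (ht : t < N)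
    {x : Ω} (hx : x ∈ lev F b (t + 1)) (hA : P.red x ∉ P.A) : P.ind x = P.ind (F x) := by
  have h := ind_mul hT P x 1
  rw [Function.iterate_one, step_one hT P ht hx hA, one_mul] at h
  exact h

theorem ind_two [Finite G] (hT : Tree G F b d N) (P : Place G F b s J N) {t : ℕ} (ht : t < N)
    {x : Ω} (hx : x ∈ lev F b (t + 1)) (hg : ∃ g ∈ P.I, g • F x = F x ∧ g • x ≠ x) :
    P.ind x = 2 * P.ind (F x) := by
  have h := ind_mul hT P x 1
  rw [Function.iterate_one] at h
  have h2 : (P.st x).relIndex (P.st (F x)) = 2 :=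
    le_antisymm (step_two hT P ht hx) (step_ge hT P ht hx hg)
  rw [h, h2]

theorem ind_pow [Finite G] (hT : Tree G F b d N) (P : Place G F b s J N) {t : ℕ} (ht : t ≤ N)
    {x : Ω} (hx : x ∈ lev F b t) : ∃ e, P.ind x = 2 ^ e := by
  induction t generalizing x with
  | zero => exact ⟨0, ind_base hT P hx⟩
  | succ t ih =>
    have hF : F x ∈ lev F b t := by
      have := lev_iter (j := 1) hx (by omega)
      simpa using this
    obtain ⟨e, he⟩ := ih (by omega) hF
    have h := ind_mul hT P x 1
    rw [Function.iterate_one] at h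
    have h2 := step_two hT P (show t < N by omega) hx
    have h0 : (P.st x).relIndex (P.st (F x)) ≠ 0 := by
      unfold Subgroup.relIndex
      exact Subgroup.index_ne_zero_of_finite
    have h3 : (P.st x).relIndex (P.st (F x)) = 1 ∨ (P.st x).relIndex (P.st (F x)) = 2 := by
      omega
    rcases h3 with h3 | h3
    · exact ⟨e, by rw [h, h3, he, one_mul]⟩
    · exact ⟨e + 1, by rw [h, h3, he, pow_succ]; ring⟩

theorem ind_gen [Finite G] (P : Place G F b s J N) {σ : G} (hσ : σ ∈ P.I) {x : Ω}
    (hgen : ∀ g ∈ P.I, ∃ j : ℕ, g • x = σ ^ j • x) (j : ℕ) : σ ^ j • x = x ↔ P.ind x ∣ j := by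
  have h1 : P.ind x = (MulAction.orbit P.I x).ncard := by
    rw [← MulAction.index_stabilizer]
    unfold Place.ind Subgroup.relIndex
    congr 1
    ext g
    rw [Subgroup.mem_subgroupOf, GSt_mem, MulAction.mem_stabilizer_iff]
    constructor
    · exact fun h => h.2
    · intro h
      exact ⟨g.2, h⟩
  have h2 : MulAction.orbit P.I x = MulAction.orbit (Subgroup.zpowers σ) x := by
    ext z
    constructor
    · rintro ⟨g, rfl⟩
      obtain ⟨i, hi⟩ := hgen g g.2
      refine ⟨⟨σ ^ i, Subgroup.npow_mem_zpowers σ i⟩, ?_⟩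
      exact hi.symm
    · rintro ⟨g, rfl⟩
      obtain ⟨k, hk⟩ := Subgroup.mem_zpowers_iff.1 g.2
      refine ⟨⟨g, ?_⟩, rfl⟩
      rw [← hk]
      exact Subgroup.zpow_mem _ hσ k
  have hfin : Finite (MulAction.orbit (Subgroup.zpowers σ) x) := Set.finite_range _
  have := Fintype.ofFinite (MulAction.orbit (Subgroup.zpowers σ) x)
  have h3 : P.ind x = Function.minimalPeriod (σ • ·) x := by
    rw [h1, h2, MulAction.minimalPeriod_eq_card, ← Nat.card_eq_fintype_card]
    rfl
  rw [h3]
  exact MulAction.pow_smul_eq_iff_minimalPeriod_dvd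

end Pool.Agent.H42.PC
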